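import Pool.Agent.W_5d512e_post.ADefs

/-!
# Task A2: polynomials
-/

set_option autoImplicit false

namespace Pool.Agent.W_5d512e_post

open PowerSeries

theorem A2_co_add (f g : BS) (p j : ℕ) : co (f + g) p j = co f p j + co g p j := by
  simp [co]

theorem A2_co_neg (f : BS) (p j : ℕ) : co (-f) p j = -co f p j := by
  simp [co]

theorem A2_co_mul (f g : BS) (p j : ℕ) :
    co (f * g) p j = ∑ x ∈ Finset.HasAntidiagonal.antidiagonal p,
      ∑ y ∈ Finset.HasAntidiagonal.antidiagonal j, co f x.1 y.1 * co g x.2 y.2 := by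
  unfold co
  rw [coeff_mul, map_sum]
  refine Finset.sum_congr rfl fun x _ => ?_
  rw [coeff_mul]

/-- TASK A2. Polynomials (all theorems of this file and the ring `PR`). -/
theorem Pl.mono {C D : ℕ} {f : BS} (hf : Pl C f) (h : C ≤ D) : Pl D f := by
  intro p j hpj
  exact hf p j (by omega)

theorem Pl.add {C D : ℕ} {f g : BS} (hf : Pl C f) (hg : Pl D g) : Pl (max C D) (f + g) := by
  intro p j hpj
  rw [A2_co_add, hf.mono (le_max_left C D) p j hpj, hg.mono (le_max_right C D) p j hpj, add_zero]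

theorem Pl.mul {C D : ℕ} {f g : BS} (hf : Pl C f) (hg : Pl D g) : Pl (C + D) (f * g) := by
  intro p j hpj
  rw [A2_co_mul]
  refine Finset.sum_eq_zero fun x hx => Finset.sum_eq_zero fun y hy => ?_
  rw [Finset.HasAntidiagonal.mem_antidiagonal] at hx hy
  by_cases h : C < x.1 ∨ C < y.1
  · rw [hf _ _ h, zero_mul]
  · rw [hg x.2 y.2 (by omega), mul_zero]

theorem Pl.cart {C r s : ℕ} {f : BS} (hf : Pl (2 * C + 1) f) : Pl C (cart r s f) := by
  intro p j hpj
  rw [co_cart]
  exact hf _ _ (by omega)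

theorem Pl.finite (C : ℕ) : {f : BS | Pl C f}.Finite := by
  have h : Finite {f : BS | Pl C f} := by
    refine Finite.of_injective
      (fun (f : {f : BS | Pl C f}) (p j : Fin (C + 1)) => co f.1 p j) ?_
    intro f g hfg
    apply Subtype.ext
    apply co_ext
    intro p j
    by_cases hpj : C < p ∨ C < j
    · rw [f.2 p j hpj, g.2 p j hpj]
    · have h1 := congrFun (congrFun hfg ⟨p, by omega⟩) ⟨j, by omega⟩
      exact h1
  exact Set.toFinite _

/-- The subring of polynomials. -/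
def PR : Subring BS where
  carrier := {f | ∃ C, Pl C f}
  mul_mem' := fun ⟨C, hf⟩ ⟨D, hg⟩ => ⟨C + D, hf.mul hg⟩
  one_mem' := by
    refine ⟨0, fun p j hpj => ?_⟩
    unfold co
    rw [coeff_one]
    split_ifs with h
    · rw [coeff_one, if_neg (by omega)]
    · rw [map_zero]
  add_mem' := fun ⟨C, hf⟩ ⟨D, hg⟩ => ⟨max C D, hf.add hg⟩
  zero_mem' := ⟨0, fun p j _ => by simp [co]⟩
  neg_mem' := by
    rintro x ⟨C, hC⟩
    exact ⟨C, fun p j hpj => by rw [A2_co_neg, hC p j hpj, neg_zero]⟩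

theorem mem_PR {f : BS} : f ∈ PR ↔ ∃ C, Pl C f := Iff.rfl

theorem tt_mem : tt ∈ PR := by
  refine ⟨1, fun p j hpj => ?_⟩
  unfold co tt
  rw [coeff_C]
  split_ifs with h
  · rw [coeff_X, if_neg (by omega)]
  · rw [map_zero]

theorem zz_mem : zz ∈ PR := by
  refine ⟨1, fun p j hpj => ?_⟩
  unfold co zz
  rw [coeff_X]
  split_ifs with h
  · rw [coeff_one, if_neg (by omega)]
  · rw [map_zero]

theorem kk_mem (x : ZMod 2) : kk x ∈ PR := by
  refine ⟨0, fun p j hpj => ?_⟩
  unfold co kk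
  rw [coeff_C]
  split_ifs with h
  · rw [coeff_C, if_neg (by omega)]
  · rw [map_zero]

end Pool.Agent.W_5d512e_post
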