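import Pool.Agent.W_5d512e_post.A1
import Pool.Agent.W_5d512e_post.A2

/-!
# Task A4: Christol, part 2
-/

set_option autoImplicit false

namespace Pool.Agent.W_5d512e_post

open PowerSeries

private theorem A4_cart_zero (r s : ℕ) : cart r s (0 : BS) = 0 := by
  have h := cart_sum (ι := ℕ) r s ∅ (fun _ => (0 : BS))
  simpa using h

private theorem A4_mem_cart {g : BS} (r s : ℕ) (h : ∃ C, Pl C g) : ∃ C, Pl C (cart r s g) := by
  obtain ⟨C, hC⟩ := h
  exact ⟨C, (hC.mono (show C ≤ 2 * C + 1 by omega)).cart⟩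

/-- Lowering the least index. -/
private theorem A4_lower (f : BS) (i0 : ℕ) : ∀ (M : ℕ) (a : ℕ → BS), (∀ i, ∃ C, Pl C (a i)) →
    i0 < M → (∀ i < i0, a i = 0) → a i0 ≠ 0 →
    ∑ i ∈ Finset.range M, a i * f ^ (2 ^ i) = 0 →
    ∃ (m : ℕ) (a : ℕ → BS), (∀ i, ∃ C, Pl C (a i)) ∧ a 0 ≠ 0 ∧
      a 0 * f = ∑ i ∈ Finset.range m, a (i + 1) * f ^ (2 ^ (i + 1)) := by
  induction i0 with
  | zero =>
    intro M a ha hM _ h0 hsum
    obtain ⟨m, rfl⟩ : ∃ m, M = m + 1 := ⟨M - 1, by omega⟩
    rw [Finset.sum_range_succ', pow_zero, pow_one] at hsum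
    refine ⟨m, fun i => if i = 0 then a 0 else - a i, fun i => ?_, ?_, ?_⟩
    · by_cases hi : i = 0
      · simp only [hi, if_true]
        exact ha 0
      · simp only [hi, if_false]
        exact PR.neg_mem (mem_PR.2 (ha i))
    · simpa using h0
    · simp only [if_true, Nat.succ_ne_zero, if_false, neg_mul, Finset.sum_neg_distrib]
      exact (neg_eq_of_add_eq_zero_right hsum).symm
  | succ i0 ih =>
    intro M a ha hM hlt h0 hsum
    obtain ⟨m, rfl⟩ : ∃ m, M = m + 1 := ⟨M - 1, by omega⟩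
    rw [Finset.sum_range_succ', hlt 0 (Nat.succ_pos _), zero_mul, add_zero] at hsum
    obtain ⟨r, s, hr, hs, hne⟩ := exists_cart_ne h0
    refine ih m (fun i => cart r s (a (i + 1))) (fun i => A4_mem_cart r s (ha (i + 1))) (by omega)
      (fun i hi => ?_) hne ?_
    · rw [hlt (i + 1) (by omega), A4_cart_zero]
    · have h1 := congrArg (cart r s) hsum
      rw [cart_sum, A4_cart_zero] at h1
      rw [← h1]
      refine Finset.sum_congr rfl fun i _ => ?_
      rw [pow_succ, pow_mul, mul_comm (a (i + 1)), cart_sq_mul hr hs, mul_comm]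

/-- A linear relation between the powers `f ^ (2 ^ i)`. -/
private theorem A4_dep {f : BS} (h : IsAlgebraic PR f) :
    ∃ (M : ℕ) (b : ℕ → BS), (∀ i, ∃ C, Pl C (b i)) ∧ (∃ i < M, b i ≠ 0) ∧
      ∑ i ∈ Finset.range M, b i * f ^ (2 ^ i) = 0 := by
  obtain ⟨P, hP0, hP⟩ := h
  set d := P.natDegree with hd
  set a : PR := P.leadingCoeff with ha
  have ha0 : a ≠ 0 := Polynomial.leadingCoeff_ne_zero.2 hP0
  have haB : (a : BS) ≠ 0 := by
    intro h0
    exact ha0 (Subtype.ext h0)
  rw [Polynomial.aeval_eq_sum_range, ← hd, Finset.sum_range_succ] at hP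
  have hd1 : 1 ≤ d := by
    by_contra hcon
    have hd0 : d = 0 := by omega
    rw [hd0, Finset.sum_range_zero, zero_add, pow_zero] at hP
    have h1 : P.coeff 0 = a := by
      rw [ha, Polynomial.leadingCoeff, ← hd, hd0]
    rw [h1, Algebra.smul_def, mul_one] at hP
    exact haB hP
  have had : P.coeff d = a := rfl
  rw [had] at hP
  set N : Submodule PR BS := Submodule.span PR (Set.range fun j : Fin d => f ^ (j : ℕ)) with hN
  have hgen : ∀ j, j < d → f ^ j ∈ N := fun j hj => Submodule.subset_span ⟨⟨j, hj⟩, rfl⟩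
  have hstep : ∀ x ∈ N, (a : BS) * f * x ∈ N := by
    intro x hx
    rw [hN] at hx
    induction hx using Submodule.span_induction with
    | mem x hx =>
      obtain ⟨j, rfl⟩ := hx
      have h1 : (a : BS) * f * f ^ (j : ℕ) = a • f ^ ((j : ℕ) + 1) := by
        rw [Algebra.smul_def, pow_succ]
        show (a : BS) * f * f ^ (j : ℕ) = (a : BS) * (f ^ (j : ℕ) * f)
        ring
      simp only
      rw [h1]
      by_cases hj : (j : ℕ) + 1 < d
      · exact N.smul_mem _ (hgen _ hj)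
      · have hj1 : (j : ℕ) + 1 = d := by
          have := j.2
          omega
        rw [hj1, ← neg_eq_of_add_eq_zero_right hP]
        apply N.neg_mem
        exact N.sum_mem fun i hi => N.smul_mem _ (hgen i (Finset.mem_range.1 hi))
    | zero =>
      rw [mul_zero]
      exact N.zero_mem
    | add x y _ _ hx hy =>
      rw [mul_add]
      exact N.add_mem hx hy
    | smul c x _ hx =>
      rw [mul_smul_comm]
      exact N.smul_mem _ hx
  have hpow : ∀ k : ℕ, (a : BS) ^ k * f ^ k ∈ N := by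
    intro k
    induction k with
    | zero =>
      rw [pow_zero, one_mul]
      exact hgen 0 (by omega)
    | succ k ih =>
      have h1 : (a : BS) ^ (k + 1) * f ^ (k + 1) = (a : BS) * f * ((a : BS) ^ k * f ^ k) := by ring
      rw [h1]
      exact hstep _ ih
  have hrep : ∀ i : Fin (d + 1), ∃ c : Fin d → PR,
      ∑ j, c j • f ^ (j : ℕ) = (a : BS) ^ (2 ^ (i : ℕ)) * f ^ (2 ^ (i : ℕ)) := by
    intro i
    exact (Submodule.mem_span_range_iff_exists_fun PR).1 (hpow (2 ^ (i : ℕ)))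
  choose w hw using hrep
  have hdep : ¬ LinearIndependent PR w := by
    intro hli
    have h1 := hli.fintype_card_le_finrank
    rw [Fintype.card_fin, Module.finrank_fin_fun] at h1
    omega
  rw [Fintype.not_linearIndependent_iff] at hdep
  obtain ⟨g, hg, i1, hi1⟩ := hdep
  refine ⟨d + 1, fun i => if h : i < d + 1 then ((g ⟨i, h⟩ * a ^ (2 ^ i) : PR) : BS) else 0,
    fun i => ?_, ⟨i1, i1.2, ?_⟩, ?_⟩
  · by_cases hi : i < d + 1
    · simp only [hi, dif_pos]
      exact mem_PR.1 (g ⟨i, hi⟩ * a ^ (2 ^ i) : PR).2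
    · simp only [hi, dif_neg, not_false_eq_true]
      exact mem_PR.1 PR.zero_mem
  · simp only [i1.2, dif_pos]
    intro h0
    have h1 : (g i1 * a ^ (2 ^ (i1 : ℕ)) : PR) = 0 := Subtype.ext h0
    rcases mul_eq_zero.1 h1 with h2 | h2
    · exact hi1 h2
    · exact ha0 (pow_eq_zero_iff (by positivity) |>.1 h2)
  · rw [Finset.sum_range]
    have h1 : ∀ i : Fin (d + 1), (if h : (i : ℕ) < d + 1 then
        ((g ⟨i, h⟩ * a ^ (2 ^ (i : ℕ)) : PR) : BS) else 0) * f ^ (2 ^ (i : ℕ)) =
        ∑ j, (g i * w i j) • f ^ (j : ℕ) := by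
      intro i
      rw [dif_pos i.2]
      have h2 : ((g i * a ^ (2 ^ (i : ℕ)) : PR) : BS) * f ^ (2 ^ (i : ℕ)) =
          g i • ((a : BS) ^ (2 ^ (i : ℕ)) * f ^ (2 ^ (i : ℕ))) := by
        rw [Algebra.smul_def]
        show ((g i * a ^ (2 ^ (i : ℕ)) : PR) : BS) * f ^ (2 ^ (i : ℕ)) =
          (g i : BS) * ((a : BS) ^ (2 ^ (i : ℕ)) * f ^ (2 ^ (i : ℕ)))
        push_cast
        ring
      rw [Fin.eta, h2, ← hw i, Finset.smul_sum]
      exact Finset.sum_congr rfl fun j _ => smul_smul _ _ _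
    simp only [h1]
    rw [Finset.sum_comm]
    refine Finset.sum_eq_zero fun j _ => ?_
    rw [← Finset.sum_smul]
    have h3 := congrFun hg j
    simp only [Finset.sum_apply, Pi.smul_apply, smul_eq_mul, Pi.zero_apply] at h3
    rw [h3, zero_smul]

/-- TASK A4. The powers `f ^ (2 ^ i)` are linearly dependent over the fraction field of `PR` (they
lie in a finite dimensional space), so `∑ i ≤ m, a i * f ^ (2 ^ i) = 0` with polynomials `a i`, not
all `0`. If `i₀` is the least index with `a i₀ ≠ 0` and `i₀ > 0`, choose `r, s` with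
`cart r s (a i₀) ≠ 0` and apply `cart r s`: this lowers `i₀`. -/
theorem rel_of_algebraic {f : BS} (h : IsAlgebraic PR f) :
    ∃ (m : ℕ) (a : ℕ → BS), (∀ i, ∃ C, Pl C (a i)) ∧ a 0 ≠ 0 ∧
      a 0 * f = ∑ i ∈ Finset.range m, a (i + 1) * f ^ (2 ^ (i + 1)) := by
  classical
  obtain ⟨M, b, hb, hex, hsum⟩ := A4_dep h
  obtain ⟨i, hi, hbi⟩ := hex
  have hex' : ∃ i, b i ≠ 0 := ⟨i, hbi⟩
  refine A4_lower f (Nat.find hex') M b hb (lt_of_le_of_lt (Nat.find_min' hex' hbi) hi)
    (fun j hj => ?_) (Nat.find_spec hex') hsum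
  by_contra hne
  exact Nat.find_min hex' hj hne

end Pool.Agent.W_5d512e_post
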