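import Pool.Agent.W_5d512e_post.ADefs

/-!
# Linear arrays
-/

set_option autoImplicit false

namespace Pool.Agent.W_5d512e_post

open PowerSeries Matrix

/-- Linear arrays with two kinds of coordinates. -/
structure LinArr {N : ℕ} (ty : Fin N → Prop) (A : Matrix (Fin N) (Fin N) (ZMod 2))
    (b : Fin N → ZMod 2) (v : ℕ → ℕ → Fin N → ZMod 2) : Prop where
  x0 : ∀ k, ty k → ∀ j, v 0 j k = b k
  x1 : ∀ k, ty k → ∀ p j, v (p + 1) j k = ∑ i, A k i * v p j i
  s0 : ∀ k, ¬ ty k → ∀ p, v p 0 k = b k
  s1 : ∀ k, ¬ ty k → ∀ p j, v p (j + 1) k = ∑ i, A k i * v (p + 1) j i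

open Classical in
/-- Rows of the first kind of a matrix. -/
noncomputable def rowX {N : ℕ} {R : Type} [Zero R] (ty : Fin N → Prop)
    (A : Matrix (Fin N) (Fin N) R) : Matrix (Fin N) (Fin N) R :=
  fun k i => if ty k then A k i else 0

open Classical in
/-- Rows of the second kind of a matrix. -/
noncomputable def rowS {N : ℕ} {R : Type} [Zero R] (ty : Fin N → Prop)
    (A : Matrix (Fin N) (Fin N) R) : Matrix (Fin N) (Fin N) R :=
  fun k i => if ty k then 0 else A k i

open Classical in
noncomputable def vecX {N : ℕ} {R : Type} [Zero R] (ty : Fin N → Prop) (b : Fin N → R) :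
    Fin N → R := fun k => if ty k then b k else 0

open Classical in
noncomputable def vecS {N : ℕ} {R : Type} [Zero R] (ty : Fin N → Prop) (b : Fin N → R) :
    Fin N → R := fun k => if ty k then 0 else b k

end Pool.Agent.W_5d512e_post
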