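import Pool.Agent.W_5d512e_post.B1
import Pool.Agent.W_5d512e_post.BDefs

/-!
# Task B6: the generating series of a linear array
-/

set_option autoImplicit false

namespace Pool.Agent.W_5d512e_post

open PowerSeries Matrix


private theorem B6_rec0 {N : ℕ} {ty : Fin N → Prop} {A : Matrix (Fin N) (Fin N) (ZMod 2)}
    {b : Fin N → ZMod 2} {v : ℕ → ℕ → Fin N → ZMod 2} (h : LinArr ty A b v) (k : Fin N) :
    (PowerSeries.mk fun j => v 0 j k) =
      vecS ty (fun k => (C (b k) : PowerSeries (ZMod 2))) k +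
      (PowerSeries.mk fun _ => (1 : ZMod 2)) * vecX ty (fun k => (C (b k) : PowerSeries (ZMod 2))) k +
      X * (rowS ty (A.map (C : ZMod 2 →+* PowerSeries (ZMod 2))) *ᵥ
        (fun i => (PowerSeries.mk fun j => v 1 j i))) k := by
  classical
  by_cases hk : ty k
  · have e1 : (rowS ty (A.map (C : ZMod 2 →+* PowerSeries (ZMod 2))) *ᵥ
        (fun i => (PowerSeries.mk fun j => v 1 j i))) k = 0 := by
      simp [Matrix.mulVec, dotProduct, rowS, hk]
    rw [e1]
    ext j
    simp [vecS, vecX, hk, h.x0 k hk j]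
  · have e1 : (rowS ty (A.map (C : ZMod 2 →+* PowerSeries (ZMod 2))) *ᵥ
        (fun i => (PowerSeries.mk fun j => v 1 j i))) k =
        ∑ i, C (A k i) * (PowerSeries.mk fun j => v 1 j i) := by
      simp [Matrix.mulVec, dotProduct, rowS, hk]
    rw [e1]
    ext j
    cases j with
    | zero => simp [vecS, vecX, hk, h.s0 k hk 0]
    | succ j =>
      rw [map_add, map_add, PowerSeries.coeff_succ_X_mul, map_sum]
      simp [vecS, vecX, hk, h.s1 k hk 0 j]

private theorem B6_rec1 {N : ℕ} {ty : Fin N → Prop} {A : Matrix (Fin N) (Fin N) (ZMod 2)}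
    {b : Fin N → ZMod 2} {v : ℕ → ℕ → Fin N → ZMod 2} (h : LinArr ty A b v) (n : ℕ) (k : Fin N) :
    (PowerSeries.mk fun j => v (n + 1) j k) =
      vecS ty (fun k => (C (b k) : PowerSeries (ZMod 2))) k +
      (rowX ty (A.map (C : ZMod 2 →+* PowerSeries (ZMod 2))) *ᵥ
        (fun i => (PowerSeries.mk fun j => v n j i))) k +
      X * (rowS ty (A.map (C : ZMod 2 →+* PowerSeries (ZMod 2))) *ᵥ
        (fun i => (PowerSeries.mk fun j => v (n + 2) j i))) k := by
  classical
  by_cases hk : ty k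
  · have e1 : (rowS ty (A.map (C : ZMod 2 →+* PowerSeries (ZMod 2))) *ᵥ
        (fun i => (PowerSeries.mk fun j => v (n + 2) j i))) k = 0 := by
      simp [Matrix.mulVec, dotProduct, rowS, hk]
    have e2 : (rowX ty (A.map (C : ZMod 2 →+* PowerSeries (ZMod 2))) *ᵥ
        (fun i => (PowerSeries.mk fun j => v n j i))) k =
        ∑ i, C (A k i) * (PowerSeries.mk fun j => v n j i) := by
      simp [Matrix.mulVec, dotProduct, rowX, hk]
    rw [e1, e2]
    ext j
    rw [map_add, map_add, map_sum]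
    simp [vecS, hk, h.x1 k hk n j]
  · have e1 : (rowS ty (A.map (C : ZMod 2 →+* PowerSeries (ZMod 2))) *ᵥ
        (fun i => (PowerSeries.mk fun j => v (n + 2) j i))) k =
        ∑ i, C (A k i) * (PowerSeries.mk fun j => v (n + 2) j i) := by
      simp [Matrix.mulVec, dotProduct, rowS, hk]
    have e2 : (rowX ty (A.map (C : ZMod 2 →+* PowerSeries (ZMod 2))) *ᵥ
        (fun i => (PowerSeries.mk fun j => v n j i))) k = 0 := by
      simp [Matrix.mulVec, dotProduct, rowX, hk]
    rw [e1, e2]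
    ext j
    cases j with
    | zero => simp [vecS, hk, h.s0 k hk (n + 1)]
    | succ j =>
      rw [map_add, map_add, PowerSeries.coeff_succ_X_mul, map_sum]
      simp [vecS, hk, h.s1 k hk (n + 1) j]

/-- A sequence with `E n = t H Θ E n + t H E (n+1)` vanishes. -/
private theorem B6_zero {N : ℕ} (M H : Matrix (Fin N) (Fin N) (PowerSeries (ZMod 2)))
    (E : ℕ → Fin N → PowerSeries (ZMod 2))
    (hE : ∀ n k, E n k = X * (M *ᵥ E n) k + X * (H *ᵥ E (n + 1)) k) (n : ℕ) (k : Fin N) :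
    E n k = 0 := by
  have key : ∀ m : ℕ, ∀ n k, (X : PowerSeries (ZMod 2)) ^ m ∣ E n k := by
    intro m
    induction m with
    | zero => intro n k; simp
    | succ m ih =>
      intro n k
      rw [hE n k, pow_succ']
      apply dvd_add
      · apply mul_dvd_mul_left
        simp only [Matrix.mulVec, dotProduct]
        exact Finset.dvd_sum fun i _ => Dvd.dvd.mul_left (ih n i) _
      · apply mul_dvd_mul_left
        simp only [Matrix.mulVec, dotProduct]
        exact Finset.dvd_sum fun i _ => Dvd.dvd.mul_left (ih (n + 1) i) _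
  ext j
  have := PowerSeries.X_pow_dvd_iff.mp (key (j + 1) n k) j (Nat.lt_succ_self j)
  simpa using this

private theorem B6_main {N : ℕ} {ty : Fin N → Prop} {A : Matrix (Fin N) (Fin N) (ZMod 2)}
    {b : Fin N → ZMod 2} {v : ℕ → ℕ → Fin N → ZMod 2} (h : LinArr ty A b v) :
    ∃ (Θ : Matrix (Fin N) (Fin N) (PowerSeries (ZMod 2))) (w u : Fin N → PowerSeries (ZMod 2)),
      Θ = rowX ty (A.map C) + (X : PowerSeries (ZMod 2)) • (rowS ty (A.map C) * Θ * Θ) ∧
      (1 - (X : PowerSeries (ZMod 2)) • (rowS ty (A.map C) * Θ) - (X : PowerSeries (ZMod 2)) • rowS ty (A.map C)) *ᵥ w =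
        vecS ty (fun k => C (b k)) ∧
      (1 - (X : PowerSeries (ZMod 2)) • (rowS ty (A.map C) * Θ)) *ᵥ u = vecX ty (fun k => C (b k)) ∧
      (∀ n k, (PowerSeries.mk fun j => v (n + 1) j k) -
        (Θ *ᵥ (fun i => PowerSeries.mk fun j => v n j i)) k = w k) ∧
      (∀ k, u k = (1 - X) * ((PowerSeries.mk fun j => v 0 j k) - w k)) := by
  classical
  obtain ⟨Θ, hΘ⟩ := exists_theta (rowX ty (A.map (C : ZMod 2 →+* PowerSeries (ZMod 2))))
    (rowS ty (A.map (C : ZMod 2 →+* PowerSeries (ZMod 2))))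
  obtain ⟨G, hG⟩ : ∃ G, G = rowX ty (A.map (C : ZMod 2 →+* PowerSeries (ZMod 2))) := ⟨_, rfl⟩
  obtain ⟨H, hH⟩ : ∃ H, H = rowS ty (A.map (C : ZMod 2 →+* PowerSeries (ZMod 2))) := ⟨_, rfl⟩
  obtain ⟨s, hs⟩ : ∃ s, s = vecS ty (fun k => (C (b k) : PowerSeries (ZMod 2))) := ⟨_, rfl⟩
  obtain ⟨x, hx⟩ : ∃ x, x = vecX ty (fun k => (C (b k) : PowerSeries (ZMod 2))) := ⟨_, rfl⟩
  obtain ⟨V, hV⟩ : ∃ V : ℕ → Fin N → PowerSeries (ZMod 2), V = fun n k => PowerSeries.mk fun j => v n j k := ⟨_, rfl⟩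
  have r0 : V 0 = s + (PowerSeries.mk fun _ => (1 : ZMod 2)) • x + (X : PowerSeries (ZMod 2)) • (H *ᵥ V 1) := by
    funext k
    have := B6_rec0 h k
    simp only [hV, hs, hx, hH]
    simpa [Pi.add_apply, Pi.smul_apply, smul_eq_mul] using this
  have r1 : ∀ n, V (n + 1) = s + G *ᵥ V n + (X : PowerSeries (ZMod 2)) • (H *ᵥ V (n + 2)) := by
    intro n
    funext k
    have := B6_rec1 h n k
    simp only [hV, hs, hG, hH]
    simpa [Pi.add_apply, Pi.smul_apply, smul_eq_mul] using this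
  rw [← hG, ← hH] at hΘ
  rw [← hG, ← hH, ← hs, ← hx]
  have hGe : G = Θ - (X : PowerSeries (ZMod 2)) • (H * Θ * Θ) := by
    exact eq_sub_of_add_eq hΘ.symm
  -- differences
  obtain ⟨D, hD⟩ : ∃ D : ℕ → Fin N → PowerSeries (ZMod 2), D = fun n => V (n + 1) - Θ *ᵥ V n := ⟨_, rfl⟩
  have hDr : ∀ n, D n = s + (X : PowerSeries (ZMod 2)) • (H *ᵥ (D (n + 1) + Θ *ᵥ D n)) := by
    intro n
    have a1 : D (n + 1) + Θ *ᵥ D n = V (n + 2) - Θ *ᵥ (Θ *ᵥ V n) := by
      simp only [hD]
      rw [Matrix.mulVec_sub]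
      abel
    have a2 : (H * Θ * Θ) *ᵥ V n = H *ᵥ (Θ *ᵥ (Θ *ᵥ V n)) := by
      rw [Matrix.mulVec_mulVec, Matrix.mulVec_mulVec, Matrix.mul_assoc]
    rw [a1, Matrix.mulVec_sub, ← a2, smul_sub]
    simp only [hD]
    rw [r1 n, hGe, Matrix.sub_mulVec, Matrix.smul_mulVec]
    abel
  have hconst1 : ∀ n, D n = D (n + 1) := by
    intro n
    funext k
    have := B6_zero (H * Θ) H (fun n => D n - D (n + 1)) (by
      intro n k
      have e : D n - D (n + 1) = (X : PowerSeries (ZMod 2)) • ((H * Θ) *ᵥ (D n - D (n + 1))) +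
          (X : PowerSeries (ZMod 2)) • (H *ᵥ (D (n + 1) - D (n + 1 + 1))) := by
        have e0 : D n - D (n + 1) =
            (s + (X : PowerSeries (ZMod 2)) • (H *ᵥ (D (n + 1) + Θ *ᵥ D n))) -
            (s + (X : PowerSeries (ZMod 2)) • (H *ᵥ (D (n + 1 + 1) + Θ *ᵥ D (n + 1)))) := by
          rw [← hDr n, ← hDr (n + 1)]
        rw [← Matrix.mulVec_mulVec, ← smul_add, ← Matrix.mulVec_add]
        refine e0.trans ?_
        rw [add_sub_add_left_eq_sub, ← smul_sub, ← Matrix.mulVec_sub]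
        congr 2
        rw [Matrix.mulVec_sub]
        abel
      have e' := congrFun e k
      simpa [Pi.add_apply, Pi.smul_apply, smul_eq_mul] using e') n k
    exact sub_eq_zero.mp this
  have hconst : ∀ n, D n = D 0 := by
    intro n
    induction n with
    | zero => rfl
    | succ n ih => rw [← hconst1 n, ih]
  have hw : D 0 = s + (X : PowerSeries (ZMod 2)) • (H *ᵥ (D 0 + Θ *ᵥ D 0)) := by
    have := hDr 0
    rw [hconst (0 + 1)] at this
    exact this
  have hw' : (X : PowerSeries (ZMod 2)) • (H *ᵥ D 0) + (X : PowerSeries (ZMod 2)) • ((H * Θ) *ᵥ D 0) = D 0 - s := by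
    rw [eq_sub_iff_add_eq']
    conv_rhs => rw [hw]
    rw [← Matrix.mulVec_mulVec, ← smul_add, ← Matrix.mulVec_add]
  have hV1 : V 1 = D 0 + Θ *ᵥ V 0 := by
    simp only [hD]
    abel
  have h1 : (1 - X : PowerSeries (ZMod 2)) * (PowerSeries.mk fun _ => (1 : ZMod 2)) = 1 := by
    rw [mul_comm]
    exact PowerSeries.mk_one_mul_one_sub_eq_one (ZMod 2)
  refine ⟨Θ, D 0, (1 - X : PowerSeries (ZMod 2)) • (V 0 - D 0), hΘ, ?_, ?_, ?_, ?_⟩
  · rw [Matrix.sub_mulVec, Matrix.sub_mulVec, Matrix.one_mulVec, Matrix.smul_mulVec,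
      Matrix.smul_mulVec]
    have : D 0 - (X : PowerSeries (ZMod 2)) • ((H * Θ) *ᵥ D 0) - (X : PowerSeries (ZMod 2)) • (H *ᵥ D 0) =
      D 0 - ((X : PowerSeries (ZMod 2)) • (H *ᵥ D 0) + (X : PowerSeries (ZMod 2)) • ((H * Θ) *ᵥ D 0)) := by abel
    rw [this, hw']
    abel
  · rw [Matrix.mulVec_smul, Matrix.sub_mulVec, Matrix.one_mulVec, Matrix.smul_mulVec]
    have e0 := r0
    rw [hV1, Matrix.mulVec_add, Matrix.mulVec_mulVec, smul_add] at e0
    have : V 0 - D 0 - (X : PowerSeries (ZMod 2)) • ((H * Θ) *ᵥ (V 0 - D 0)) =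
        (PowerSeries.mk fun _ => (1 : ZMod 2)) • x := by
      rw [Matrix.mulVec_sub, smul_sub]
      have e2 : V 0 - (X : PowerSeries (ZMod 2)) • ((H * Θ) *ᵥ V 0) =
          s + (PowerSeries.mk fun _ => (1 : ZMod 2)) • x + (X : PowerSeries (ZMod 2)) • (H *ᵥ D 0) := by
        rw [sub_eq_iff_eq_add]
        conv_lhs => rw [e0]
        abel
      have e3 : V 0 - D 0 - ((X : PowerSeries (ZMod 2)) • ((H * Θ) *ᵥ V 0) -
          (X : PowerSeries (ZMod 2)) • ((H * Θ) *ᵥ D 0)) =
          (V 0 - (X : PowerSeries (ZMod 2)) • ((H * Θ) *ᵥ V 0)) +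
          (X : PowerSeries (ZMod 2)) • ((H * Θ) *ᵥ D 0) - D 0 := by abel
      rw [e3, e2]
      have e4 : (X : PowerSeries (ZMod 2)) • ((H * Θ) *ᵥ D 0) = D 0 - s - (X : PowerSeries (ZMod 2)) • (H *ᵥ D 0) := by
        rw [← hw']
        abel
      rw [e4]
      abel
    rw [this, smul_smul, h1, one_smul]
  · intro n k
    have := congrFun (hconst n) k
    rw [← this]
    simp only [hD, hV, Pi.sub_apply]
  · intro k
    simp only [hV, Pi.smul_apply, Pi.sub_apply, smul_eq_mul]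

/-- TASK B6. Over `PowerSeries (ZMod 2)` (variable `t`) let `Θ = G + t H Θ²` with `G = rowX A`,
`H = rowS A`; `w` = the solution of `(1 - t H Θ - t H) w = vecS b`, `u` = the solution of
`(1 - t H Θ) u = vecX b` (the determinants are units). Define `V_0 = w + u / (1 - t)`,
`V_(n+1) = Θ V_n + w`. Then `V_n = vecS b + [n = 0] vecX b / (1 - t) + G V_(n-1) + t H V_(n+1)`
(`V_(-1) = 0`), and comparing coefficients shows that the coefficient of `t ^ j` in `V_n` is `v n j`
(induction on `j`, for fixed `j` on `n`). The identity below is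
`(1 - z Θ) V = w / (1 - z) + u / (1 - t)`. -/
theorem series_eq {N : ℕ} {ty : Fin N → Prop} {A : Matrix (Fin N) (Fin N) (ZMod 2)}
    {b : Fin N → ZMod 2} {v : ℕ → ℕ → Fin N → ZMod 2} (h : LinArr ty A b v) :
    ∃ (Θ : Matrix (Fin N) (Fin N) BS) (w u : Fin N → BS),
      Θ = rowX ty (A.map kk) + tt • (rowS ty (A.map kk) * Θ * Θ) ∧
      (1 - tt • (rowS ty (A.map kk) * Θ) - tt • rowS ty (A.map kk)) *ᵥ w =
        vecS ty (fun k => kk (b k)) ∧
      (1 - tt • (rowS ty (A.map kk) * Θ)) *ᵥ u = vecX ty (fun k => kk (b k)) ∧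
      (1 - zz • Θ) *ᵥ (fun k => (1 - zz) * (1 - tt) *
        (PowerSeries.mk fun p => PowerSeries.mk fun j => v p j k)) =
        fun k => (1 - tt) * w k + (1 - zz) * u k := by
  classical
  obtain ⟨Θ, w, u, h1, h2, h3, h4, h5⟩ := B6_main h
  obtain ⟨φ, hφ⟩ : ∃ φ : PowerSeries (ZMod 2) →+* BS, φ = PowerSeries.C := ⟨_, rfl⟩
  have hX : rowX ty (A.map kk) = (rowX ty (A.map (C : ZMod 2 →+* PowerSeries (ZMod 2)))).map φ := by
    ext1 k i
    by_cases hk : ty k <;> simp [rowX, hk, kk, hφ]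
  have hS : rowS ty (A.map kk) = (rowS ty (A.map (C : ZMod 2 →+* PowerSeries (ZMod 2)))).map φ := by
    ext1 k i
    by_cases hk : ty k <;> simp [rowS, hk, kk, hφ]
  have htt : tt = φ X := by rw [hφ]; rfl
  have hsm : ∀ M : Matrix (Fin N) (Fin N) (PowerSeries (ZMod 2)),
      tt • M.map φ = ((X : PowerSeries (ZMod 2)) • M).map φ := by
    intro M
    ext1 k i
    simp [htt]
  refine ⟨Θ.map φ, fun k => φ (w k), fun k => φ (u k), ?_, ?_, ?_, ?_⟩
  · rw [hX, hS, ← Matrix.map_mul, ← Matrix.map_mul, hsm]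
    conv_lhs => rw [h1]
    rw [Matrix.map_add _ (map_add φ)]
  · have hM : (1 - tt • ((rowS ty (A.map kk)) * Θ.map φ) - tt • rowS ty (A.map kk)) =
        (1 - (X : PowerSeries (ZMod 2)) • (rowS ty (A.map C) * Θ) -
          (X : PowerSeries (ZMod 2)) • rowS ty (A.map C)).map φ := by
      rw [hS, ← Matrix.map_mul, hsm, hsm, Matrix.map_sub _ (map_sub φ), Matrix.map_sub _ (map_sub φ),
        Matrix.map_one _ (map_zero φ) (map_one φ)]
    rw [hM]
    funext k
    have e := congrArg φ (congrFun h2 k)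
    rw [RingHom.map_mulVec] at e
    refine e.trans ?_
    by_cases hk : ty k <;> simp [vecS, hk, kk, hφ]
  · have hM : (1 - tt • ((rowS ty (A.map kk)) * Θ.map φ)) =
        (1 - (X : PowerSeries (ZMod 2)) • (rowS ty (A.map C) * Θ)).map φ := by
      rw [hS, ← Matrix.map_mul, hsm, Matrix.map_sub _ (map_sub φ),
        Matrix.map_one _ (map_zero φ) (map_one φ)]
    rw [hM]
    funext k
    have e := congrArg φ (congrFun h3 k)
    rw [RingHom.map_mulVec] at e
    refine e.trans ?_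
    by_cases hk : ty k <;> simp [vecX, hk, kk, hφ]
  · funext k
    obtain ⟨S, hSd⟩ : ∃ S : Fin N → BS, S = fun k =>
        (PowerSeries.mk fun p => PowerSeries.mk fun j => v p j k) := ⟨_, rfl⟩
    have hz : (1 - zz) * (PowerSeries.mk fun _ => (1 : PowerSeries (ZMod 2))) = (1 : BS) := by
      rw [mul_comm]
      exact PowerSeries.mk_one_mul_one_sub_eq_one (PowerSeries (ZMod 2))
    have hk1 : S k - zz * (Θ.map φ *ᵥ S) k =
        φ (PowerSeries.mk fun j => v 0 j k) + zz * (φ (w k) * (PowerSeries.mk fun _ => (1 : PowerSeries (ZMod 2)))) := by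
      have hsum : (Θ.map φ *ᵥ S) k = ∑ i, PowerSeries.C (Θ k i) * S i := by
        simp [Matrix.mulVec, dotProduct, hφ]
      rw [hsum, hφ, hSd]
      refine PowerSeries.ext fun p => ?_
      cases p with
      | zero =>
        simp [zz]
      | succ p =>
        rw [map_sub, map_add, zz, PowerSeries.coeff_succ_X_mul, PowerSeries.coeff_succ_X_mul, map_sum]
        simp only [PowerSeries.coeff_mk, PowerSeries.coeff_C_mul, PowerSeries.coeff_C, mul_one]
        have := h4 p k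
        simp only [Matrix.mulVec, dotProduct] at this
        rw [this]
        simp
    have hlhs : ((1 - zz • Θ.map φ) *ᵥ (fun k => (1 - zz) * (1 - tt) *
        (PowerSeries.mk fun p => PowerSeries.mk fun j => v p j k))) k =
        (1 - zz) * (1 - tt) * (S k - zz * (Θ.map φ *ᵥ S) k) := by
      have : (fun k => (1 - zz) * (1 - tt) *
        (PowerSeries.mk fun p => PowerSeries.mk fun j => v p j k)) = ((1 - zz) * (1 - tt)) • S := by
        funext k
        simp [hSd]
      rw [this, Matrix.mulVec_smul, Matrix.sub_mulVec, Matrix.one_mulVec, Matrix.smul_mulVec]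
      simp [Pi.sub_apply, Pi.smul_apply, smul_eq_mul]
    rw [hlhs, hk1]
    have h5' : φ (u k) = (1 - tt) * (φ (PowerSeries.mk fun j => v 0 j k) - φ (w k)) := by
      rw [h5 k, map_mul, map_sub, map_one, map_sub, htt]
    show _ = (1 - tt) * φ (w k) + (1 - zz) * φ (u k)
    rw [h5']
    linear_combination (1 - tt) * zz * φ (w k) * hz

end Pool.Agent.W_5d512e_post
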