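import Pool.Agent.W_5d512e_post.B5
import Pool.Agent.W_5d512e_post.B6

/-!
# Task B7: the generating series is algebraic
-/

set_option autoImplicit false

namespace Pool.Agent.W_5d512e_post

open PowerSeries Matrix

private theorem B7_co_sub (f g : BS) (p j : ℕ) : co (f - g) p j = co f p j - co g p j := by
  simp [co]

private theorem B7_co_tt_mul (f : BS) : co (tt * f) 0 0 = 0 := by
  simp [co, tt]

private theorem B7_co_zz_mul (f : BS) : co (zz * f) 0 0 = 0 := by
  simp [co, zz]

private theorem B7_co_one : co 1 0 0 = 1 := by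
  simp [co]

private theorem B7_co_zero (p j : ℕ) : co 0 p j = 0 := by
  simp [co]

private theorem B7_co_one_apply {N : ℕ} (i j : Fin N) :
    co ((1 : Matrix (Fin N) (Fin N) BS) i j) 0 0 = if i = j then 1 else 0 := by
  rw [Matrix.one_apply]
  split_ifs
  · exact B7_co_one
  · exact B7_co_zero 0 0

private theorem B7_alg_sub {f g : BS} (hf : IsAlgebraic PR f) (hg : IsAlgebraic PR g) :
    IsAlgebraic PR (f - g) := by
  have h1 : f - g = f + (-1) * g := by ring
  rw [h1]
  exact alg_add hf (alg_mul (alg_mem (PR.neg_mem PR.one_mem)) hg)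

private theorem B7_alg_zero : IsAlgebraic PR (0 : BS) := alg_mem PR.zero_mem

private theorem B7_alg_one : IsAlgebraic PR (1 : BS) := alg_mem PR.one_mem

private theorem B7_alg_sum {ι : Type} (S : Finset ι) (f : ι → BS)
    (h : ∀ i ∈ S, IsAlgebraic PR (f i)) : IsAlgebraic PR (∑ i ∈ S, f i) := by
  classical
  induction S using Finset.induction_on with
  | empty => simpa using B7_alg_zero
  | insert a s ha ih =>
    rw [Finset.sum_insert ha]
    exact alg_add (h a (Finset.mem_insert_self a s))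
      (ih fun i hi => h i (Finset.mem_insert_of_mem hi))

private theorem B7_rowX_mem {N : ℕ} (ty : Fin N → Prop) (A : Matrix (Fin N) (Fin N) (ZMod 2))
    (i j : Fin N) : rowX ty (A.map kk) i j ∈ PR := by
  unfold rowX
  split_ifs
  · exact kk_mem _
  · exact PR.zero_mem

private theorem B7_rowS_mem {N : ℕ} (ty : Fin N → Prop) (A : Matrix (Fin N) (Fin N) (ZMod 2))
    (i j : Fin N) : rowS ty (A.map kk) i j ∈ PR := by
  unfold rowS
  split_ifs
  · exact PR.zero_mem
  · exact kk_mem _

private theorem B7_vecX_mem {N : ℕ} (ty : Fin N → Prop) (b : Fin N → ZMod 2)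
    (i : Fin N) : vecX ty (fun k => kk (b k)) i ∈ PR := by
  unfold vecX
  split_ifs
  · exact kk_mem _
  · exact PR.zero_mem

private theorem B7_vecS_mem {N : ℕ} (ty : Fin N → Prop) (b : Fin N → ZMod 2)
    (i : Fin N) : vecS ty (fun k => kk (b k)) i ∈ PR := by
  unfold vecS
  split_ifs
  · exact PR.zero_mem
  · exact kk_mem _

/-- TASK B7. From B3, B5, B6. -/
theorem linArr_alg {N : ℕ} {ty : Fin N → Prop} {A : Matrix (Fin N) (Fin N) (ZMod 2)}
    {b : Fin N → ZMod 2} {v : ℕ → ℕ → Fin N → ZMod 2} (h : LinArr ty A b v) (k : Fin N) :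
    IsAlgebraic PR (PowerSeries.mk fun p => PowerSeries.mk fun j => v p j k : BS) := by
  obtain ⟨Θ, w, u, hΘ, hw, hu, hV⟩ := series_eq h
  have hT : ∀ i j, IsAlgebraic PR (Θ i j) :=
    theta_alg (B7_rowX_mem ty A) (B7_rowS_mem ty A) hΘ
  have hHT : ∀ i j, IsAlgebraic PR ((tt • (rowS ty (A.map kk) * Θ)) i j) := by
    intro i j
    rw [Matrix.smul_apply, smul_eq_mul, Matrix.mul_apply]
    exact alg_mul (alg_mem tt_mem)
      (B7_alg_sum _ _ fun l _ => alg_mul (alg_mem (B7_rowS_mem ty A i l)) (hT l j))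
  have hone : ∀ i j, IsAlgebraic PR ((1 : Matrix (Fin N) (Fin N) BS) i j) := by
    intro i j
    rw [Matrix.one_apply]
    split_ifs
    · exact B7_alg_one
    · exact B7_alg_zero
  have hwa : ∀ i, IsAlgebraic PR (w i) := by
    intro i
    refine alg_of_mulVec ?_ ?_ (fun i => alg_mem (B7_vecS_mem ty b i)) hw i
    · intro i j
      rw [Matrix.sub_apply, Matrix.sub_apply]
      refine B7_alg_sub (B7_alg_sub (hone i j) (hHT i j)) ?_
      rw [Matrix.smul_apply, smul_eq_mul]
      exact alg_mul (alg_mem tt_mem) (alg_mem (B7_rowS_mem ty A i j))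
    · refine det_ne_zero fun i j => ?_
      rw [Matrix.sub_apply, Matrix.sub_apply, Matrix.smul_apply, Matrix.smul_apply, smul_eq_mul,
        smul_eq_mul, B7_co_sub, B7_co_sub, B7_co_tt_mul, B7_co_tt_mul, B7_co_one_apply, sub_zero,
        sub_zero]
  have hua : ∀ i, IsAlgebraic PR (u i) := by
    intro i
    refine alg_of_mulVec ?_ ?_ (fun i => alg_mem (B7_vecX_mem ty b i)) hu i
    · intro i j
      rw [Matrix.sub_apply]
      exact B7_alg_sub (hone i j) (hHT i j)
    · refine det_ne_zero fun i j => ?_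
      rw [Matrix.sub_apply, Matrix.smul_apply, smul_eq_mul, B7_co_sub, B7_co_tt_mul,
        B7_co_one_apply, sub_zero]
  have h1z : (1 - zz : BS) ∈ PR := PR.sub_mem PR.one_mem zz_mem
  have h1t : (1 - tt : BS) ∈ PR := PR.sub_mem PR.one_mem tt_mem
  have hF := alg_of_mulVec (M := 1 - zz • Θ) (w := fun k => (1 - zz) * (1 - tt) *
        (PowerSeries.mk fun p => PowerSeries.mk fun j => v p j k))
      (c := fun k => (1 - tt) * w k + (1 - zz) * u k) (by
        intro i j
        rw [Matrix.sub_apply, Matrix.smul_apply, smul_eq_mul]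
        exact B7_alg_sub (hone i j) (alg_mul (alg_mem zz_mem) (hT i j))) (by
        refine det_ne_zero fun i j => ?_
        rw [Matrix.sub_apply, Matrix.smul_apply, smul_eq_mul, B7_co_sub, B7_co_zz_mul,
          B7_co_one_apply, sub_zero]) (fun i =>
        alg_add (alg_mul (alg_mem h1t) (hwa i)) (alg_mul (alg_mem h1z) (hua i))) hV k
  have hz0 : (1 - zz : BS) ≠ 0 := by
    intro h0
    have h2 := congrArg (fun f => co f 0 0) h0
    simp only [B7_co_sub, B7_co_zero] at h2
    rw [B7_co_one, show co zz 0 0 = 0 by simp [co, zz]] at h2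
    simp at h2
  have ht0 : (1 - tt : BS) ≠ 0 := by
    intro h0
    have h2 := congrArg (fun f => co f 0 0) h0
    simp only [B7_co_sub, B7_co_zero] at h2
    rw [B7_co_one, show co tt 0 0 = 0 by simp [co, tt]] at h2
    simp at h2
  exact alg_of_mul_eq (g := (1 - zz) * (1 - tt)) (alg_mem (PR.mul_mem h1z h1t))
    (mul_ne_zero hz0 ht0) hF rfl

end Pool.Agent.W_5d512e_post
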