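import Mathlib

/-!
# Power series in two variables over the field with two elements
-/

set_option autoImplicit false

namespace Pool.Agent.W_5d512e_post

open PowerSeries

/-- Power series in `z` (outer variable) and `t` (inner variable). -/
abbrev BS : Type := PowerSeries (PowerSeries (ZMod 2))

/-- The coefficient of `z ^ p * t ^ j`. -/
noncomputable def co (f : BS) (p j : ℕ) : ZMod 2 := coeff j (coeff p f)

/-- The Cartier operators. -/
noncomputable def cart (r s : ℕ) (f : BS) : BS :=
  PowerSeries.mk fun p => PowerSeries.mk fun j => co f (2 * p + r) (2 * j + s)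

/-- Polynomials of degree at most `C` in each variable. -/
def Pl (C : ℕ) (f : BS) : Prop := ∀ p j, C < p ∨ C < j → co f p j = 0

theorem co_ext {f g : BS} (h : ∀ p j, co f p j = co g p j) : f = g := by
  ext p j
  exact h p j

theorem co_cart (r s : ℕ) (f : BS) (p j : ℕ) :
    co (cart r s f) p j = co f (2 * p + r) (2 * j + s) := by
  simp [co, cart]

/-- `f` lies in a finite set which is closed under the Cartier operators. -/
def FinKer (f : BS) : Prop :=
  ∃ Φ : Set BS, Φ.Finite ∧ f ∈ Φ ∧ ∀ h ∈ Φ, ∀ r < 2, ∀ s < 2, cart r s h ∈ Φ

/-- The two variables, and the constants. -/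
noncomputable def tt : BS := PowerSeries.C (PowerSeries.X : PowerSeries (ZMod 2))

noncomputable def zz : BS := PowerSeries.X

noncomputable def kk (x : ZMod 2) : BS := PowerSeries.C (PowerSeries.C x)

end Pool.Agent.W_5d512e_post
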