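import Pool.Agent.W_5d512e_post.Ls
import Pool.Agent.W_5d512e_post.ADefs

/-!
# Task C1: series with finite kernel in log space
-/

set_option autoImplicit false

namespace Pool.Agent.W_5d512e_post

open Pool.Agent.W_MP_5d512e_h33 Pool.Agent.W_5d512e_h57

private theorem C1_div (n p : ℕ) (h : p ≤ n) : p / 2 ^ n = 0 :=
  Nat.div_eq_of_lt (lt_of_le_of_lt h Nat.lt_two_pow_self)

/-- TASK C1. Coefficients of a series with finite kernel. Number the elements of `Φ` by
`0, ..., M-1`; the loop `(q, p, j) ↦ (table q (p % 2) (j % 2), p / 2, j / 2)` repeated `p + j` times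
ends in `(q', 0, 0)` and the value is the constant coefficient of `q'` (`co (cart r s f) p j =
co f (2 p + r) (2 j + s)`; once `p = j = 0` nothing changes). Tables of finite support are `LS`
(`ls_tab`, `ls_tab2`). -/
theorem lsp_of_finKer {f : BS} (h : FinKer f) : LSp (fun x : ℕ × ℕ => co f x.1 x.2 = 1) := by
  classical
  obtain ⟨Φ, hfin, hf, hcl⟩ := h
  haveI : Finite Φ := hfin.to_subtype
  obtain ⟨M, ⟨e⟩⟩ := Finite.exists_equiv_fin Φ
  let dec : ℕ → BS := fun q => if h : q < M then (e.symm ⟨q, h⟩ : BS) else f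
  let cod : BS → ℕ := fun g => if h : g ∈ Φ then (e ⟨g, h⟩ : ℕ) else 0
  have hdec : ∀ q, dec q ∈ Φ := by
    intro q
    by_cases hq : q < M
    · simp only [dec, dif_pos hq]
      exact (e.symm ⟨q, hq⟩).2
    · simp only [dec, dif_neg hq]
      exact hf
  have hcod : ∀ g ∈ Φ, cod g < M ∧ dec (cod g) = g := by
    intro g hg
    have h1 : cod g = (e ⟨g, hg⟩ : ℕ) := dif_pos hg
    have h2 : cod g < M := by
      rw [h1]
      exact (e ⟨g, hg⟩).2
    refine ⟨h2, ?_⟩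
    have h3 : dec (cod g) = (e.symm ⟨cod g, h2⟩ : BS) := dif_pos h2
    rw [h3]
    have h4 : (⟨cod g, h2⟩ : Fin M) = e ⟨g, hg⟩ := Fin.ext h1
    rw [h4, e.symm_apply_apply]
  have hM : 0 < M := (Nat.zero_le _).trans_lt (hcod f hf).1
  let tab : ℕ → ℕ → ℕ → ℕ := fun r s q => if q < M then cod (cart r s (dec q)) else 0
  have htab : ∀ r s, LS (tab r s) := fun r s => ls_tab M fun x hx => if_neg (by omega)
  let tr : ℕ → ℕ → ℕ → ℕ := fun q r s =>
    if r = 0 then (if s = 0 then tab 0 0 q else tab 0 1 q)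
    else (if s = 0 then tab 1 0 q else tab 1 1 q)
  have htr : ∀ q r s, r < 2 → s < 2 → tr q r s = tab r s q := by
    intro q r s hr hs
    have hr' : r = 0 ∨ r = 1 := by omega
    have hs' : s = 0 ∨ s = 1 := by omega
    rcases hr' with rfl | rfl <;> rcases hs' with rfl | rfl <;> rfl
  have htabM : ∀ r s q, r < 2 → s < 2 → tab r s q < M := by
    intro r s q hr hs
    by_cases hq : q < M
    · have h1 : tab r s q = cod (cart r s (dec q)) := if_pos hq
      rw [h1]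
      exact (hcod _ (hcl _ (hdec q) r hr s hs)).1
    · have h1 : tab r s q = 0 := if_neg hq
      rw [h1]
      exact hM
  let S : ℕ × ℕ × ℕ → ℕ × ℕ × ℕ := fun x =>
    (tr x.1 (x.2.1 % 2) (x.2.2 % 2), x.2.1 / 2, x.2.2 / 2)
  have inv : ∀ (p j i : ℕ), (S^[i] (cod f, p, j)).1 < M ∧
      co (dec (S^[i] (cod f, p, j)).1) (p / 2 ^ i) (j / 2 ^ i) = co f p j ∧
      (S^[i] (cod f, p, j)).2.1 = p / 2 ^ i ∧ (S^[i] (cod f, p, j)).2.2 = j / 2 ^ i := by
    intro p j i
    induction i with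
    | zero =>
      have h1 := hcod f hf
      refine ⟨h1.1, ?_, ?_, ?_⟩
      · show co (dec (cod f)) (p / 2 ^ 0) (j / 2 ^ 0) = co f p j
        rw [h1.2, pow_zero, Nat.div_one, Nat.div_one]
      · show p = p / 2 ^ 0
        rw [pow_zero, Nat.div_one]
      · show j = j / 2 ^ 0
        rw [pow_zero, Nat.div_one]
    | succ i ih =>
      obtain ⟨h1, h2, h3, h4⟩ := ih
      rw [Function.iterate_succ_apply']
      set x := S^[i] (cod f, p, j) with hx
      have hr : p / 2 ^ i % 2 < 2 := Nat.mod_lt _ (by norm_num)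
      have hs : j / 2 ^ i % 2 < 2 := Nat.mod_lt _ (by norm_num)
      have h5 : (S x).1 = cod (cart (p / 2 ^ i % 2) (j / 2 ^ i % 2) (dec x.1)) := by
        show tr x.1 (x.2.1 % 2) (x.2.2 % 2) = _
        rw [h3, h4, htr _ _ _ hr hs]
        exact if_pos h1
      have h6 := hcod _ (hcl _ (hdec x.1) _ hr _ hs)
      have hp2 : p / 2 ^ (i + 1) = p / 2 ^ i / 2 := by
        rw [pow_succ, Nat.div_div_eq_div_mul]
      have hj2 : j / 2 ^ (i + 1) = j / 2 ^ i / 2 := by
        rw [pow_succ, Nat.div_div_eq_div_mul]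
      refine ⟨?_, ?_, ?_, ?_⟩
      · rw [h5]
        exact h6.1
      · rw [h5, h6.2, co_cart, hp2, hj2, Nat.div_add_mod, Nat.div_add_mod, h2]
      · show x.2.1 / 2 = _
        rw [h3, hp2]
      · show x.2.2 / 2 = _
        rw [h4, hj2]
  have hS : LS (fun x : (ℕ × ℕ) × (ℕ × ℕ × ℕ) => S x.2) := by
    have t00 : LS (fun x : (ℕ × ℕ) × (ℕ × ℕ × ℕ) => tab 0 0 x.2.1) :=
      LS.comp (htab 0 0) (by fun_prop)
    have t01 : LS (fun x : (ℕ × ℕ) × (ℕ × ℕ × ℕ) => tab 0 1 x.2.1) :=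
      LS.comp (htab 0 1) (by fun_prop)
    have t10 : LS (fun x : (ℕ × ℕ) × (ℕ × ℕ × ℕ) => tab 1 0 x.2.1) :=
      LS.comp (htab 1 0) (by fun_prop)
    have t11 : LS (fun x : (ℕ × ℕ) × (ℕ × ℕ × ℕ) => tab 1 1 x.2.1) :=
      LS.comp (htab 1 1) (by fun_prop)
    have e1 : LS (fun x : (ℕ × ℕ) × (ℕ × ℕ × ℕ) =>
        if x.2.2.1 % 2 = 0 then (if x.2.2.2 % 2 = 0 then tab 0 0 x.2.1 else tab 0 1 x.2.1)
        else (if x.2.2.2 % 2 = 0 then tab 1 0 x.2.1 else tab 1 1 x.2.1)) :=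
      LS.ite (by fun_prop) (LS.ite (by fun_prop) t00 t01) (LS.ite (by fun_prop) t10 t11)
    exact LS.prodMk e1 (LS.prodMk (by fun_prop) (by fun_prop))
  have hiter := LS.iter (α := ℕ × ℕ) (f := fun a => (cod f, a.1, a.2)) (n := fun a => a.1 + a.2)
    (g := fun (_ : ℕ × ℕ) (s : ℕ × ℕ × ℕ) => S s) (by fun_prop) (by fun_prop) hS
    (Bq.pair (Bq.of_le (f := fun _ => M) (by fun_prop)
        (fun a i _ => (inv a.1 a.2 i).1.le))
      (Bq.pair (Bq.of_le (f := fun a => a.1) (by fun_prop) (fun a i _ => by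
          show (S^[i] (cod f, a.1, a.2)).2.1 ≤ a.1
          rw [(inv a.1 a.2 i).2.2.1]
          exact Nat.div_le_self _ _))
        (Bq.of_le (f := fun a => a.2) (by fun_prop) (fun a i _ => by
          show (S^[i] (cod f, a.1, a.2)).2.2 ≤ a.2
          rw [(inv a.1 a.2 i).2.2.2]
          exact Nat.div_le_self _ _))))
  let val : ℕ → ℕ := fun q => if q < M then (if co (dec q) 0 0 = 1 then 1 else 0) else 0
  have hval : LS val := ls_tab M fun x hx => if_neg (by omega)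
  refine ⟨fun a => val (S^[a.1 + a.2] (cod f, a.1, a.2)).1, LS.comp hval (LS.fst hiter), ?_⟩
  intro a
  obtain ⟨h1, h2, -, -⟩ := inv a.1 a.2 (a.1 + a.2)
  rw [C1_div _ _ (Nat.le_add_right _ _), C1_div _ _ (Nat.le_add_left _ _)] at h2
  show co f a.1 a.2 = 1 ↔ (if (S^[a.1 + a.2] (cod f, a.1, a.2)).1 < M then
    (if co (dec (S^[a.1 + a.2] (cod f, a.1, a.2)).1) 0 0 = 1 then 1 else 0) else 0) ≠ 0
  rw [if_pos h1, h2]
  by_cases hc : co f a.1 a.2 = 1
  · rw [if_pos hc]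
    exact ⟨fun _ => by norm_num, fun _ => hc⟩
  · rw [if_neg hc]
    exact ⟨fun h => absurd h hc, fun h => absurd rfl h⟩

end Pool.Agent.W_5d512e_post
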