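import Pool.Agent.W_5d512e_post.Defs
import Pool.Agent.W_5d512e_post.BDefs

/-!
# Task C2: affine functions
-/

set_option autoImplicit false

namespace Pool.Agent.W_5d512e_post

variable {N : ℕ} {ty : Fin N → Prop} {F : Fin N → (Fin N → Bool) → Bool} {b : Fin N → Bool}
  {v : ℕ → ℕ → Fin N → Bool}

private def C2_e (b : Bool) : ZMod 2 := if b then 1 else 0

private theorem C2_xor (a b : Bool) : C2_e (xor a b) = C2_e a + C2_e b := by
  cases a <;> cases b <;> decide

private theorem C2_one (a : Bool) : a = true ↔ C2_e a = 1 := by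
  cases a <;> decide

private theorem C2_set {n : ℕ} {f : (Fin n → Bool) → Bool} (hf : Affine f) (s : Finset (Fin n)) :
    C2_e (f (fun i => decide (i ∈ s))) = C2_e (f (fun _ => false)) +
      ∑ i ∈ s, (C2_e (f (fun _ => false)) + C2_e (f (fun j => decide (j = i)))) := by
  induction s using Finset.induction_on with
  | empty => simp
  | insert a s ha ih =>
    have h1 := hf (fun i => decide (i ∈ s)) (fun _ => false) (fun j => decide (j = a))
    have h2 : (fun i => xor (decide (i ∈ s)) (xor false (decide (i = a)))) =
        fun i => decide (i ∈ insert a s) := by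
      funext i
      by_cases hi : i = a
      · subst hi
        simp [ha]
      · simp [hi]
    rw [h2] at h1
    rw [h1, C2_xor, C2_xor, ih, Finset.sum_insert ha]
    ring

private theorem C2_lin {n : ℕ} {f : (Fin n → Bool) → Bool} (hf : Affine f) (x : Fin n → Bool) :
    C2_e (f x) = ∑ i, (C2_e (f (fun _ => false)) + C2_e (f (fun j => decide (j = i)))) * C2_e (x i) +
      C2_e (f (fun _ => false)) := by
  have h1 := C2_set hf (Finset.univ.filter (fun i => x i = true))
  have h2 : (fun i => decide (i ∈ Finset.univ.filter (fun i => x i = true))) = x := by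
    funext i
    simp
  rw [h2] at h1
  rw [h1, add_comm, Finset.sum_filter]
  congr 1
  refine Finset.sum_congr rfl fun i _ => ?_
  cases hx : x i <;> simp [C2_e]

/-- TASK C2. An affine Boolean function is `f 0 + ∑ (f 0 + f e_i) x_i`; add one more coordinate
(of the first kind) with the constant value `1`. -/
theorem lin_of_arr (h : IsArr ty F b v) (hF : ∀ k, Affine (F k)) :
    ∃ (ty' : Fin (N + 1) → Prop) (A : Matrix (Fin (N + 1)) (Fin (N + 1)) (ZMod 2))
      (b' : Fin (N + 1) → ZMod 2) (v' : ℕ → ℕ → Fin (N + 1) → ZMod 2), LinArr ty' A b' v' ∧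
      ∀ p j k, (v p j k = true ↔ v' p j (Fin.castSucc k) = 1) := by
  classical
  refine ⟨fun k => Fin.lastCases (motive := fun _ => Prop) True (fun k => ty k) k,
    fun k i => Fin.lastCases (motive := fun _ => ZMod 2)
      (Fin.lastCases (motive := fun _ => ZMod 2) 1 (fun _ => 0) i)
      (fun k => Fin.lastCases (motive := fun _ => ZMod 2) (C2_e (F k (fun _ => false)))
        (fun i => C2_e (F k (fun _ => false)) + C2_e (F k (fun j => decide (j = i)))) i) k,
    fun k => Fin.lastCases (motive := fun _ => ZMod 2) 1 (fun k => C2_e (b k)) k,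
    fun p j k => Fin.lastCases (motive := fun _ => ZMod 2) 1 (fun k => C2_e (v p j k)) k, ?_, ?_⟩
  · constructor
    · intro k hk j
      rcases Fin.eq_castSucc_or_eq_last k with ⟨k, rfl⟩ | rfl
      · simp only [Fin.lastCases_castSucc] at hk ⊢
        rw [h.x0 k hk j]
      · simp only [Fin.lastCases_last]
    · intro k hk p j
      rcases Fin.eq_castSucc_or_eq_last k with ⟨k, rfl⟩ | rfl
      · simp only [Fin.sum_univ_castSucc, Fin.lastCases_last, Fin.lastCases_castSucc, mul_one] at hk ⊢
        rw [h.x1 k hk p j]
        exact C2_lin (hF k) (v p j)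
      · simp only [Fin.sum_univ_castSucc, Fin.lastCases_last, Fin.lastCases_castSucc]
        simp
    · intro k hk p
      rcases Fin.eq_castSucc_or_eq_last k with ⟨k, rfl⟩ | rfl
      · simp only [Fin.lastCases_castSucc] at hk ⊢
        rw [h.s0 k hk p]
      · simp only [Fin.lastCases_last, not_true_eq_false] at hk
    · intro k hk p j
      rcases Fin.eq_castSucc_or_eq_last k with ⟨k, rfl⟩ | rfl
      · simp only [Fin.sum_univ_castSucc, Fin.lastCases_last, Fin.lastCases_castSucc, mul_one] at hk ⊢
        rw [h.s1 k hk p j]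
        exact C2_lin (hF k) (v (p + 1) j)
      · simp only [Fin.lastCases_last, not_true_eq_false] at hk
  · intro p j k
    simp only [Fin.lastCases_castSucc]
    exact C2_one _

end Pool.Agent.W_5d512e_post
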