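import Pool.Agent.W_5d512e_post.A3
import Pool.Agent.W_5d512e_post.A4
import Pool.Agent.W_5d512e_post.B7
import Pool.Agent.W_5d512e_post.C1
import Pool.Agent.W_5d512e_post.C2

/-!
# Arrays of affine functions
-/

set_option autoImplicit false

namespace Pool.Agent.W_5d512e_post

open Pool.Agent.W_MP_5d512e_h33 Pool.Agent.W_5d512e_h57

variable {N : ℕ} {ty : Fin N → Prop} {F : Fin N → (Fin N → Bool) → Bool} {b : Fin N → Bool}
  {v : ℕ → ℕ → Fin N → Bool}

theorem finKer_of_algebraic {f : BS} (h : IsAlgebraic PR f) : FinKer f := by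
  obtain ⟨m, a, ha, h0, hr⟩ := rel_of_algebraic h
  exact finKer_of_rel ha h0 hr

theorem aff_case (h : IsArr ty F b v) (hF : ∀ k, Affine (F k)) (k : Fin N) :
    LSp (fun x : ℕ × ℕ => v x.1 x.2 k = true) := by
  obtain ⟨ty', A, b', v', hL, he⟩ := lin_of_arr h hF
  exact LSp.of_iff (lsp_of_finKer (finKer_of_algebraic (linArr_alg hL (Fin.castSucc k))))
    (fun x => by rw [he]; simp [co])

end Pool.Agent.W_5d512e_post
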