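import Pool.Agent.W_5d512e_post.L2

/-!
# Task O6: semilinear sets in log space
-/

set_option autoImplicit false

namespace Pool.Agent.W_5d512e_post

open Pool.Agent.W_MP_5d512e_h33 Pool.Agent.W_5d512e_h57
open scoped Pointwise

private lemma O6_closure_insert (v : ℕ × ℕ) (t : Set (ℕ × ℕ)) (x : ℕ × ℕ) :
    x ∈ AddSubmonoid.closure (insert v t) ↔
      ∃ c, c ≤ x.1 + x.2 ∧ ((c * v.1 ≤ x.1 ∧ c * v.2 ≤ x.2) ∧
        (x.1 - c * v.1, x.2 - c * v.2) ∈ AddSubmonoid.closure t) := by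
  have h0 : x ∈ AddSubmonoid.closure (insert v t) ↔
      ∃ (c : ℕ) (y : ℕ × ℕ), y ∈ AddSubmonoid.closure t ∧ c • v + y = x := by
    rw [Set.insert_eq, AddSubmonoid.closure_union, AddSubmonoid.mem_sup]
    constructor
    · rintro ⟨a, ha, b, hb, rfl⟩
      obtain ⟨c, rfl⟩ := AddSubmonoid.mem_closure_singleton.1 ha
      exact ⟨c, b, hb, rfl⟩
    · rintro ⟨c, y, hy, rfl⟩
      exact ⟨c • v, AddSubmonoid.mem_closure_singleton.2 ⟨c, rfl⟩, y, hy, rfl⟩
  rw [h0]
  constructor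
  · rintro ⟨c, y, hy, rfl⟩
    by_cases hv : v = 0
    · subst hv
      refine ⟨0, Nat.zero_le _, ⟨by simp, by simp⟩, ?_⟩
      simpa using hy
    · have h1 : (c • v + y).1 = c * v.1 + y.1 := rfl
      have h2 : (c • v + y).2 = c * v.2 + y.2 := rfl
      have hv' : 1 ≤ v.1 + v.2 := by
        by_contra hcon
        apply hv
        have h3 : v.1 = 0 := by omega
        have h4 : v.2 = 0 := by omega
        exact Prod.ext h3 h4
      refine ⟨c, ?_, ⟨?_, ?_⟩, ?_⟩
      · rw [h1, h2]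
        have h5 : c * 1 ≤ c * (v.1 + v.2) := Nat.mul_le_mul_left c hv'
        have h6 : c * (v.1 + v.2) = c * v.1 + c * v.2 := Nat.mul_add _ _ _
        omega
      · rw [h1]
        exact Nat.le_add_right _ _
      · rw [h2]
        exact Nat.le_add_right _ _
      · rw [h1, h2, Nat.add_sub_cancel_left, Nat.add_sub_cancel_left]
        exact hy
  · rintro ⟨c, -, ⟨h1, h2⟩, h3⟩
    refine ⟨c, _, h3, ?_⟩
    refine Prod.ext ?_ ?_
    · show c * v.1 + (x.1 - c * v.1) = x.1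
      omega
    · show c * v.2 + (x.2 - c * v.2) = x.2
      omega

private lemma O6_closure (t : Finset (ℕ × ℕ)) :
    LSp (fun x : ℕ × ℕ => x ∈ AddSubmonoid.closure (t : Set (ℕ × ℕ))) := by
  classical
  induction t using Finset.induction_on with
  | empty =>
    refine LSp.of_iff (LSp.and (LSp.eq (f := fun x : ℕ × ℕ => x.1) (g := fun _ => 0)
      (by fun_prop) (by fun_prop)) (LSp.eq (f := fun x : ℕ × ℕ => x.2) (g := fun _ => 0)
      (by fun_prop) (by fun_prop))) ?_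
    intro x
    rw [Finset.coe_empty, AddSubmonoid.closure_empty, AddSubmonoid.mem_bot, Prod.ext_iff]
    rfl
  | insert v t _ ih =>
    obtain ⟨f, hf, hfx⟩ := ih
    have h1 : LSp (fun z : (ℕ × ℕ) × ℕ => (z.2 * v.1 ≤ z.1.1 ∧ z.2 * v.2 ≤ z.1.2) ∧
        (z.1.1 - z.2 * v.1, z.1.2 - z.2 * v.2) ∈ AddSubmonoid.closure (t : Set (ℕ × ℕ))) := by
      refine LSp.and (LSp.and (LSp.le (by fun_prop) (by fun_prop))
        (LSp.le (by fun_prop) (by fun_prop))) ?_
      refine ⟨fun z => f (z.1.1 - z.2 * v.1, z.1.2 - z.2 * v.2),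
        LS.comp (f := f) (g := fun z : (ℕ × ℕ) × ℕ => (z.1.1 - z.2 * v.1, z.1.2 - z.2 * v.2)) hf
          (by fun_prop), fun z => hfx _⟩
    refine LSp.of_iff (LSp.exists_le (Q := fun (x : ℕ × ℕ) (c : ℕ) =>
      (c * v.1 ≤ x.1 ∧ c * v.2 ≤ x.2) ∧
        (x.1 - c * v.1, x.2 - c * v.2) ∈ AddSubmonoid.closure (t : Set (ℕ × ℕ)))
      (n := fun x : ℕ × ℕ => x.1 + x.2) h1 (by fun_prop)) ?_
    intro x
    rw [Finset.coe_insert]
    exact O6_closure_insert v t x

private lemma O6_linear {A : Set (ℕ × ℕ)} (hA : IsLinearSet A) :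
    LSp (fun x : ℕ × ℕ => x ∈ A) := by
  obtain ⟨a, t, rfl⟩ := isLinearSet_iff.1 hA
  obtain ⟨f, hf, hfx⟩ := O6_closure t
  have h1 : LSp (fun x : ℕ × ℕ => (a.1 ≤ x.1 ∧ a.2 ≤ x.2) ∧
      (x.1 - a.1, x.2 - a.2) ∈ AddSubmonoid.closure (t : Set (ℕ × ℕ))) := by
    refine LSp.and (LSp.and (LSp.le (by fun_prop) (by fun_prop))
        (LSp.le (by fun_prop) (by fun_prop))) ?_
    exact ⟨fun x => f (x.1 - a.1, x.2 - a.2),
      LS.comp (f := f) (g := fun x : ℕ × ℕ => (x.1 - a.1, x.2 - a.2)) hf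
          (by fun_prop), fun z => hfx _⟩
  refine LSp.of_iff h1 ?_
  intro x
  rw [Set.mem_vadd_set]
  constructor
  · rintro ⟨y, hy, rfl⟩
    have e1 : (a +ᵥ y).1 = a.1 + y.1 := rfl
    have e2 : (a +ᵥ y).2 = a.2 + y.2 := rfl
    refine ⟨⟨?_, ?_⟩, ?_⟩
    · rw [e1]
      exact Nat.le_add_right _ _
    · rw [e2]
      exact Nat.le_add_right _ _
    · rw [e1, e2, Nat.add_sub_cancel_left, Nat.add_sub_cancel_left]
      exact hy
  · rintro ⟨⟨h1, h2⟩, h3⟩
    refine ⟨_, h3, ?_⟩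
    refine Prod.ext ?_ ?_
    · show a.1 + (x.1 - a.1) = x.1
      omega
    · show a.2 + (x.2 - a.2) = x.2
      omega

/-- TASK O6. Semilinear sets of pairs are decided in log space. A linear set is `a + closure t`
with `t` finite; induct on `t` (`x ∈ closure (insert v t)` iff for some `c ≤ x.1 + x.2`,
`c • v ≤ x` and `x - c • v ∈ closure t`), with `LSp.exists_le`. -/
theorem lsp_of_isSemilinearSet {A : Set (ℕ × ℕ)} (hA : IsSemilinearSet A) :
    LSp (fun x : ℕ × ℕ => x ∈ A) := by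
  classical
  obtain ⟨S, hS, rfl⟩ := isSemilinearSet_iff.1 hA
  induction S using Finset.induction_on with
  | empty =>
    refine LSp.of_iff (LSp.eq (f := fun _ : ℕ × ℕ => 0) (g := fun _ => 1)
      (by fun_prop) (by fun_prop)) ?_
    intro x
    simp
  | insert B S _ ih =>
    have h1 := O6_linear (hS B (Finset.mem_insert_self B S))
    have h2 := ih (fun t ht => hS t (Finset.mem_insert_of_mem ht))
      (isSemilinearSet_iff.2 ⟨S, fun t ht => hS t (Finset.mem_insert_of_mem ht), rfl⟩)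
    refine LSp.of_iff (LSp.or h1 h2) ?_
    intro x
    rw [Finset.coe_insert, Set.sUnion_insert]
    rfl

end Pool.Agent.W_5d512e_post
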