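import Pool.Agent.W_5d512e_post.O3

/-!
# Task O2: eventually periodic sets
-/

set_option autoImplicit false

namespace Pool.Agent.W_5d512e_post

/-- TASK O2. Sets of numbers that are eventually closed under adding `G`. -/
theorem isSemilinearSet_of_add {A : Set ℕ} {K G : ℕ} (hG : 0 < G)
    (h : ∀ n, K ≤ n → n ∈ A → n + G ∈ A) : IsSemilinearSet A := by
  classical
  have hiter : ∀ (t n : ℕ), K ≤ n → n ∈ A → n + G * t ∈ A := by
    intro t
    induction t with
    | zero => intro n _ hn; simpa using hn
    | succ t ih =>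
      intro n hK hn
      have h1 := h _ (hK.trans (Nat.le_add_right n (G * t))) (ih n hK hn)
      have h2 : n + G * (t + 1) = n + G * t + G := by ring
      rw [h2]
      exact h1
  let f : ℕ → ℕ := fun r => if hr : ∃ n, K ≤ n ∧ n ∈ A ∧ n % G = r then hr.choose else 0
  rw [Nat.isSemilinearSet_iff_ultimately_periodic]
  refine ⟨max K ((Finset.range G).sup f), G, hG, fun x hx => ⟨fun hxA => ?_, fun hxA => ?_⟩⟩
  · exact h x ((le_max_left _ _).trans hx) hxA
  · have hK : K ≤ x := (le_max_left _ _).trans hx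
    have hr : ∃ n, K ≤ n ∧ n ∈ A ∧ n % G = x % G :=
      ⟨x + G, hK.trans (Nat.le_add_right _ _), hxA, by simp⟩
    have hf : f (x % G) = hr.choose := by
      simp only [f]
      rw [dif_pos hr]
    obtain ⟨h1, h2, h3⟩ := hr.choose_spec
    rw [← hf] at h1 h2 h3
    have hle : f (x % G) ≤ x := by
      refine le_trans ?_ ((le_max_right _ _).trans hx)
      exact Finset.le_sup (f := f) (Finset.mem_range.2 (Nat.mod_lt _ hG))
    have hdvd : G ∣ x - f (x % G) := (Nat.modEq_iff_dvd' hle).1 h3
    obtain ⟨t, ht⟩ := hdvd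
    have hx' : x = f (x % G) + G * t := by omega
    rw [hx']
    have := hiter t _ h1 h2
    rwa [← hx'] at this ⊢

theorem isSemilinearSet_exc {Q : Type} [Finite Q] (U D : Q → Q → Prop) (a b : Q) :
    IsSemilinearSet {n | Exc U D a b n} := by
  obtain ⟨K, G, hG, h⟩ := exc_pump U D
  exact isSemilinearSet_of_add hG (fun n hn hA => h a b n hn hA)

end Pool.Agent.W_5d512e_post
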