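import Pool.Agent.W_5d512e_post.O1
import Pool.Agent.W_5d512e_post.O2

/-!
# Paths of one-counter systems
-/

set_option autoImplicit false

namespace Pool.Agent.W_5d512e_post

/-- Paths of the one-counter system from `(a, p')` to `(b, p)` with `J` down steps. -/
inductive Rch {Q : Type} (U D : Q → Q → Prop) (a : Q) : Q → ℕ → ℕ → ℕ → Prop
  | refl (p : ℕ) : Rch U D a a p p 0
  | up {b c : Q} {p' p J : ℕ} (h : Rch U D a b p' p J) (hs : U b c) : Rch U D a c p' (p + 1) J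
  | down {b c : Q} {p' p J : ℕ} (h : Rch U D a b p' (p + 1) J) (hs : D b c) :
      Rch U D a c p' p (J + 1)

/-- The steps `up step, then excursion` and `down step, then excursion`. -/
def UE {Q : Type} (U D : Q → Q → Prop) (b c : Q) : Set (ℕ × ℕ × ℕ) :=
  {x | ∃ e n, U b e ∧ Exc U D e c n ∧ x = (0, 1, n)}

def DE {Q : Type} (U D : Q → Q → Prop) (b c : Q) : Set (ℕ × ℕ × ℕ) :=
  {x | ∃ e n, D b e ∧ Exc U D e c n ∧ x = (1, 0, n + 1)}

def Ex {Q : Type} (U D : Q → Q → Prop) (b c : Q) : Set (ℕ × ℕ × ℕ) :=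
  {x | ∃ n, Exc U D b c n ∧ x = (0, 0, n)}

end Pool.Agent.W_5d512e_post
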