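import Pool.Agent.W_5d512e_post.Defs
import Pool.Agent.W_5d512e_post.ODefs

/-!
# Task O8: arrays of disjunctions and paths
-/

set_option autoImplicit false

namespace Pool.Agent.W_5d512e_post

private theorem O8_mono {n : ℕ} {f : (Fin n → Bool) → Bool} (hf : PresOr f) {x y : Fin n → Bool}
    (hxy : ∀ i, y i = true → x i = true) (hy : f y = true) : f x = true := by
  have h := hf x y
  have e : (fun i => x i || y i) = x := by
    funext i
    cases hx : x i
    · cases hyi : y i
      · rfl
      · rw [hxy i hyi] at hx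
        exact absurd hx (by decide)
    · rfl
  rw [e, hy, Bool.or_true] at h
  exact h

private theorem O8_set {n : ℕ} {f : (Fin n → Bool) → Bool} (hf : PresOr f) (s : Finset (Fin n)) :
    f (fun i' => decide (i' ∈ s)) = true → f (fun _ => false) = true ∨
      ∃ i ∈ s, f (fun i' => decide (i' = i)) = true := by
  classical
  induction s using Finset.induction_on with
  | empty =>
    intro h
    left
    simpa using h
  | insert a s ha ih =>
    intro h
    have e : (fun i' => decide (i' ∈ insert a s)) =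
        (fun i' => decide (i' = a) || decide (i' ∈ s)) := by
      funext i'
      rw [Bool.eq_iff_iff]
      simp
    rw [e, hf, Bool.or_eq_true] at h
    rcases h with h | h
    · exact Or.inr ⟨a, Finset.mem_insert_self _ _, h⟩
    · rcases ih h with h | ⟨i, hi, h⟩
      · exact Or.inl h
      · exact Or.inr ⟨i, Finset.mem_insert_of_mem hi, h⟩

/-- TASK O8 (two theorems). -/
theorem presOr_iff {n : ℕ} {f : (Fin n → Bool) → Bool} (hf : PresOr f) (x : Fin n → Bool) :
    f x = true ↔ f (fun _ => false) = true ∨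
      ∃ i, x i = true ∧ f (fun i' => decide (i' = i)) = true := by
  constructor
  · intro h
    have e : x = (fun i' => decide (i' ∈ Finset.univ.filter (fun i => x i = true))) := by
      funext i'
      rw [Bool.eq_iff_iff]
      simp
    rw [e] at h
    rcases O8_set hf _ h with h | ⟨i, hi, h⟩
    · exact Or.inl h
    · exact Or.inr ⟨i, (Finset.mem_filter.1 hi).2, h⟩
  · rintro (h | ⟨i, hi, h⟩)
    · exact O8_mono hf (fun i hi => absurd hi (by decide)) h
    · refine O8_mono hf (fun i' hi' => ?_) h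
      rw [of_decide_eq_true hi']
      exact hi

variable {N : ℕ} {ty : Fin N → Prop} {F : Fin N → (Fin N → Bool) → Bool} {b : Fin N → Bool}
  {v : ℕ → ℕ → Fin N → Bool}

/-- Up steps `i → k`: `k` is of the first kind and its function depends on the variable `i`. -/
def Ust (ty : Fin N → Prop) (F : Fin N → (Fin N → Bool) → Bool) (i k : Fin N) : Prop :=
  ty k ∧ F k (fun i' => decide (i' = i)) = true

def Dst (ty : Fin N → Prop) (F : Fin N → (Fin N → Bool) → Bool) (i k : Fin N) : Prop :=
  ¬ ty k ∧ F k (fun i' => decide (i' = i)) = true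

/-- The places where the value `1` comes from the boundary or from a constant. -/
def Src (ty : Fin N → Prop) (F : Fin N → (Fin N → Bool) → Bool) (b : Fin N → Bool) (k : Fin N)
    (p j : ℕ) : Prop :=
  (ty k ∧ ((p = 0 ∧ b k = true) ∨ (1 ≤ p ∧ F k (fun _ => false) = true))) ∨
    (¬ ty k ∧ ((j = 0 ∧ b k = true) ∨ (1 ≤ j ∧ F k (fun _ => false) = true)))

/-- `←` by induction on `Rch`, `→` by induction on `j` and for fixed `j` on `p`. -/
theorem arr_iff (h : IsArr ty F b v) (hF : ∀ k, PresOr (F k)) (k : Fin N) (p j : ℕ) :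
    v p j k = true ↔ ∃ (i : Fin N) (p' j' J : ℕ), Rch (Ust ty F) (Dst ty F) i k p' p J ∧
      j = j' + J ∧ Src ty F b i p' j' := by
  constructor
  · -- from the array to the paths
    have H : ∀ j p k, v p j k = true → ∃ (i : Fin N) (p' j' J : ℕ),
        Rch (Ust ty F) (Dst ty F) i k p' p J ∧ j = j' + J ∧ Src ty F b i p' j' := by
      intro j
      induction j with
      | zero =>
        intro p
        induction p with
        | zero =>
          intro k hk
          by_cases ht : ty k
          · rw [h.x0 k ht] at hk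
            exact ⟨k, 0, 0, 0, Rch.refl 0, rfl, Or.inl ⟨ht, Or.inl ⟨rfl, hk⟩⟩⟩
          · rw [h.s0 k ht] at hk
            exact ⟨k, 0, 0, 0, Rch.refl 0, rfl, Or.inr ⟨ht, Or.inl ⟨rfl, hk⟩⟩⟩
        | succ p ihp =>
          intro k hk
          by_cases ht : ty k
          · rw [h.x1 k ht, presOr_iff (hF k)] at hk
            rcases hk with hk | ⟨i, hi, hk⟩
            · exact ⟨k, p + 1, 0, 0, Rch.refl _, rfl,
                Or.inl ⟨ht, Or.inr ⟨Nat.succ_pos p, hk⟩⟩⟩
            · obtain ⟨i0, p', j', J, hR, hj, hS⟩ := ihp i hi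
              exact ⟨i0, p', j', J, Rch.up hR ⟨ht, hk⟩, hj, hS⟩
          · rw [h.s0 k ht] at hk
            exact ⟨k, p + 1, 0, 0, Rch.refl _, rfl, Or.inr ⟨ht, Or.inl ⟨rfl, hk⟩⟩⟩
      | succ j ihj =>
        intro p
        induction p with
        | zero =>
          intro k hk
          by_cases ht : ty k
          · rw [h.x0 k ht] at hk
            exact ⟨k, 0, j + 1, 0, Rch.refl 0, rfl, Or.inl ⟨ht, Or.inl ⟨rfl, hk⟩⟩⟩
          · rw [h.s1 k ht, presOr_iff (hF k)] at hk
            rcases hk with hk | ⟨i, hi, hk⟩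
            · exact ⟨k, 0, j + 1, 0, Rch.refl _, rfl,
                Or.inr ⟨ht, Or.inr ⟨Nat.succ_pos j, hk⟩⟩⟩
            · obtain ⟨i0, p', j', J, hR, hj, hS⟩ := ihj (0 + 1) i hi
              exact ⟨i0, p', j', J + 1, Rch.down hR ⟨ht, hk⟩, by omega, hS⟩
        | succ p ihp =>
          intro k hk
          by_cases ht : ty k
          · rw [h.x1 k ht, presOr_iff (hF k)] at hk
            rcases hk with hk | ⟨i, hi, hk⟩
            · exact ⟨k, p + 1, j + 1, 0, Rch.refl _, rfl,
                Or.inl ⟨ht, Or.inr ⟨Nat.succ_pos p, hk⟩⟩⟩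
            · obtain ⟨i0, p', j', J, hR, hj, hS⟩ := ihp i hi
              exact ⟨i0, p', j', J, Rch.up hR ⟨ht, hk⟩, hj, hS⟩
          · rw [h.s1 k ht, presOr_iff (hF k)] at hk
            rcases hk with hk | ⟨i, hi, hk⟩
            · exact ⟨k, p + 1, j + 1, 0, Rch.refl _, rfl,
                Or.inr ⟨ht, Or.inr ⟨Nat.succ_pos j, hk⟩⟩⟩
            · obtain ⟨i0, p', j', J, hR, hj, hS⟩ := ihj (p + 1 + 1) i hi
              exact ⟨i0, p', j', J + 1, Rch.down hR ⟨ht, hk⟩, by omega, hS⟩
    exact H j p k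
  · rintro ⟨i, p', j', J, hR, hj, hS⟩
    subst hj
    induction hR with
    | refl p =>
      rcases hS with ⟨ht, (⟨hp, hb⟩ | ⟨hp, hb⟩)⟩ | ⟨ht, (⟨hp, hb⟩ | ⟨hp, hb⟩)⟩
      · subst hp
        rw [h.x0 i ht]
        exact hb
      · obtain ⟨q, rfl⟩ : ∃ q, p = q + 1 := ⟨p - 1, by omega⟩
        rw [h.x1 i ht, presOr_iff (hF i)]
        exact Or.inl hb
      · subst hp
        rw [Nat.add_zero, h.s0 i ht]
        exact hb
      · obtain ⟨q, rfl⟩ : ∃ q, j' = q + 1 := ⟨j' - 1, by omega⟩
        rw [Nat.add_zero, h.s1 i ht, presOr_iff (hF i)]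
        exact Or.inl hb
    | up h1 hs ih =>
      rw [h.x1 _ hs.1, presOr_iff (hF _)]
      exact Or.inr ⟨_, ih hS, hs.2⟩
    | down h1 hs ih =>
      rw [← Nat.add_assoc, h.s1 _ hs.1, presOr_iff (hF _)]
      exact Or.inr ⟨_, ih hS, hs.2⟩

end Pool.Agent.W_5d512e_post
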