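import Pool.Agent.W_5d512e_post.O5
import Pool.Agent.W_5d512e_post.O6
import Pool.Agent.W_5d512e_post.O8

/-!
# Task O9: arrays of disjunctions
-/

set_option autoImplicit false

namespace Pool.Agent.W_5d512e_post

open Pool.Agent.W_MP_5d512e_h33 Pool.Agent.W_5d512e_h57

variable {N : ℕ} {ty : Fin N → Prop} {F : Fin N → (Fin N → Bool) → Bool} {b : Fin N → Bool}
  {v : ℕ → ℕ → Fin N → Bool}

/-- The projection `(p', p, J, j') ↦ (p', p, J)`. -/
private def O9_pr : ℕ × ℕ × ℕ × ℕ →+ ℕ × ℕ × ℕ where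
  toFun y := (y.1, y.2.1, y.2.2.1)
  map_zero' := rfl
  map_add' _ _ := rfl

/-- The map `(p', p, J, j') ↦ (p, j' + J)`. -/
private def O9_im : ℕ × ℕ × ℕ × ℕ →+ ℕ × ℕ where
  toFun y := (y.2.1, y.2.2.2 + y.2.2.1)
  map_zero' := rfl
  map_add' x y := by
    refine Prod.ext rfl ?_
    show (x.2.2.2 + y.2.2.2) + (x.2.2.1 + y.2.2.1) =
      (x.2.2.2 + x.2.2.1) + (y.2.2.2 + y.2.2.1)
    omega

/-- The first coordinate. -/
private def O9_c1 : ℕ × ℕ × ℕ × ℕ →+ ℕ where
  toFun y := y.1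
  map_zero' := rfl
  map_add' _ _ := rfl

/-- The last coordinate. -/
private def O9_c4 : ℕ × ℕ × ℕ × ℕ →+ ℕ where
  toFun y := y.2.2.2
  map_zero' := rfl
  map_add' _ _ := rfl

/-- Every set given by `c = 0 ∧ P` or `1 ≤ c ∧ Q` for a coordinate `c` is semilinear. -/
private theorem O9_coord (c : ℕ × ℕ × ℕ × ℕ →+ ℕ) (P Q R : Prop) :
    IsSemilinearSet {y : ℕ × ℕ × ℕ × ℕ | R ∧ ((c y = 0 ∧ P) ∨ (1 ≤ c y ∧ Q))} := by
  classical
  have h0 : IsSemilinearSet {y : ℕ × ℕ × ℕ × ℕ | c y = 0} :=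
    (IsSemilinearSet.singleton (0 : ℕ)).preimage c
  have h1 : IsSemilinearSet {y : ℕ × ℕ × ℕ × ℕ | 1 ≤ c y} := by
    have h := h0.compl
    convert h using 1
    ext y
    simp only [Set.mem_ofPred_eq, Set.mem_compl_iff]
    omega
  by_cases hR : R
  · have e : {y : ℕ × ℕ × ℕ × ℕ | R ∧ ((c y = 0 ∧ P) ∨ (1 ≤ c y ∧ Q))} =
        {y | c y = 0 ∧ P} ∪ {y | 1 ≤ c y ∧ Q} := by
      ext y
      simp [hR]
    rw [e]
    refine IsSemilinearSet.union ?_ ?_
    · by_cases hP : P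
      · simpa [hP] using h0
      · simp [hP]
    · by_cases hQ : Q
      · simpa [hQ] using h1
      · simp [hQ]
  · simp [hR]

private theorem O9_src (i : Fin N) :
    IsSemilinearSet {y : ℕ × ℕ × ℕ × ℕ | Src ty F b i y.1 y.2.2.2} := by
  have h := (O9_coord O9_c1 (b i = true) (F i (fun _ => false) = true) (ty i)).union
    (O9_coord O9_c4 (b i = true) (F i (fun _ => false) = true) (¬ ty i))
  exact h

/-- TASK O9. From O5, O6, O8: the set of `(p, j)` is a finite union (over `i`) of images of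
intersections of preimages of semilinear sets (`IsSemilinearSet.inter`, `.preimage`, `.image`). -/
theorem or_case (h : IsArr ty F b v) (hF : ∀ k, PresOr (F k)) (k : Fin N) :
    LSp (fun x : ℕ × ℕ => v x.1 x.2 k = true) := by
  have hs : IsSemilinearSet (⋃ i : Fin N, O9_im ''
      (O9_pr ⁻¹' {x : ℕ × ℕ × ℕ | Rch (Ust ty F) (Dst ty F) i k x.1 x.2.1 x.2.2} ∩
        {y : ℕ × ℕ × ℕ × ℕ | Src ty F b i y.1 y.2.2.2})) := by
    refine IsSemilinearSet.iUnion (fun i => IsSemilinearSet.image ?_ O9_im)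
    exact ((isSemilinearSet_rch _ _ i k).preimage O9_pr).inter (O9_src i)
  refine LSp.of_iff (lsp_of_isSemilinearSet hs) ?_
  rintro ⟨p, j⟩
  show v p j k = true ↔ _
  rw [arr_iff h hF, Set.mem_iUnion]
  constructor
  · rintro ⟨i, p', j', J, hR, hj, hS⟩
    refine ⟨i, (p', p, J, j'), ⟨hR, hS⟩, ?_⟩
    show (p, j' + J) = (p, j)
    rw [hj]
  · rintro ⟨i, ⟨p', p1, J, j'⟩, ⟨hR, hS⟩, he⟩
    have he1 : p1 = p := congrArg Prod.fst he
    have he2 : j' + J = j := congrArg Prod.snd he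
    subst he1
    exact ⟨i, p', j', J, hR, he2.symm, hS⟩

/-- Complement all bits: `v' p j k = !(v p j k)`, `F' k z = !(F k (fun i => !(z i)))`. -/
theorem and_case (h : IsArr ty F b v) (hF : ∀ k, PresAnd (F k)) (k : Fin N) :
    LSp (fun x : ℕ × ℕ => v x.1 x.2 k = true) := by
  have h' : IsArr ty (fun k z => !(F k (fun i => !(z i)))) (fun k => !(b k))
      (fun p j k => !(v p j k)) := by
    refine ⟨?_, ?_, ?_, ?_⟩
    · intro k hk j
      show (!(v 0 j k)) = !(b k)
      rw [h.x0 k hk j]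
    · intro k hk p j
      show (!(v (p + 1) j k)) = !(F k (fun i => !(!(v p j i))))
      simp only [Bool.not_not]
      rw [h.x1 k hk p j]
    · intro k hk p
      show (!(v p 0 k)) = !(b k)
      rw [h.s0 k hk p]
    · intro k hk p j
      show (!(v p (j + 1) k)) = !(F k (fun i => !(!(v (p + 1) j i))))
      simp only [Bool.not_not]
      rw [h.s1 k hk p j]
  have hF' : ∀ k, PresOr (fun z : Fin N → Bool => !(F k (fun i => !(z i)))) := by
    intro k x y
    show (!(F k (fun i => !(x i || y i)))) = ((!(F k (fun i => !(x i)))) || (!(F k (fun i => !(y i)))))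
    have e : (fun i => !(x i || y i)) = (fun i => (!(x i)) && (!(y i))) := by
      funext i
      exact Bool.not_or _ _
    rw [e, hF k, Bool.not_and]
  refine LSp.of_iff (LSp.not (or_case h' hF' k)) ?_
  intro x
  show v x.1 x.2 k = true ↔ ¬ ((!(v x.1 x.2 k)) = true)
  simp

end Pool.Agent.W_5d512e_post
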