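import Pool.Agent.W_5d512e_post.P1

/-!
# Task P4: negation
-/

set_option autoImplicit false

namespace Pool.Agent.W_5d512e_post

variable {B : ∀ n : ℕ, Set ((Fin n → Bool) → Bool)}

private theorem P4_flip {n : ℕ} {f : (Fin n → Bool) → Bool} (h : ¬ Monotone f) :
    ∃ (z : Fin n → Bool) (i : Fin n), f (Function.update z i false) = true ∧
      f (Function.update z i true) = false := by
  classical
  by_contra hcon
  push Not at hcon
  apply h
  intro x y hxy
  by_contra hlt
  have hx : f x = true := by
    cases hfx : f x
    · rw [hfx] at hlt
      exact absurd (Bool.false_le _) hlt
    · rfl
  have key : ∀ s : Finset (Fin n), f (fun j => if j ∈ s then y j else x j) = true := by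
    intro s
    induction s using Finset.induction_on with
    | empty => simpa using hx
    | insert a s ha ih =>
      by_cases hxa : x a = y a
      · rw [← ih]
        congr 1
        funext j
        by_cases hj : j = a
        · subst hj
          simp [ha, hxa]
        · simp [Finset.mem_insert, hj]
      · have h1 : x a = false ∧ y a = true := by
          have h2 := hxy a
          revert hxa h2
          cases x a <;> cases y a <;> simp
        have h3 : (fun j => if j ∈ s then y j else x j) =
            Function.update (fun j => if j ∈ s then y j else x j) a false := by
          funext j
          by_cases hj : j = a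
          · subst hj
            simp [ha, h1.1]
          · simp [hj]
        have h4 : (fun j => if j ∈ insert a s then y j else x j) =
            Function.update (fun j => if j ∈ s then y j else x j) a true := by
          funext j
          by_cases hj : j = a
          · subst hj
            simp [h1.2]
          · simp [Finset.mem_insert, hj]
        rw [h4]
        have h5 := hcon (fun j => if j ∈ s then y j else x j) a (by rw [← h3]; exact ih)
        revert h5
        cases f (Function.update (fun j => if j ∈ s then y j else x j) a true) <;> simp
  have h6 := key Finset.univ
  have h7 : (fun j => if j ∈ (Finset.univ : Finset (Fin n)) then y j else x j) = y := by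
    funext j
    simp
  rw [h7] at h6
  rw [hx, h6] at hlt
  exact hlt le_rfl

/-- TASK P4. A function of `B` that is not monotone gives the negation: change the coordinates
of `x ≤ y`, `f x = 1`, `f y = 0`, one by one; plug constants in the other variables. -/
theorem not_of_not_mono {n : ℕ} {f : (Fin n → Bool) → Bool} (hf : f ∈ B n) (h : ¬ Monotone f) :
    TC B 1 (fun x => !(x 0)) := by
  classical
  obtain ⟨z, i, h1, h2⟩ := P4_flip h
  have h3 : ∀ j, TC B 1 (fun x => if j = i then x 0 else z j) := by
    intro j
    by_cases hj : j = i
    · simp only [hj, if_true]
      exact TC.var 0
    · simp only [hj, if_false]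
      exact TC.const _
  have h4 := TC.app hf h3
  have h5 : (fun x : Fin 1 → Bool => f (fun j => if j = i then x 0 else z j)) =
      fun x => !(x 0) := by
    funext x
    have h6 : (fun j => if j = i then x 0 else z j) = Function.update z i (x 0) := by
      funext j
      by_cases hj : j = i
      · subst hj
        simp
      · simp [hj]
    rw [h6]
    cases x 0
    · rw [h1]; rfl
    · rw [h2]; rfl
  rw [h5] at h4
  exact h4

end Pool.Agent.W_5d512e_post
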