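import Pool.Agent.W_5d512e_post.P1

/-!
# Task P5: not affine
-/

set_option autoImplicit false

namespace Pool.Agent.W_5d512e_post

variable {B : ∀ n : ℕ, Set ((Fin n → Bool) → Bool)}

private theorem P5_xor (hn : TC B 1 (fun x => !(x 0))) {m : ℕ} {g : (Fin m → Bool) → Bool} (hg : TC B m g)
    (p : Bool) : TC B m (fun x => xor p (g x)) := by
  cases p
  · have h1 : (fun x : Fin m → Bool => xor false (g x)) = g := by
      funext x
      simp
    rw [h1]
    exact hg
  · have h1 := TC.comp hn (g := fun _ : Fin 1 => g) (fun _ => hg)
    have h2 : (fun x : Fin m → Bool => xor true (g x)) = fun x => !(g x) := by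
      funext x
      simp
    rw [h2]
    exact h1

private theorem P5_bool : ∀ a b c d : Bool, xor a (xor b (xor c d)) = true →
    (∃ p q r : Bool, ∀ x y : Bool,
      xor r (bif xor p x then (bif xor q y then d else c) else (bif xor q y then b else a)) = (x && y)) ∧
    (∃ p q r : Bool, ∀ x y : Bool,
      xor r (bif xor p x then (bif xor q y then d else c) else (bif xor q y then b else a)) = (x || y)) := by
  decide

private theorem P5_face : ∀ a0 a1 a2 a3 a4 a5 a6 : Bool, xor a6 (xor a0 (xor a5 a3)) = true →
    (xor a0 (xor a1 (xor a4 a5)) = true) ∨ (xor a0 (xor a1 (xor a2 a3)) = true) ∨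
      (xor a0 (xor a2 (xor a4 a6)) = true) := by
  decide

private theorem P5_sel (H : (Fin 2 → Bool) → Bool) (s t : Bool) :
    H ![s, t] = bif s then (bif t then H ![true, true] else H ![true, false])
      else (bif t then H ![false, true] else H ![false, false]) := by
  cases s <;> cases t <;> rfl

private theorem P5_two (hn : TC B 1 (fun x => !(x 0))) {H : (Fin 2 → Bool) → Bool} (hH : TC B 2 H)
    (h1 : xor (H ![false, false]) (xor (H ![false, true]) (xor (H ![true, false]) (H ![true, true]))) = true) :
    TC B 2 (fun x => x 0 && x 1) ∧ TC B 2 (fun x => x 0 || x 1) := by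
  have key : ∀ p q r : Bool, TC B 2 (fun x => xor r (H ![xor p (x 0), xor q (x 1)])) := fun p q r => by
    refine P5_xor hn ?_ r
    have h2 : TC B 2 (fun x => H (fun i => (![fun x => xor p (x 0), fun x => xor q (x 1)] :
        Fin 2 → (Fin 2 → Bool) → Bool) i x)) := by
      refine TC.comp hH fun i => ?_
      fin_cases i
      · exact P5_xor hn (TC.var 0) p
      · exact P5_xor hn (TC.var 1) q
    have h3 : (fun x : Fin 2 → Bool => H (fun i => (![fun x => xor p (x 0), fun x => xor q (x 1)] :
        Fin 2 → (Fin 2 → Bool) → Bool) i x)) = fun x => H ![xor p (x 0), xor q (x 1)] := by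
      funext x
      congr 1
      funext i
      fin_cases i <;> rfl
    rw [h3] at h2
    exact h2
  obtain ⟨⟨p, q, r, h2⟩, ⟨p', q', r', h3⟩⟩ := P5_bool _ _ _ _ h1
  refine ⟨?_, ?_⟩
  · have h4 := key p q r
    have h5 : (fun x : Fin 2 → Bool => xor r (H ![xor p (x 0), xor q (x 1)])) = fun x => x 0 && x 1 := by
      funext x
      rw [P5_sel H]
      exact h2 (x 0) (x 1)
    rw [h5] at h4
    exact h4
  · have h4 := key p' q' r'
    have h5 : (fun x : Fin 2 → Bool => xor r' (H ![xor p' (x 0), xor q' (x 1)])) = fun x => x 0 || x 1 := by
      funext x
      rw [P5_sel H]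
      exact h3 (x 0) (x 1)
    rw [h5] at h4
    exact h4

/-- The coordinate function: constant or a variable. -/
private def P5_co (s t a b c : Bool) : Bool := bif s then (bif t then c else a) else (bif t then b else false)

/-- TASK P5. A function of `B` that is not affine and the negation give AND and OR: some second
difference `f u + f (u + e_i) + f (u + e_j) + f (u + e_i + e_j)`, `i ≠ j`, is `1`, so plugging
constants gives a function of two variables with an odd number of ones, and negating variables
and value gives AND and OR. (If all second differences vanish then `f` is affine: induct.) -/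
theorem and_or_of_not {n : ℕ} {f : (Fin n → Bool) → Bool} (hf : f ∈ B n) (h : ¬ Affine f)
    (hn : TC B 1 (fun x => !(x 0))) :
    TC B 2 (fun x => x 0 && x 1) ∧ TC B 2 (fun x => x 0 || x 1) := by
  unfold Affine at h
  push Not at h
  obtain ⟨x, y, z, hxyz⟩ := h
  set G : Bool → Bool → Bool → Bool := fun a b c =>
    f (fun i => xor (x i) (P5_co (xor (x i) (y i)) (xor (x i) (z i)) a b c)) with hG
  have g0 : G false false false = f x := by
    simp only [hG]
    congr 1
    funext i
    cases x i <;> cases y i <;> cases z i <;> rfl
  have g5 : G true false true = f y := by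
    simp only [hG]
    congr 1
    funext i
    cases x i <;> cases y i <;> cases z i <;> rfl
  have g3 : G false true true = f z := by
    simp only [hG]
    congr 1
    funext i
    cases x i <;> cases y i <;> cases z i <;> rfl
  have g6 : G true true false = f (fun i => xor (x i) (xor (y i) (z i))) := by
    simp only [hG]
    congr 1
    funext i
    cases x i <;> cases y i <;> cases z i <;> rfl
  have hodd : xor (G true true false) (xor (G false false false) (xor (G true false true) (G false true true)))
      = true := by
    rw [g0, g3, g5, g6]
    revert hxyz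
    cases f (fun i => xor (x i) (xor (y i) (z i))) <;> cases f x <;> cases f y <;> cases f z <;> simp
  have hco : ∀ (u v w : (Fin 2 → Bool) → Bool), TC B 2 u → TC B 2 v → TC B 2 w →
      TC B 2 (fun e => G (u e) (v e) (w e)) := fun u v w hu hv hw => by
    refine TC.app hf (g := fun i e => xor (x i) (P5_co (xor (x i) (y i)) (xor (x i) (z i)) (u e) (v e) (w e)))
      fun i => ?_
    refine P5_xor hn ?_ (x i)
    cases xor (x i) (y i) <;> cases xor (x i) (z i)
    · exact TC.const false
    · exact hv
    · exact hu
    · exact hw
  rcases P5_face (G false false false) (G false false true) (G false true false) (G false true true)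
    (G true false false) (G true false true) (G true true false) hodd with h1 | h1 | h1
  · exact P5_two hn (hco (fun e => e 0) (fun _ => false) (fun e => e 1) (TC.var 0) (TC.const false) (TC.var 1)) h1
  · exact P5_two hn (hco (fun _ => false) (fun e => e 0) (fun e => e 1) (TC.const false) (TC.var 0) (TC.var 1)) h1
  · exact P5_two hn (hco (fun e => e 0) (fun e => e 1) (fun _ => false) (TC.var 0) (TC.var 1) (TC.const false)) h1

end Pool.Agent.W_5d512e_post
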