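import Pool.Agent.W_5d512e_post.P1

/-!
# Task P6: monotone functions
-/

set_option autoImplicit false

namespace Pool.Agent.W_5d512e_post

variable {B : ∀ n : ℕ, Set ((Fin n → Bool) → Bool)}

/-- The substitution: `x` in `u \ v`, `y` in `v \ u`, `1` in `u ∧ v`, `0` elsewhere. -/
private def P6sub {n : ℕ} (u v : Fin n → Bool) (i : Fin n) (z : Fin 2 → Bool) : Bool :=
  (u i && v i) || ((u i && z 0) || (v i && z 1))

private theorem P6sub_tc {n : ℕ} (u v : Fin n → Bool) (i : Fin n) : TC B 2 (P6sub u v i) := by
  have key : ∀ a b : Bool, u i = a → v i = b → TC B 2 (P6sub u v i) := by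
    intro a b ha hb
    cases a <;> cases b
    · have : P6sub u v i = fun _ => false := by
        funext z
        simp [P6sub, ha, hb]
      rw [this]
      exact TC.const false
    · have : P6sub u v i = fun z => z 1 := by
        funext z
        simp [P6sub, ha, hb]
      rw [this]
      exact TC.var 1
    · have : P6sub u v i = fun z => z 0 := by
        funext z
        simp [P6sub, ha, hb]
      rw [this]
      exact TC.var 0
    · have : P6sub u v i = fun _ => true := by
        funext z
        simp [P6sub, ha, hb]
      rw [this]
      exact TC.const true
  exact key _ _ rfl rfl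

private theorem P6_app {n : ℕ} {f : (Fin n → Bool) → Bool} (hf : f ∈ B n) (u v : Fin n → Bool) :
    TC B 2 (fun z => f (fun i => P6sub u v i z)) :=
  TC.app hf (fun i => P6sub_tc u v i)

private theorem P6_mono {n : ℕ} {f : (Fin n → Bool) → Bool} (hm : Monotone f)
    {x y : Fin n → Bool} (h : ∀ i, x i = true → y i = true) : f x = true → f y = true := by
  have hle : x ≤ y := by
    intro i
    rw [Bool.le_iff_imp]
    exact h i
  have := hm hle
  rw [Bool.le_iff_imp] at this
  exact this

/-- TASK P6. A monotone function of `B` that is not a conjunction or constant gives OR: there are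
two different minimal points `u`, `v` with value `1`; put `x` in the coordinates of `u \ v`, `y`
in those of `v \ u`, `1` in those of `u ∧ v`, and `0` elsewhere. -/
theorem or_of_mono {n : ℕ} {f : (Fin n → Bool) → Bool} (hf : f ∈ B n) (hm : Monotone f)
    (h : ¬ PresAnd f) : TC B 2 (fun x => x 0 || x 1) := by
  obtain ⟨u, v, hu, hv, huv⟩ : ∃ u v : Fin n → Bool, f u = true ∧ f v = true ∧
      f (fun i => u i && v i) = false := by
    by_contra hcon
    push Not at hcon
    refine h fun x y => ?_
    cases hx : f x with
    | false =>
      rw [Bool.false_and]
      by_contra h1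
      rw [Bool.not_eq_false] at h1
      have := P6_mono hm (y := x) (fun i hi => by simp at hi; exact hi.1) h1
      rw [hx] at this
      exact absurd this (by simp)
    | true =>
      rw [Bool.true_and]
      cases hy : f y with
      | false =>
        by_contra h1
        rw [Bool.not_eq_false] at h1
        have := P6_mono hm (y := y) (fun i hi => by simp at hi; exact hi.2) h1
        rw [hy] at this
        exact absurd this (by simp)
      | true =>
        have := hcon x y hx hy
        exact (Bool.not_eq_false _).mp this
  have happ := P6_app hf u v
  have he : (fun z : Fin 2 → Bool => f (fun i => P6sub u v i z)) = fun x => x 0 || x 1 := by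
    funext z
    cases h0 : z 0 <;> cases h1 : z 1
    · have : (fun i => P6sub u v i z) = fun i => u i && v i := by
        funext i
        simp [P6sub, h0, h1]
      rw [this, huv]
      rfl
    · have := P6_mono hm (x := v) (y := fun i => P6sub u v i z)
        (fun i hi => by simp [P6sub, h1, hi]) hv
      rw [this]
      rfl
    · have := P6_mono hm (x := u) (y := fun i => P6sub u v i z)
        (fun i hi => by simp [P6sub, h0, hi]) hu
      rw [this]
      rfl
    · have := P6_mono hm (x := u) (y := fun i => P6sub u v i z)
        (fun i hi => by simp [P6sub, h0, hi]) hu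
      rw [this]
      rfl
  rwa [he] at happ

/-- Dual of `or_of_mono`. -/
theorem and_of_mono {n : ℕ} {f : (Fin n → Bool) → Bool} (hf : f ∈ B n) (hm : Monotone f)
    (h : ¬ PresOr f) : TC B 2 (fun x => x 0 && x 1) := by
  obtain ⟨u, v, hu, hv, huv⟩ : ∃ u v : Fin n → Bool, f u = false ∧ f v = false ∧
      f (fun i => u i || v i) = true := by
    by_contra hcon
    push Not at hcon
    refine h fun x y => ?_
    cases hx : f x with
    | true =>
      rw [Bool.true_or]
      exact P6_mono hm (x := x) (fun i hi => by simp [hi]) hx
    | false =>
      rw [Bool.false_or]
      cases hy : f y with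
      | true => exact P6_mono hm (x := y) (fun i hi => by simp [hi]) hy
      | false =>
        have := hcon x y hx hy
        exact (Bool.not_eq_true _).mp this
  have happ := P6_app hf u v
  have he : (fun z : Fin 2 → Bool => f (fun i => P6sub u v i z)) = fun x => x 0 && x 1 := by
    funext z
    have hfal : ∀ w : Fin n → Bool, f w = false → (∀ i, P6sub u v i z = true → w i = true) →
        f (fun i => P6sub u v i z) = false := by
      intro w hw hi
      by_contra h1
      rw [Bool.not_eq_false] at h1
      have := P6_mono hm hi h1
      rw [hw] at this
      exact absurd this (by simp)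
    cases h0 : z 0 <;> cases h1 : z 1
    · rw [hfal u hu (fun i hi => by
        simp [P6sub, h0, h1] at hi
        exact hi.1)]
      rfl
    · rw [hfal v hv (fun i hi => by
        simp [P6sub, h0, h1] at hi
        rcases hi with hi | hi
        · exact hi.2
        · exact hi)]
      rfl
    · rw [hfal u hu (fun i hi => by
        simp [P6sub, h0, h1] at hi
        rcases hi with hi | hi
        · exact hi.1
        · exact hi)]
      rfl
    · have := P6_mono hm (x := fun i => u i || v i) (y := fun i => P6sub u v i z)
        (fun i hi => by
          simp only [P6sub, h0, h1, Bool.and_true]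
          simp only [Bool.or_eq_true] at hi ⊢
          exact Or.inr hi) huv
      rw [this]
      rfl
  rwa [he] at happ

end Pool.Agent.W_5d512e_post
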