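import Pool.Agent.W_5d512e_post.P1
import Pool.Agent.W_5d512e_post.P4
import Pool.Agent.W_5d512e_post.P5
import Pool.Agent.W_5d512e_post.P6

/-!
# Task P9: one-hot coding
-/

set_option autoImplicit false

namespace Pool.Agent.W_5d512e_post

variable {B : ∀ n : ℕ, Set ((Fin n → Bool) → Bool)}

/-- Post's lemma. -/
theorem and_or (hB : ¬ Easy B) :
    TC B 2 (fun x => x 0 && x 1) ∧ TC B 2 (fun x => x 0 || x 1) := by
  simp only [Easy, not_or, not_forall] at hB
  obtain ⟨⟨n1, f1, h1, h1'⟩, ⟨n2, f2, h2, h2'⟩, ⟨n3, f3, h3, h3'⟩⟩ := hB
  by_cases hm : ∀ n, ∀ f ∈ B n, Monotone f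
  · exact ⟨and_of_mono h3 (hm _ _ h3) h3', or_of_mono h2 (hm _ _ h2) h2'⟩
  · simp only [not_forall] at hm
    obtain ⟨n, f, hf, hf'⟩ := hm
    exact and_or_of_not h1 h1' (not_of_not_mono hf hf')

private theorem P9_any (hA : TC B 2 (fun x => x 0 && x 1)) (hO : TC B 2 (fun x => x 0 || x 1)) {m : ℕ}
    (L : List (Fin m × Fin m)) : TC B m (fun z => L.any fun p => z p.1 && z p.2) := by
  induction L with
  | nil => exact TC.const false
  | cons p L ih =>
    have h1 : TC B m (fun z => z p.1 && z p.2) := by
      have h := TC.comp hA (g := (![fun z => z p.1, fun z => z p.2] : Fin 2 → (Fin m → Bool) → Bool)) (by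
        intro i
        fin_cases i
        · exact TC.var p.1
        · exact TC.var p.2)
      exact h
    have h := TC.comp hO (g := (![fun z => z p.1 && z p.2, fun z => L.any fun p => z p.1 && z p.2] :
        Fin 2 → (Fin m → Bool) → Bool)) (by
      intro i
      fin_cases i
      · exact h1
      · exact ih)
    exact h

/-- TASK P9. One-hot coding with two constant coordinates: `l = card Γ + 2`, `e u` is the unit
vector of `u` followed by `0`, `1`; the coordinate `w` of `G` is
`⋁ {x_u ∧ y_v : g u v = w}` (`Finset.sup` over a finite set of pairs, closed under `TC` by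
`and_or`), and the coordinates `0`, `1` are copied. -/
theorem enc (hB : ¬ Easy B) (Γ : Type) [Finite Γ] (g : Γ → Γ → Γ) :
    ∃ (l : ℕ) (e : Γ → Fin l → Bool) (G : (Fin (l + l) → Bool) → Fin l → Bool),
      Function.Injective e ∧ (∀ i, Term B (l + l) (fun z => G z i)) ∧
      ∀ u v, G (Fin.append (e u) (e v)) = e (g u v) := by
  classical
  haveI := Fintype.ofFinite Γ
  obtain ⟨hA, hO⟩ := and_or hB
  set N := Fintype.card Γ with hN
  let q : Γ ≃ Fin N := Fintype.equivFin Γ
  let un : Γ → Fin N → Bool := fun u w => decide (w = q u)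
  let Lw : Fin N → List (Fin (N + N) × Fin (N + N)) := fun w =>
    (Finset.univ.filter (fun p : Γ × Γ => q (g p.1 p.2) = w)).toList.map
      (fun p => (Fin.castAdd N (q p.1), Fin.natAdd N (q p.2)))
  have hT : ∀ w, TC B (N + N) (fun z => (Lw w).any fun p => z p.1 && z p.2) :=
    fun w => P9_any hA hO (Lw w)
  choose f hf hf2 using hT
  let σ : Fin (N + N + 2) → Fin ((N + 2) + (N + 2)) :=
    Fin.addCases (Fin.addCases (fun i => Fin.castAdd (N + 2) (Fin.castAdd 2 i))
      (fun i => Fin.natAdd (N + 2) (Fin.castAdd 2 i)))
      (fun i => Fin.castAdd (N + 2) (Fin.natAdd N i))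
  let G : (Fin ((N + 2) + (N + 2)) → Bool) → Fin (N + 2) → Bool := fun z =>
    Fin.addCases (fun w => f w (fun j => z (σ j)))
      (fun i => z (Fin.castAdd (N + 2) (Fin.natAdd N i)))
  refine ⟨N + 2, fun u => Fin.append (un u) ![false, true], G, ?_, ?_, ?_⟩
  · intro u v huv
    have h1 := congrFun huv (Fin.castAdd 2 (q u))
    simp only [Fin.append_left] at h1
    have h2 : q u = q v := by
      have h3 : un v (q u) = true := by
        rw [← h1]
        simp [un]
      simpa [un] using h3
    exact q.injective h2
  · intro i
    refine Fin.addCases (fun w => ?_) (fun i => ?_) i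
    · have h1 : (fun z => G z (Fin.castAdd 2 w)) = fun z => f w (fun j => z (σ j)) := by
        funext z
        simp only [G, Fin.addCases_left]
      rw [h1]
      exact Term.comp (hf w) (fun j => Term.var (σ j))
    · have h1 : (fun z => G z (Fin.natAdd N i)) = fun z => z (Fin.castAdd (N + 2) (Fin.natAdd N i)) := by
        funext z
        simp only [G, Fin.addCases_right]
      rw [h1]
      exact Term.var _
  · intro u v
    funext i
    refine Fin.addCases (fun w => ?_) (fun i => ?_) i
    · simp only [G, Fin.addCases_left, Fin.append_left]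
      have h1 : (fun j => Fin.append (Fin.append (un u) ![false, true]) (Fin.append (un v) ![false, true])
          (σ j)) = Fin.append (Fin.append (un u) (un v)) ![false, true] := by
        funext j
        refine Fin.addCases (fun j => ?_) (fun j => ?_) j
        · refine Fin.addCases (fun j => ?_) (fun j => ?_) j
          · simp only [σ, Fin.addCases_left, Fin.append_left]
          · simp only [σ, Fin.addCases_left, Fin.addCases_right, Fin.append_left, Fin.append_right]
        · simp only [σ, Fin.addCases_right, Fin.append_left, Fin.append_right]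
      rw [h1, hf2, Bool.eq_iff_iff]
      simp only [Lw, List.any_map, List.any_eq_true, Finset.mem_toList, Finset.mem_filter,
        Finset.mem_univ, true_and, Function.comp, Fin.append_left, Fin.append_right,
        Bool.and_eq_true, un, decide_eq_true_eq]
      constructor
      · rintro ⟨p, hp, hp1, hp2⟩
        have e1 : p.1 = u := q.injective hp1
        have e2 : p.2 = v := q.injective hp2
        rw [← hp, e1, e2]
      · intro hw
        exact ⟨(u, v), hw.symm, rfl, rfl⟩
    · simp only [G, Fin.addCases_right, Fin.append_left, Fin.append_right]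

end Pool.Agent.W_5d512e_post
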