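import Pool.Agent.W_5d512e_post.Ls
import Pool.Agent.W_MP_5d512e_dic.Easy

/-!
# Task S2: every dgsm word is read off the array of a one-way cellular automaton
-/

set_option autoImplicit false

namespace Pool.Agent.W_5d512e_post

open Pool.Agent.W_MP_5d512e_h33 Pool.Agent.W_5d512e_h57

/-- The letters of the simulating automaton: `none` is the letter `y` (start of a sweep);
`some (t, s, r, u)`: `t` is the letter of the word `w` in this cell (`none` = blank), `s` the state
of the dgsm if it is going to read this cell in the next sweep, `r` a state that travels one cell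
to the right, `u` the word that has still to be written at the end. -/
abbrev Cell (d p b : ℕ) : Type :=
  Option (Option (Fin d) × Option (Fin p) × Option (Fin p) × {u : List (Fin d) // u.length ≤ b})

instance (d b : ℕ) : Finite {u : List (Fin d) // u.length ≤ b} :=
  (List.finite_length_le (Fin d) b).to_subtype

/-! ### Proof -/

section

open Pool.Agent.W_MP_5d512e_dic

variable {d p : ℕ}

/-- cut off after `b` letters -/
def S2_clip (b : ℕ) (u : List (Fin d)) : {u : List (Fin d) // u.length ≤ b} :=
  ⟨u.take b, List.length_take_le b u⟩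

theorem S2_clip_val {b : ℕ} {u : List (Fin d)} (h : u.length ≤ b) : (S2_clip b u).1 = u :=
  List.take_of_length_le h

/-- the part that travels to the right -/
def S2_trav {b : ℕ} : Cell d p b → Option (Fin p) × List (Fin d)
  | none => (none, [])
  | some (_, _, r, u) => (r, u.1)

/-- the ordinary step in one cell -/
noncomputable def S2_step (Y : Sys (Fin p) (Fin d)) (b : ℕ) (t : Option (Fin d))
    (s r : Option (Fin p)) (u : List (Fin d)) : Cell d p b :=
  match t, s with
  | some x, some q => some (some x, none, some (Y.δ q x), S2_clip b (Y.out q x))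
  | some x, none => some (some x, r, none, S2_clip b u)
  | none, _ => some (u.head?, r, none, S2_clip b u.tail)

open Classical in
/-- the local rule -/
noncomputable def S2_g (Y : Sys (Fin p) (Fin d)) (b : ℕ) (z z' : Cell d p b) : Cell d p b :=
  match z with
  | none => none
  | some (t, s, _, _) =>
    if t = none ∧ z' = none then
      some ((Y.out (Y.sq 0) (Y.lim 0)).head?, none, some (Y.δ (Y.sq 0) (Y.lim 0)),
        S2_clip b (Y.out (Y.sq 0) (Y.lim 0)).tail)
    else S2_step Y b t s (S2_trav z').1 (S2_trav z').2

/-- the array -/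
noncomputable def S2_Z (Y : Sys (Fin p) (Fin d)) (b r i : ℕ) : Cell d p b :=
  if r = 0 then none
  else if i = 0 then some (none, none, none, S2_clip b [])
  else some (if r ≤ Y.fo i then some (Y.lim (r - 1)) else none,
    if r = i + 1 then some (Y.sq i) else none, if r = i then some (Y.sq i) else none,
    S2_clip b (if r < i then [] else (Y.out (Y.sq (i - 1)) (Y.lim (i - 1))).drop
      (r - Y.fo (i - 1))))

theorem S2_head (w : ℕ → Fin d) (a n k : ℕ) :
    ((blk w a n).drop k).head? = if k < n then some (w (a + k)) else none := by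
  rw [List.head?_drop]
  split_ifs with h
  · exact blk_get w a n k h
  · exact List.getElem?_eq_none (by rw [length_blk]; omega)

theorem S2_trav_Z (Y : Sys (Fin p) (Fin d)) {b : ℕ} (hb : ∀ q x, (Y.out q x).length ≤ b)
    (r i : ℕ) : S2_trav (S2_Z Y b r (i + 1)) =
      (if r = i + 1 then some (Y.sq (i + 1)) else none,
        if r < i + 1 then [] else (Y.out (Y.sq i) (Y.lim i)).drop (r - Y.fo i)) := by
  unfold S2_Z
  by_cases hr : r = 0
  · subst hr
    rw [if_pos rfl, if_neg (by omega), if_pos (by omega)]
    rfl
  · rw [if_neg hr, if_neg (by omega)]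
    show ((if r = i + 1 then some (Y.sq (i + 1)) else none), (S2_clip b _).1) = _
    rw [S2_clip_val]
    · rfl
    · split_ifs
      · exact Nat.zero_le _
      · rw [List.length_drop]
        have := hb (Y.sq (i + 1 - 1)) (Y.lim (i + 1 - 1))
        omega

theorem S2_g_first (Y : Sys (Fin p) (Fin d)) (b : ℕ) (s r : Option (Fin p))
    (u : {u : List (Fin d) // u.length ≤ b}) :
    S2_g Y b (some (none, s, r, u)) none =
      some ((Y.out (Y.sq 0) (Y.lim 0)).head?, none, some (Y.δ (Y.sq 0) (Y.lim 0)),
        S2_clip b (Y.out (Y.sq 0) (Y.lim 0)).tail) := by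
  unfold S2_g
  exact if_pos ⟨rfl, rfl⟩

theorem S2_g_some (Y : Sys (Fin p) (Fin d)) (b : ℕ) (t : Option (Fin d)) (s r : Option (Fin p))
    (u : {u : List (Fin d) // u.length ≤ b}) (z' : Cell d p b) (h : ¬ (t = none ∧ z' = none)) :
    S2_g Y b (some (t, s, r, u)) z' = S2_step Y b t s (S2_trav z').1 (S2_trav z').2 :=
  if_neg h

theorem S2_step1 (Y : Sys (Fin p) (Fin d)) (b : ℕ) (x : Fin d) (q : Fin p) (r : Option (Fin p))
    (u : List (Fin d)) : S2_step Y b (some x) (some q) r u =
      some (some x, none, some (Y.δ q x), S2_clip b (Y.out q x)) := rfl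

theorem S2_step2 (Y : Sys (Fin p) (Fin d)) (b : ℕ) (x : Fin d) (r : Option (Fin p))
    (u : List (Fin d)) : S2_step Y b (some x) none r u = some (some x, r, none, S2_clip b u) := rfl

theorem S2_step3 (Y : Sys (Fin p) (Fin d)) (b : ℕ) (s r : Option (Fin p)) (u : List (Fin d)) :
    S2_step Y b none s r u = some (u.head?, r, none, S2_clip b u.tail) := rfl

theorem S2_rec (Y : Sys (Fin p) (Fin d)) {b : ℕ} (hb : ∀ q x, (Y.out q x).length ≤ b)
    (r i : ℕ) : S2_Z Y b (r + 1) (i + 1) = S2_g Y b (S2_Z Y b (r + 1) i) (S2_Z Y b r (i + 1)) := by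
  have hfo0 : Y.fo 0 = 0 := Y.fo_zero
  have hfo1 : ∀ n, 1 ≤ n → n + 1 ≤ Y.fo n := Y.fo_ge
  have hmono : Y.fo i ≤ Y.fo (i + 1) := Y.fo_mono (Nat.le_succ i)
  have hgt := hfo1 (i + 1) (by omega)
  have hhead : ∀ k, ((Y.out (Y.sq i) (Y.lim i)).drop k).head? =
      if k < Y.fo (i + 1) - Y.fo i then some (Y.lim (Y.fo i + k)) else none := by
    intro k
    rw [Y.out_blk i]
    exact S2_head _ _ _ _
  have htrav := S2_trav_Z Y hb r i
  have hL : S2_Z Y b (r + 1) (i + 1) =
      some (if r + 1 ≤ Y.fo (i + 1) then some (Y.lim r) else none,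
        if r + 1 = i + 1 + 1 then some (Y.sq (i + 1)) else none,
        if r + 1 = i + 1 then some (Y.sq (i + 1)) else none,
        S2_clip b (if r + 1 < i + 1 then [] else
          (Y.out (Y.sq i) (Y.lim i)).drop (r + 1 - Y.fo i))) := by
    unfold S2_Z
    rw [if_neg (by omega), if_neg (by omega)]
    rfl
  rw [hL]
  clear hL
  rcases Nat.eq_zero_or_pos i with hi | hi
  · subst hi
    have hz : S2_Z Y b (r + 1) 0 = some (none, none, none, S2_clip b []) := by
      unfold S2_Z
      rw [if_neg (by omega), if_pos rfl]
    rw [hz]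
    rcases Nat.eq_zero_or_pos r with hr | hr
    · subst hr
      have hz' : S2_Z Y b 0 (0 + 1) = none := by
        unfold S2_Z
        rw [if_pos rfl]
      rw [hz', S2_g_first]
      have h0 := hhead 0
      rw [List.drop_zero, if_pos (by omega), hfo0, zero_add] at h0
      rw [if_pos (by omega), if_neg (by omega), if_pos rfl, if_neg (by omega), h0, hfo0,
        Y.sq_succ 0, Nat.sub_zero, zero_add, List.drop_one]
    · have hz' : S2_Z Y b r (0 + 1) ≠ none := by
        unfold S2_Z
        rw [if_neg (by omega), if_neg (by omega)]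
        exact Option.some_ne_none _
      rw [S2_g_some _ _ _ _ _ _ _ (fun h => hz' h.2), htrav, S2_step3]
      simp only
      rw [if_neg (by omega : ¬ r < 0 + 1), hhead, if_neg (by omega : ¬ r + 1 = 0 + 1),
        if_neg (by omega : ¬ r + 1 < 0 + 1), List.tail_drop, hfo0]
      have e1 : (r + 1 = 0 + 1 + 1) = (r = 0 + 1) := propext (by omega)
      have e2 : (r + 1 ≤ Y.fo (0 + 1)) = (r - 0 < Y.fo (0 + 1) - 0) := propext (by omega)
      simp only [e1, e2, Nat.sub_zero, Nat.zero_add]
  · have hfi := hfo1 i hi
    have hz : S2_Z Y b (r + 1) i =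
        some (if r + 1 ≤ Y.fo i then some (Y.lim r) else none,
        if r + 1 = i + 1 then some (Y.sq i) else none,
        if r + 1 = i then some (Y.sq i) else none,
        S2_clip b (if r + 1 < i then [] else
          (Y.out (Y.sq (i - 1)) (Y.lim (i - 1))).drop (r + 1 - Y.fo (i - 1)))) := by
      unfold S2_Z
      rw [if_neg (by omega), if_neg (by omega)]
      rfl
    have hno : ¬ ((if r + 1 ≤ Y.fo i then some (Y.lim r) else none) = none ∧
        S2_Z Y b r (i + 1) = none) := by
      rintro ⟨h1, h2⟩
      rcases Nat.eq_zero_or_pos r with hr | hr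
      · subst hr
        rw [if_pos (by omega)] at h1
        exact Option.some_ne_none _ h1
      · unfold S2_Z at h2
        rw [if_neg (by omega), if_neg (by omega)] at h2
        exact Option.some_ne_none _ h2
    have hR := S2_g_some Y b (if r + 1 ≤ Y.fo i then some (Y.lim r) else none)
      (if r + 1 = i + 1 then some (Y.sq i) else none) (if r + 1 = i then some (Y.sq i) else none)
      (S2_clip b (if r + 1 < i then [] else
          (Y.out (Y.sq (i - 1)) (Y.lim (i - 1))).drop (r + 1 - Y.fo (i - 1)))) _ hno
    rw [← hz, htrav] at hR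
    simp only at hR
    by_cases hri : r = i
    · subst hri
      rw [if_pos (by omega : r + 1 ≤ Y.fo r), if_pos rfl, S2_step1] at hR
      rw [hR, if_pos (by omega), if_neg (by omega), if_pos rfl, if_neg (by omega), Y.sq_succ,
        show r + 1 - Y.fo r = 0 by omega, List.drop_zero]
    · rw [if_neg (by omega : ¬ r + 1 = i + 1)] at hR
      rw [if_neg (by omega : ¬ r + 1 = i + 1)]
      by_cases hr : r + 1 ≤ Y.fo i
      · rw [if_pos hr, S2_step2] at hR
        rw [hR, if_pos (by omega : r + 1 ≤ Y.fo (i + 1)), show r + 1 - Y.fo i = 0 by omega,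
          show r - Y.fo i = 0 by omega]
        have e1 : (r + 1 = i + 1 + 1) = (r = i + 1) := propext (by omega)
        have e2 : (r + 1 < i + 1) = (r < i + 1) := propext (by omega)
        simp only [e1, e2]
      · rw [if_neg hr, S2_step3, if_neg (by omega : ¬ r < i + 1), hhead, List.tail_drop] at hR
        rw [hR, if_neg (by omega : ¬ r + 1 < i + 1),
          show Y.fo i + (r - Y.fo i) = r by omega,
          show r + 1 - Y.fo i = r - Y.fo i + 1 by omega]
        have e1 : (r + 1 = i + 1 + 1) = (r = i + 1) := propext (by omega)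
        have e2 : (r + 1 ≤ Y.fo (i + 1)) = (r - Y.fo i < Y.fo (i + 1) - Y.fo i) :=
          propext (by omega)
        simp only [e1, e2]

theorem S2_pas (Y : Sys (Fin p) (Fin d)) {b : ℕ} (hb : ∀ q x, (Y.out q x).length ≤ b)
    {x : ℕ → ℕ → Cell d p b} (hx : Pas (S2_g Y b) (some (none, none, none, S2_clip b [])) none x) :
    ∀ r j, x r j = S2_Z Y b r (j + 1) := by
  intro r
  induction r with
  | zero =>
    intro j
    rw [hx.x0]
    unfold S2_Z
    rw [if_pos rfl]
  | succ r ih =>
    intro j
    induction j with
    | zero =>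
      rw [hx.x1, ih 0, S2_rec Y hb r 0]
      congr 1
    | succ j ih2 => rw [hx.x2, ih2, ih, ← S2_rec Y hb r (j + 1)]

end

/-- TASK S2. Simulation. Let `X r j` be the array, `Y (r, i) = X r (i - 1)` (`i ≥ 1`),
`c = some (none, none, none, [])` (blank), `y = none`. `g z z'`: here `g z z'` is applied with
`z` = the value in the same cell `r` one sweep earlier (`Y (r, i - 1)`, `c` if `i = 1`), and
`z'` = the value in the cell `r - 1` in the present sweep (`y` if `r - 1 = 0`):
* if `z' = none` and `z` has no letter (this happens only in the first sweep): write the first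
  letter of `v = out q0 a`, travelling word `v.tail`, travelling state `some (δ q0 a)`, mark `none`;
* otherwise let `(r', u')` be the travelling part of `z'` (`(none, [])` if `z' = none`) and
  `z = some (t, s, _, _)`: the new letter is `t` if `t ≠ none` and otherwise `u'.head?` (then
  `u'` loses its head); if `s = some q` and `t = some x` then the new state mark is `none`, the
  travelling state `some (δ q x)` and the travelling word `out q x`; if `s = none` the new state
  mark is `r'`, the travelling state `none` and the travelling word what is left of `u'`.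
Invariant for sweep `i ≥ 1`, cell `r ≥ 1`: with `P i = |τ(w_0 ... w_(i-1))|` (`≥ i + 1`, as
`|out q0 a| ≥ 2` and the dgsm is non-erasing; `P 0 = 0`) the letter is `some (w (r-1))` iff
`r ≤ P i` (else `none`), the state mark is `some (state before w_i)` iff `r = i + 1`, the travelling
state is `some (state before w_i)` iff `r = i`, the travelling word is `[]` for `r < i` and otherwise
`out (state before w_(i-1)) w_(i-1)` without its first `r - P (i-1)` letters.
`φ z` = the letter `t` if there is a state mark, and `none` otherwise. -/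
theorem sim {d p : ℕ} {δ : Fin p → Fin d → Fin p} {q0 : Fin p}
    {out : Fin p → Fin d → List (Fin d)} {a : Fin d} {w : ℕ → Fin d} (h : Iterates δ q0 out a w) :
    ∃ (Γ : Type) (_ : Finite Γ) (g : Γ → Γ → Γ) (c y : Γ) (φ : Γ → Option (Fin d)),
      ∀ x, Pas g c y x → ∀ r j, φ (x r j) = if r = j + 2 then some (w (j + 1)) else none := by
  classical
  obtain ⟨Y, -, hw⟩ := Pool.Agent.W_MP_5d512e_dic.exists_sys h
  obtain ⟨b, hb⟩ : ∃ b, ∀ q x, (Y.out q x).length ≤ b := by
    obtain ⟨b, hb⟩ := (Set.finite_range
      (fun t : Fin p × Fin d => (Y.out t.1 t.2).length)).bddAbove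
    exact ⟨b, fun q x => hb ⟨(q, x), rfl⟩⟩
  refine ⟨Cell d p b, inferInstance, S2_g Y b, some (none, none, none, S2_clip b []), none,
    fun z => match z with
      | some (t, some _, _, _) => t
      | _ => none, ?_⟩
  intro x hx r j
  rw [S2_pas Y hb hx r j, ← hw]
  unfold S2_Z
  have h1 := Y.fo_ge (j + 1) (by omega)
  by_cases hr : r = 0
  · rw [if_pos hr, if_neg (by omega)]
  · rw [if_neg hr, if_neg (by omega)]
    by_cases hj : r = j + 2
    · subst hj
      rw [if_pos rfl, if_pos (by omega), if_pos rfl]
      rfl
    · rw [if_neg (show ¬ r = j + 1 + 1 from hj), if_neg hj]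

end Pool.Agent.W_5d512e_post
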