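import Pool.Agent.W_5d512e_post.Ls
import Pool.Agent.W_5d512e_h80.Filter

/-!
# Task S3: filter
-/

set_option autoImplicit false

namespace Pool.Agent.W_5d512e_post

open Pool.Agent.W_MP_5d512e_h33 Pool.Agent.W_5d512e_h57

open Pool.Agent.W_5d512e_h80

private theorem S3_tri_mono {a b : ℕ} (h : a ≤ b) : tri a ≤ tri b := by
  induction h with
  | refl => exact le_rfl
  | step _ ih => exact ih.trans (by simp [tri])

private theorem S3_e_lt {a b : ℕ} (h : a < b) : kp a (a + 3) < kp b (b + 3) := by
  unfold kp
  have := S3_tri_mono (show a + (a + 3) ≤ b + (b + 3) by omega)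
  omega

private theorem S3_e_iff {a b : ℕ} : kp a (a + 3) < kp b (b + 3) ↔ a < b := by
  constructor
  · intro h
    by_contra hcon
    rcases Nat.lt_or_ge b a with h1 | h1
    · have := S3_e_lt h1
      omega
    · have : a = b := by omega
      subst this
      omega
  · exact S3_e_lt

private theorem S3_inv {Γ : Type} {D d : ℕ} {a' m : Fin D} {L : Γ → Fin D} {x : ℕ → ℕ → Γ}
    {w : ℕ → Fin d} {φ : Γ → Option (Fin d)} {ψ : Fin D → Option (Fin d)}
    (p1 : ψ a' = some (w 0)) (p2 : ψ m = none) (p3 : ∀ z, ψ (L z) = φ z)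
    (h3 : ∀ r j, φ (x r j) = if r = j + 2 then some (w (j + 1)) else none) (t : ℕ) :
    ∃ k, 1 ≤ k ∧ (∀ a, a + 1 < k ↔ kp a (a + 3) < t) ∧
      ((List.range (t + 1)).map (wordOf a' m L x)).filterMap ψ = (List.range k).map w := by
  induction t with
  | zero =>
    refine ⟨1, le_rfl, fun a => ?_, ?_⟩
    · constructor <;> intro h <;> omega
    · simp [wordOf, p1]
  | succ t ih =>
    obtain ⟨k, hk, h4, h5⟩ := ih
    rw [List.range_succ, List.map_append, List.filterMap_append, h5]
    by_cases ht : ∃ a, kp a (a + 3) = t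
    · obtain ⟨a, rfl⟩ := ht
      have hka : k = a + 1 := by
        have h6 : ¬ a + 1 < k := fun h => absurd ((h4 a).1 h) (lt_irrefl _)
        have h7 : ¬ k < a + 1 := by
          intro h
          have h8 : kp (k - 1) (k - 1 + 3) < kp a (a + 3) := S3_e_lt (by omega)
          have h9 := (h4 (k - 1)).2 h8
          omega
        omega
      subst hka
      refine ⟨a + 2, by omega, fun b => ?_, ?_⟩
      · constructor
        · intro h
          rcases Nat.lt_or_ge b a with h1 | h1
          · exact (S3_e_lt h1).trans (Nat.lt_succ_self _)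
          · have : b = a := by omega
            subst this
            exact Nat.lt_succ_self _
        · intro h
          by_contra hcon
          have := S3_e_lt (show a < b by omega)
          omega
      · rw [List.range_succ (n := a + 1), List.map_append]
        congr 1
        have h6 : wordOf a' m L x (kp a (a + 3) + 1) = L (x (a + 2) a) := by
          simp [wordOf, ku_kp]
        simp [h6, p3, h3]
    · push Not at ht
      refine ⟨k, hk, fun b => ?_, ?_⟩
      · rw [h4 b]
        have := ht b
        omega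
      · have h6 : ψ (wordOf a' m L x (t + 1)) = none := by
          by_cases h0 : (ku t).2 = 0
          · simp [wordOf, h0, p2]
          · simp only [wordOf, h0, if_false]
            rw [p3, h3, if_neg]
            intro h7
            have h8 := ht (ku t).1
            have h9 := kp_ku t
            have h10 : (ku t).2 = (ku t).1 + 3 := by omega
            rw [h10] at h9
            exact h8 h9
        simp [h6]

/-- TASK S3. Reading `w` off the word `wordOf a' m L x`: the letter `a'` is renamed `w 0`, the
letter `L z` is renamed `φ z` or deleted, all other letters are deleted. The row of length `n`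
has the letters `x (n - 1 - j) j`, so `w (j + 1)` comes from the row of length `2 j + 3`. The first
`tri n + 1` letters (`n ≥ 2`) give exactly `w 0, ..., w (n / 2 - 1)`. -/
theorem filterOf_wordOf {Γ : Type} {D d : ℕ} {a' m : Fin D} {L : Γ → Fin D} {x : ℕ → ℕ → Γ}
    {w : ℕ → Fin d} {φ : Γ → Option (Fin d)} (hL : Function.Injective L)
    (h1 : a' ≠ m) (h2 : ∀ z, L z ≠ a' ∧ L z ≠ m)
    (h3 : ∀ r j, φ (x r j) = if r = j + 2 then some (w (j + 1)) else none) :
    FilterOf (wordOf a' m L x) w := by
  classical
  let ψ : Fin D → Option (Fin d) := fun u =>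
    if u = a' then some (w 0) else if h : ∃ z, L z = u then φ h.choose else none
  have p1 : ψ a' = some (w 0) := by simp [ψ]
  have p2 : ψ m = none := by
    have h4 : ¬ ∃ z, L z = m := fun ⟨z, hz⟩ => (h2 z).2 hz
    simp only [ψ]
    rw [if_neg (fun h => h1 h.symm), dif_neg h4]
  have p3 : ∀ z, ψ (L z) = φ z := by
    intro z
    have h4 : ∃ z', L z' = L z := ⟨z, rfl⟩
    simp only [ψ]
    rw [if_neg (h2 z).1, dif_pos h4, hL h4.choose_spec]
  refine ⟨ψ, 4, fun N i h => ?_, fun n => ?_⟩
  · rcases N with _ | t
    · simp at h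
    · obtain ⟨k, _, _, h5⟩ := S3_inv p1 p2 p3 h3 t
      simp [h5]
  · have hN : ∃ t, 4 * (n + 1) ^ 4 = t + 1 := ⟨4 * (n + 1) ^ 4 - 1, by
      have : 1 ≤ (n + 1) ^ 4 := Nat.one_le_pow _ _ (by omega)
      omega⟩
    obtain ⟨t, ht⟩ := hN
    rw [ht]
    obtain ⟨k, hk, h4, h5⟩ := S3_inv p1 p2 p3 h3 t
    rw [h5, List.length_map, List.length_range]
    rcases Nat.lt_or_ge n 2 with hn | hn
    · omega
    · obtain ⟨b, rfl⟩ : ∃ b, n = b + 2 := ⟨n - 2, by omega⟩
      have h6 : kp b (b + 3) < t := by
        have h7 := kp_le b (b + 3)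
        have h8 : (b + (b + 3) + 1) ^ 2 + 2 ≤ 4 * (b + 2 + 1) ^ 4 := by
          have h9 : (b + (b + 3) + 1) ^ 2 + 2 ≤ 4 * (b + 2 + 1) ^ 2 := by nlinarith
          have h10 : (b + 2 + 1) ^ 2 ≤ (b + 2 + 1) ^ 4 :=
            Nat.pow_le_pow_right (by omega) (by omega)
          omega
        omega
      have := (h4 b).2 h6
      omega

end Pool.Agent.W_5d512e_post
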