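import Pool.Agent.W_5d512e_post.Ls

/-!
# Task W1
-/

set_option autoImplicit false

namespace Pool.Agent.W_5d512e_post

open Pool.Agent.W_MP_5d512e_h33 Pool.Agent.W_5d512e_h57

/-- the letters of a column, given the states of the column -/
private def W1_X {k l : ℕ} (g : (Fin (k + l) → Bool) → Fin l → Bool) (y : Fin l → Bool)
    (sj : ℕ → Fin k → Bool) : ℕ → Fin l → Bool
  | 0 => y
  | p + 1 => g (Fin.append (sj p) (W1_X g y sj p))

/-- the states of the columns -/
private def W1_S {k l : ℕ} (f : (Fin (k + l) → Bool) → Fin k → Bool)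
    (g : (Fin (k + l) → Bool) → Fin l → Bool) (c : Fin k → Bool) (y : Fin l → Bool) :
    ℕ → ℕ → Fin k → Bool
  | 0 => fun _ => c
  | j + 1 => fun p =>
      f (Fin.append (W1_S f g c y j (p + 1)) (W1_X g y (W1_S f g c y j) (p + 1)))

/-- the rows of a cellular automaton -/
private def W1_row {Γ : Type} (g : Γ → Γ → Γ) (c : Γ) (r : ℕ → Γ) : ℕ → Γ
  | 0 => g c (r 0)
  | j + 1 => g (W1_row g c r j) (r (j + 1))

private def W1_arr {Γ : Type} (g : Γ → Γ → Γ) (c y : Γ) : ℕ → ℕ → Γ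
  | 0 => fun _ => y
  | p + 1 => W1_row g c (W1_arr g c y p)

/-- TASK W1. Existence of the array: define `(s · j, x · j)` by recursion on `j`, for fixed `j` by
recursion on `p`. (`x · j` needs `s · j`; `s · (j+1)` needs `s (· + 1) j` and `x (· + 1) j`.) -/
theorem exists_run {k l : ℕ} (f : (Fin (k + l) → Bool) → Fin k → Bool)
    (g : (Fin (k + l) → Bool) → Fin l → Bool) (c : Fin k → Bool) (y : Fin l → Bool) :
    ∃ (s : ℕ → ℕ → Fin k → Bool) (x : ℕ → ℕ → Fin l → Bool), Run f g c y s x :=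
  ⟨fun p j => W1_S f g c y j p, fun p j => W1_X g y (W1_S f g c y j) p,
    ⟨fun _ => rfl, fun _ _ => rfl, fun _ => rfl, fun _ _ => rfl⟩⟩

/-- The array of a cellular automaton exists. -/
theorem exists_pas {Γ : Type} (g : Γ → Γ → Γ) (c y : Γ) : ∃ x, Pas g c y x :=
  ⟨W1_arr g c y, ⟨fun _ => rfl, fun _ => rfl, fun _ _ => rfl⟩⟩

end Pool.Agent.W_5d512e_post
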