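import Pool.Agent.W_5d512e_post.W2

/-!
# Task W3
-/

set_option autoImplicit false

namespace Pool.Agent.W_5d512e_post

open Pool.Agent.W_MP_5d512e_h33 Pool.Agent.W_5d512e_h57

variable {k l d p : ℕ} {f : (Fin (k + l) → Bool) → Fin k → Bool}
  {g : (Fin (k + l) → Bool) → Fin l → Bool} {c : Fin k → Bool} {y : Fin l → Bool}
  {S : (Fin k → Bool) → Fin p} {L : (Fin l → Bool) → Fin d} {a m : Fin d}
  {δ : Fin p → Fin d → Fin p} {q0 : Fin p} {out : Fin p → Fin d → List (Fin d)}
  {s : ℕ → ℕ → Fin k → Bool} {x : ℕ → ℕ → Fin l → Bool}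

/-- TASK W3. From `iterate_eq`, `Iterates.limit` and `tri n → ∞`. -/
theorem eq_wordOf (hM : Machine f g c y S L a m δ q0 out) (hR : Run f g c y s x) {w : ℕ → Fin d}
    (hI : Iterates δ q0 out a w) : w = wordOf a m L x := by
  have htri : ∀ n : ℕ, n ≤ tri n := by
    intro n
    induction n with
    | zero => exact Nat.zero_le _
    | succ n ih =>
      show n + 1 ≤ tri n + (n + 1)
      omega
  funext i
  have h1 := iterate_eq hM hR i
  have hlen : i < ((trans δ q0 out)^[i] [a]).length := by
    rw [h1, List.length_map, List.length_range]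
    have := htri i
    omega
  rw [← hI.limit i i hlen]
  simp only [h1, List.getElem_map, List.getElem_range]

/-- `N = k + l`, the letter coordinates (`Fin.natAdd k i`) are of the first kind. -/
theorem isArr_of_run (hR : Run f g c y s x) :
    IsArr (N := k + l) (fun i => ∃ i', i = Fin.natAdd k i')
      (fun i z => Fin.append (f z) (g z) i) (Fin.append c y)
      (fun p j => Fin.append (s p j) (x p j)) := by
  constructor
  · rintro i ⟨i', rfl⟩ j
    show Fin.append (s 0 j) (x 0 j) (Fin.natAdd k i') = Fin.append c y (Fin.natAdd k i')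
    rw [Fin.append_right, Fin.append_right, hR.x0]
  · rintro i ⟨i', rfl⟩ p j
    show Fin.append (s (p + 1) j) (x (p + 1) j) (Fin.natAdd k i') =
      Fin.append (f (Fin.append (s p j) (x p j))) (g (Fin.append (s p j) (x p j)))
        (Fin.natAdd k i')
    rw [Fin.append_right, Fin.append_right, hR.x1]
  · intro i hi p
    show Fin.append (s p 0) (x p 0) i = Fin.append c y i
    induction i using Fin.addCases with
    | left i' => rw [Fin.append_left, Fin.append_left, hR.s0]
    | right i' => exact absurd ⟨i', rfl⟩ hi
  · intro i hi p j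
    show Fin.append (s p (j + 1)) (x p (j + 1)) i =
      Fin.append (f (Fin.append (s (p + 1) j) (x (p + 1) j)))
        (g (Fin.append (s (p + 1) j) (x (p + 1) j))) i
    induction i using Fin.addCases with
    | left i' => rw [Fin.append_left, Fin.append_left, hR.s1]
    | right i' => exact absurd ⟨i', rfl⟩ hi

end Pool.Agent.W_5d512e_post
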