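import Pool.Agent.W_5d512e_post.W2

/-!
# Task W4
-/

set_option autoImplicit false

namespace Pool.Agent.W_5d512e_post

open Pool.Agent.W_MP_5d512e_h33 Pool.Agent.W_5d512e_h57

private theorem W4_le_tri (n : ℕ) : n ≤ tri n := by
  induction n with
  | zero => exact Nat.zero_le _
  | succ n ih => unfold tri; omega

/-- TASK W4. The machine exists: states `Fin (2 ^ k)`, letters `Fin (2 ^ l + 2)`, transported
along an equivalence `Fin (2 ^ l + 2) ≃ (Fin l → Bool) ⊕ Bool`. (`Iterates` from `iterate_eq`.) -/
theorem exists_machine {k l : ℕ} (f : (Fin (k + l) → Bool) → Fin k → Bool)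
    (g : (Fin (k + l) → Bool) → Fin l → Bool) (c : Fin k → Bool) (y : Fin l → Bool) :
    ∃ (d p : ℕ) (S : (Fin k → Bool) → Fin p) (L : (Fin l → Bool) → Fin d) (a m : Fin d)
      (δ : Fin p → Fin d → Fin p) (q0 : Fin p) (out : Fin p → Fin d → List (Fin d)),
      Machine f g c y S L a m δ q0 out ∧ ∀ s x, Run f g c y s x →
        Iterates δ q0 out a (wordOf a m L x) := by
  obtain ⟨S⟩ : Nonempty ((Fin k → Bool) ≃ Fin (2 ^ k)) :=
    ⟨Fintype.equivFinOfCardEq (by simp)⟩
  obtain ⟨e⟩ : Nonempty ((Fin l → Bool) ⊕ Bool ≃ Fin (2 ^ l + 2)) :=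
    ⟨Fintype.equivFinOfCardEq (by simp)⟩
  let L : (Fin l → Bool) → Fin (2 ^ l + 2) := fun x => e (Sum.inl x)
  let a : Fin (2 ^ l + 2) := e (Sum.inr true)
  let m : Fin (2 ^ l + 2) := e (Sum.inr false)
  let δ : Fin (2 ^ k) → Fin (2 ^ l + 2) → Fin (2 ^ k) := fun q z =>
    Sum.elim (fun x => S (f (Fin.append (S.symm q) x))) (fun _ => S c) (e.symm z)
  let out : Fin (2 ^ k) → Fin (2 ^ l + 2) → List (Fin (2 ^ l + 2)) := fun q z =>
    Sum.elim (fun x => [L (g (Fin.append (S.symm q) x))])
      (fun b => if b then [a, m] else [L y, m]) (e.symm z)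
  have hM : Machine f g c y S L a m δ (S c) out :=
    { injS := S.injective
      injL := fun x x' h => Sum.inl_injective (e.injective h)
      ne := by
        refine ⟨fun h => ?_, fun x => ⟨fun h => ?_, fun h => ?_⟩⟩
        · have h1 := Sum.inr_injective (e.injective h)
          exact absurd h1 (by decide)
        · exact absurd (e.injective h) (by simp)
        · exact absurd (e.injective h) (by simp)
      start := rfl
      seed := fun s => by
        constructor
        · simp [δ, a]
        · simp [out, a]
      mark := fun s => by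
        constructor
        · simp [δ, m]
        · simp [out, m]
      read := fun s x => by
        constructor
        · simp [δ, L]
        · simp [out, L] }
  refine ⟨2 ^ l + 2, 2 ^ k, S, L, a, m, δ, S c, out, hM, fun s x hR => ?_⟩
  have hit := fun n => iterate_eq hM hR n
  refine ⟨?_, ?_, ?_, ?_⟩
  · intro q z
    show Sum.elim _ _ (e.symm z) ≠ []
    rcases e.symm z with x | b
    · simp
    · cases b <;> simp
  · have h1 : trans δ (S c) out [a] = [a, m] := by
      have h2 := (hM.seed (S c)).2
      simp [Pool.Agent.W_MP_5d512e_h33.trans, h2]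
    rw [h1]
    exact ⟨[m], rfl⟩
  · intro N
    refine ⟨N, ?_⟩
    rw [hit N, List.length_map, List.length_range]
    exact (W4_le_tri N).trans (Nat.le_succ _)
  · intro n i h
    have h1 := hit n
    have h2 : ((trans δ (S c) out)^[n] [a])[i]? = some (wordOf a m L x i) := by
      have h3 : i < tri n + 1 := by
        rw [h1, List.length_map, List.length_range] at h
        exact h
      rw [h1, List.getElem?_map, List.getElem?_range h3]
      rfl
    rw [List.getElem?_eq_getElem h] at h2
    exact Option.some_injective _ h2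

end Pool.Agent.W_5d512e_post
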