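import Pool.Agent.W_5d512e_post.L4
import Pool.Agent.W_5d512e_post.W1
import Pool.Agent.W_5d512e_post.W3
import Pool.Agent.W_5d512e_post.W4
import Pool.Agent.W_5d512e_post.P9
import Pool.Agent.W_5d512e_post.S2
import Pool.Agent.W_5d512e_post.S3
import Pool.Agent.W_5d512e_post.O9
import Pool.Agent.W_5d512e_post.Aff

/-!
# Assembly
-/

set_option autoImplicit false

namespace Pool.Agent.W_5d512e_post

open Pool.Agent.W_MP_5d512e_h33 Pool.Agent.W_5d512e_h57 Pool.Agent.W_5d512e_h80

variable {B : ∀ n : ℕ, Set ((Fin n → Bool) → Bool)}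

/-- a coordinate of the pair `(f, g)` -/
lemma term_append {k l : ℕ} {f : (Fin (k + l) → Bool) → Fin k → Bool}
    {g : (Fin (k + l) → Bool) → Fin l → Bool} (hf : ∀ i, Term B (k + l) (fun z => f z i))
    (hg : ∀ i, Term B (k + l) (fun z => g z i)) (i : Fin (k + l)) :
    Term B (k + l) (fun z => Fin.append (f z) (g z) i) := by
  refine Fin.addCases (fun i => ?_) (fun i => ?_) i
  · simp only [Fin.append_left]
    exact hf i
  · simp only [Fin.append_right]
    exact hg i

theorem easy_case (hB : Easy B) {d p : ℕ} {δ : Fin p → Fin d → Fin p} {q0 : Fin p}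
    {out : Fin p → Fin d → List (Fin d)} {a : Fin d} {w : ℕ → Fin d}
    (hI : Iterates δ q0 out a w) (hC : Circuit B δ q0 out a) : LogSpace w := by
  obtain ⟨k, l, f, g, c, y, S, L, m, hM, hf, hg⟩ := hC
  obtain ⟨s, x, hR⟩ := exists_run f g c y
  rw [eq_wordOf hM hR hI]
  have hA := isArr_of_run hR
  have hT := term_append hf hg
  have key : ∀ i, LSp (fun z : ℕ × ℕ => Fin.append (s z.1 z.2) (x z.1 z.2) i = true) := by
    intro i
    rcases hB with hB | hB | hB
    · exact aff_case hA (fun i => (hT i).affine hB) i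
    · exact and_case hA (fun i => (hT i).presAnd hB) i
    · exact or_case hA (fun i => (hT i).presOr hB) i
  refine logSpace_wordOf a m L x (fun i => ?_)
  have := key (Fin.natAdd k i)
  simpa only [Fin.append_right] using this

theorem hard_case (hB : ¬ Easy B)
    (h : ∀ (d p : ℕ) (δ : Fin p → Fin d → Fin p) (q0 : Fin p)
      (out : Fin p → Fin d → List (Fin d)) (a : Fin d) (w : ℕ → Fin d),
      Iterates δ q0 out a w → Cellular B δ q0 out a → LogSpace w)
    {d p : ℕ} {δ : Fin p → Fin d → Fin p} {q0 : Fin p}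
    {out : Fin p → Fin d → List (Fin d)} {a : Fin d} {w : ℕ → Fin d}
    (hI : Iterates δ q0 out a w) : LogSpace w := by
  obtain ⟨Γ, hΓ, g, c, y, φ, hφ⟩ := sim hI
  obtain ⟨X, hX⟩ := exists_pas g c y
  obtain ⟨l, e, G, he, hG, heG⟩ := enc hB Γ g
  obtain ⟨d', p', S, L, a', m, δ', q0', out', hM, hW⟩ :=
    exists_machine (k := l) (l := l) (fun z i => z (Fin.natAdd l i)) G (e c) (e y)
  -- the array of the coded automaton
  have hR : Run (k := l) (l := l) (fun z i => z (Fin.natAdd l i)) G (e c) (e y)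
      (fun r j => if j = 0 then e c else e (X (r + 1) (j - 1))) (fun r j => e (X r j)) := by
    refine ⟨fun j => by simp only [hX.x0], ?_, fun r => by simp, ?_⟩
    · intro r j
      cases j with
      | zero => simp only [if_true, heG, hX.x1]
      | succ j =>
        simp only [Nat.add_eq_zero_iff, one_ne_zero, and_false, if_false, Nat.add_sub_cancel, heG,
          hX.x2]
    · intro r j
      funext i
      simp only [Nat.add_eq_zero_iff, one_ne_zero, and_false, if_false, Nat.add_sub_cancel,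
        Fin.append_right]
  have hI' := hW _ _ hR
  have hw' := h _ _ _ _ _ _ _ hI' ⟨l, G, e c, e y, S, L, m, hM, hG⟩
  have hwe : wordOf a' m L (fun r j => e (X r j)) = wordOf a' m (fun z => L (e z)) X := by
    funext t
    cases t with
    | zero => rfl
    | succ t => rfl
  rw [hwe] at hw'
  refine logSpace_filter (filterOf_wordOf (φ := φ) (fun u v huv => he (hM.injL huv)) hM.ne.1
    (fun z => hM.ne.2 _) (hφ X hX)) hw'

lemma circuit_of_cellular {d p : ℕ} {δ : Fin p → Fin d → Fin p} {q0 : Fin p}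
    {out : Fin p → Fin d → List (Fin d)} {a : Fin d} (h : Cellular B δ q0 out a) :
    Circuit B δ q0 out a := by
  obtain ⟨l, g, c, y, S, L, m, hM, hg⟩ := h
  exact ⟨l, l, _, g, c, y, S, L, m, hM, fun i => Term.var (Fin.natAdd l i), hg⟩

theorem main_theorem (B : ∀ n : ℕ, Set ((Fin n → Bool) → Bool)) :
    ((∀ n, ∀ f ∈ B n, Affine f) ∨ (∀ n, ∀ f ∈ B n, PresAnd f) ∨ (∀ n, ∀ f ∈ B n, PresOr f) →
      ∀ (d p : ℕ) (δ : Fin p → Fin d → Fin p) (q0 : Fin p)
        (out : Fin p → Fin d → List (Fin d)) (a : Fin d) (w : ℕ → Fin d),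
        Iterates δ q0 out a w → Circuit B δ q0 out a → LogSpace w) ∧
    (¬ ((∀ n, ∀ f ∈ B n, Affine f) ∨ (∀ n, ∀ f ∈ B n, PresAnd f) ∨
        (∀ n, ∀ f ∈ B n, PresOr f)) →
      List.TFAE [
        ∀ (d p : ℕ) (δ : Fin p → Fin d → Fin p) (q0 : Fin p)
          (out : Fin p → Fin d → List (Fin d)) (a : Fin d) (w : ℕ → Fin d),
          Iterates δ q0 out a w → LogSpace w,
        ∀ (d p : ℕ) (δ : Fin p → Fin d → Fin p) (q0 : Fin p)
          (out : Fin p → Fin d → List (Fin d)) (a : Fin d) (w : ℕ → Fin d),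
          Iterates δ q0 out a w → Circuit B δ q0 out a → LogSpace w,
        ∀ (d p : ℕ) (δ : Fin p → Fin d → Fin p) (q0 : Fin p)
          (out : Fin p → Fin d → List (Fin d)) (a : Fin d) (w : ℕ → Fin d),
          Iterates δ q0 out a w → Cellular B δ q0 out a → LogSpace w]) := by
  refine ⟨fun hB d p δ q0 out a w hI hC => easy_case hB hI hC, fun hB => ?_⟩
  tfae_have 1 → 2 := fun h d p δ q0 out a w hI _ => h d p δ q0 out a w hI
  tfae_have 2 → 3 := fun h d p δ q0 out a w hI hC =>
    h d p δ q0 out a w hI (circuit_of_cellular hC)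
  tfae_have 3 → 1 := fun h d p δ q0 out a w hI => hard_case hB h hI
  tfae_finish

end Pool.Agent.W_5d512e_post
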