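import Pool.Agent.W_5d512e_post.ADefs

/-!
# Task A1: Cartier operators
-/

set_option autoImplicit false

namespace Pool.Agent.W_5d512e_post

open PowerSeries

theorem A1_co_add (f g : BS) (p j : ℕ) : co (f + g) p j = co f p j + co g p j := by
  simp [co]

theorem A1_co_zero (p j : ℕ) : co 0 p j = 0 := by
  simp [co]

/-- Sums over an antidiagonal with vanishing odd terms. -/
theorem A1_anti {M : Type*} [AddCommMonoid M] {r : ℕ} (hr : r < 2) (p : ℕ) (G : ℕ → ℕ → M)
    (hG : ∀ a b, G (2 * a + 1) b = 0) :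
    ∑ x ∈ Finset.HasAntidiagonal.antidiagonal (2 * p + r), G x.1 x.2 =
      ∑ x ∈ Finset.HasAntidiagonal.antidiagonal p, G (2 * x.1) (2 * x.2 + r) := by
  classical
  have hinj : Function.Injective (fun x : ℕ × ℕ => (2 * x.1, 2 * x.2 + r)) := by
    rintro ⟨a, b⟩ ⟨c, d⟩ h
    simp only [Prod.mk.injEq] at h
    ext
    · show a = c
      omega
    · show b = d
      omega
  have h1 : ∑ x ∈ Finset.HasAntidiagonal.antidiagonal p, G (2 * x.1) (2 * x.2 + r) =
      ∑ y ∈ (Finset.HasAntidiagonal.antidiagonal p).map ⟨fun x : ℕ × ℕ => (2 * x.1, 2 * x.2 + r), hinj⟩,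
        G y.1 y.2 := by
    rw [Finset.sum_map]
    rfl
  rw [h1]
  symm
  refine Finset.sum_subset ?_ ?_
  · intro y hy
    rw [Finset.mem_map] at hy
    obtain ⟨x, hx, rfl⟩ := hy
    rw [Finset.HasAntidiagonal.mem_antidiagonal] at hx ⊢
    show 2 * x.1 + (2 * x.2 + r) = 2 * p + r
    omega
  · intro y hy hny
    rw [Finset.HasAntidiagonal.mem_antidiagonal] at hy
    rcases Nat.even_or_odd' y.1 with ⟨c, hc | hc⟩
    · exfalso
      apply hny
      rw [Finset.mem_map]
      refine ⟨(c, p - c), ?_, ?_⟩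
      · rw [Finset.HasAntidiagonal.mem_antidiagonal]
        show c + (p - c) = p
        omega
      · show (2 * c, 2 * (p - c) + r) = y
        ext
        · show 2 * c = y.1
          omega
        · show 2 * (p - c) + r = y.2
          omega
    · rw [hc, hG]

/-- The off-diagonal terms of a square cancel in characteristic two. -/
theorem A1_sq_anti {R : Type*} [CommRing R] (h2 : ∀ x : R, x + x = 0) (F : ℕ → R) (n : ℕ) :
    ∑ x ∈ Finset.HasAntidiagonal.antidiagonal n, F x.1 * F x.2 =
      ∑ x ∈ (Finset.HasAntidiagonal.antidiagonal n).filter (fun x => x.1 = x.2), F x.1 * F x.2 := by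
  classical
  rw [← Finset.sum_filter_add_sum_filter_not (Finset.HasAntidiagonal.antidiagonal n) (fun x => x.1 = x.2)]
  have h : ∑ x ∈ (Finset.HasAntidiagonal.antidiagonal n).filter (fun x => ¬ x.1 = x.2), F x.1 * F x.2 = 0 := by
    refine Finset.sum_involution (fun x _ => (x.2, x.1)) ?_ ?_ ?_ ?_
    · intro x _
      show F x.1 * F x.2 + F x.2 * F x.1 = 0
      rw [mul_comm (F x.2)]
      exact h2 _
    · intro x hx _ h3
      rw [Finset.mem_filter] at hx
      exact hx.2 (congrArg Prod.snd h3)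
    · intro x hx
      rw [Finset.mem_filter, Finset.HasAntidiagonal.mem_antidiagonal] at hx ⊢
      refine ⟨?_, fun h3 => hx.2 h3.symm⟩
      show x.2 + x.1 = n
      omega
    · intro x _
      rfl
  rw [h, add_zero]

theorem A1_sq_even {R : Type*} [CommRing R] (h2 : ∀ x : R, x + x = 0) (F : PowerSeries R) (m : ℕ) :
    coeff (2 * m) (F ^ 2) = (coeff m F) ^ 2 := by
  classical
  rw [pow_two, coeff_mul, A1_sq_anti h2 (fun n => coeff n F)]
  have h : (Finset.HasAntidiagonal.antidiagonal (2 * m)).filter (fun x => x.1 = x.2) = {(m, m)} := by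
    ext ⟨a, b⟩
    simp only [Finset.mem_filter, Finset.HasAntidiagonal.mem_antidiagonal, Finset.mem_singleton, Prod.mk.injEq]
    omega
  rw [h, Finset.sum_singleton, pow_two]

theorem A1_sq_odd {R : Type*} [CommRing R] (h2 : ∀ x : R, x + x = 0) (F : PowerSeries R) (m : ℕ) :
    coeff (2 * m + 1) (F ^ 2) = 0 := by
  classical
  rw [pow_two, coeff_mul, A1_sq_anti h2 (fun n => coeff n F)]
  have h : (Finset.HasAntidiagonal.antidiagonal (2 * m + 1)).filter (fun x => x.1 = x.2) = ∅ := by
    ext ⟨a, b⟩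
    simp only [Finset.mem_filter, Finset.HasAntidiagonal.mem_antidiagonal, Finset.notMem_empty, iff_false]
    omega
  rw [h, Finset.sum_empty]

theorem A1_two (x : ZMod 2) : x + x = 0 := by
  revert x
  decide

theorem A1_two' (x : PowerSeries (ZMod 2)) : x + x = 0 := by
  ext n
  rw [map_add, map_zero]
  exact A1_two _

theorem A1_sq (x : ZMod 2) : x ^ 2 = x := by
  revert x
  decide

theorem A1_coe (f : BS) (a c : ℕ) : co (f ^ 2) (2 * a) (2 * c) = co f a c := by
  unfold co
  rw [A1_sq_even A1_two', A1_sq_even A1_two, A1_sq]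

theorem A1_coo (f : BS) (a c : ℕ) : co (f ^ 2) (2 * a + 1) c = 0 := by
  unfold co
  rw [A1_sq_odd A1_two', map_zero]

theorem A1_coo' (f : BS) (a c : ℕ) : co (f ^ 2) a (2 * c + 1) = 0 := by
  rcases Nat.even_or_odd' a with ⟨b, rfl | rfl⟩
  · unfold co
    rw [A1_sq_even A1_two', A1_sq_odd A1_two]
  · exact A1_coo f b _

theorem A1_co_mul (f g : BS) (p j : ℕ) :
    co (f * g) p j = ∑ x ∈ Finset.HasAntidiagonal.antidiagonal p, ∑ y ∈ Finset.HasAntidiagonal.antidiagonal j,
      co f x.1 y.1 * co g x.2 y.2 := by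
  unfold co
  rw [coeff_mul, map_sum]
  refine Finset.sum_congr rfl fun x _ => ?_
  rw [coeff_mul]

/-- TASK A1. Basic properties of the Cartier operators. `cart_sq_mul`: the coefficient of `f ^ 2` at
`(n, m)` is `0` unless `n = 2 p`, `m = 2 j`, and then it is the coefficient of `f` at `(p, j)`
(characteristic two). -/
theorem cart_add (r s : ℕ) (f g : BS) : cart r s (f + g) = cart r s f + cart r s g := by
  apply co_ext
  intro p j
  rw [co_cart, A1_co_add, A1_co_add, co_cart, co_cart]

theorem cart_sum {ι : Type} (r s : ℕ) (S : Finset ι) (f : ι → BS) :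
    cart r s (∑ i ∈ S, f i) = ∑ i ∈ S, cart r s (f i) := by
  classical
  induction S using Finset.induction_on with
  | empty =>
    rw [Finset.sum_empty, Finset.sum_empty]
    apply co_ext
    intro p j
    rw [co_cart, A1_co_zero, A1_co_zero]
  | insert a S ha ih => rw [Finset.sum_insert ha, Finset.sum_insert ha, cart_add, ih]

theorem cart_sq_mul {r s : ℕ} (hr : r < 2) (hs : s < 2) (f g : BS) :
    cart r s (f ^ 2 * g) = f * cart r s g := by
  apply co_ext
  intro p j
  rw [co_cart, A1_co_mul, A1_co_mul]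
  rw [A1_anti hr p (fun a b => ∑ y ∈ Finset.HasAntidiagonal.antidiagonal (2 * j + s),
    co (f ^ 2) a y.1 * co g b y.2) (fun a b => Finset.sum_eq_zero fun y _ => by
      rw [A1_coo, zero_mul])]
  refine Finset.sum_congr rfl fun x _ => ?_
  rw [A1_anti hs j (fun c d => co (f ^ 2) (2 * x.1) c * co g (2 * x.2 + r) d) (fun c d => by
    rw [A1_coo', zero_mul])]
  refine Finset.sum_congr rfl fun y _ => ?_
  rw [A1_coe, co_cart]

theorem exists_cart_ne {f : BS} (hf : f ≠ 0) : ∃ r s, r < 2 ∧ s < 2 ∧ cart r s f ≠ 0 := by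
  have h1 : ∃ p j, co f p j ≠ 0 := by
    by_contra h
    push Not at h
    exact hf (co_ext fun p j => by rw [h p j, A1_co_zero])
  obtain ⟨p, j, hpj⟩ := h1
  refine ⟨p % 2, j % 2, Nat.mod_lt _ (by norm_num), Nat.mod_lt _ (by norm_num), fun h => hpj ?_⟩
  have h2 := co_cart (p % 2) (j % 2) f (p / 2) (j / 2)
  rw [h, A1_co_zero, Nat.div_add_mod, Nat.div_add_mod] at h2
  exact h2.symm

end Pool.Agent.W_5d512e_post
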