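import Pool.Agent.W_5d512e_post.A1
import Pool.Agent.W_5d512e_post.A2

/-!
# Task A3: Christol, part 1
-/

set_option autoImplicit false

namespace Pool.Agent.W_5d512e_post

open PowerSeries

theorem A3_cart_zero (r s : ℕ) : cart r s (0 : BS) = 0 := by
  apply co_ext
  intro p j
  rw [co_cart]
  simp [co]

/-- uniform degree bounds -/
theorem A3_bound (b : ℕ → BS) (hb : ∀ i, b i ∈ PR) (m : ℕ) : ∃ C, ∀ i ≤ m, Pl C (b i) := by
  induction m with
  | zero =>
    obtain ⟨C, hC⟩ := hb 0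
    exact ⟨C, fun i hi => by rw [Nat.le_zero.1 hi]; exact hC⟩
  | succ m ih =>
    obtain ⟨C, hC⟩ := ih
    obtain ⟨D, hD⟩ := hb (m + 1)
    refine ⟨max C D, fun i hi => ?_⟩
    rcases Nat.le_or_eq_of_le_succ hi with h | h
    · exact (hC i h).mono (le_max_left _ _)
    · rw [h]
      exact hD.mono (le_max_right _ _)

/-- the finite set -/
def A3_Phi (A f : BS) (m C : ℕ) : Set BS :=
  {h | ∃ c : Fin (m + 1) → BS, (∀ i, Pl C (c i)) ∧
    A ^ (2 ^ m) * h = ∑ i : Fin (m + 1), c i * A ^ (2 ^ m - 2 ^ (i : ℕ)) * f ^ (2 ^ (i : ℕ))}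

theorem A3_Phi_finite (A f : BS) (m C : ℕ) (hA : A ≠ 0) : (A3_Phi A f m C).Finite := by
  have h1 : (Set.pi (Set.univ : Set (Fin (m + 1))) (fun _ => {g : BS | Pl C g})).Finite :=
    Set.Finite.pi fun _ => Pl.finite C
  refine (h1.biUnion (t := fun c => {h : BS | A ^ (2 ^ m) * h =
    ∑ i : Fin (m + 1), c i * A ^ (2 ^ m - 2 ^ (i : ℕ)) * f ^ (2 ^ (i : ℕ))}) ?_).subset ?_
  · intro c _
    refine Set.Subsingleton.finite ?_
    intro x hx y hy
    have hA' : A ^ (2 ^ m) ≠ 0 := pow_ne_zero _ hA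
    exact mul_left_cancel₀ hA' (hx.trans hy.symm)
  · rintro h ⟨c, hc, hh⟩
    refine Set.mem_biUnion (x := c) ?_ hh
    intro i _
    exact hc i

theorem A3_closed {A f : BS} {m C : ℕ} {b : ℕ → BS}
    (hb : ∀ i < m + 1, Pl C (b i))
    (hrel : A ^ (2 ^ (m + 1) - 1) * f =
      ∑ i ∈ Finset.range (m + 1), b i * A ^ (2 ^ (m + 1) - 2 ^ (i + 1)) * f ^ (2 ^ (i + 1)))
    {h : BS} (hh : h ∈ A3_Phi A f (m + 1) C) {r s : ℕ} (hr : r < 2) (hs : s < 2) :
    cart r s h ∈ A3_Phi A f (m + 1) C := by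
  obtain ⟨c, hc, hh⟩ := hh
  -- new coefficients
  let e : Fin (m + 1) → BS := fun i => c 0 * b i + c i.succ
  have he : ∀ i, Pl (2 * C + 1) (e i) := by
    intro i
    have h1 : Pl (C + C) (c 0 * b i) := (hc 0).mul (hb i i.2)
    exact (h1.add (hc i.succ)).mono (by
      have : max (C + C) C = C + C := max_eq_left (by omega)
      omega)
  have h1 : A ^ (2 ^ (m + 1)) * h =
      ∑ i : Fin (m + 1), (A ^ (2 ^ m - 2 ^ (i : ℕ)) * f ^ (2 ^ (i : ℕ))) ^ 2 * e i := by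
    rw [hh, Fin.sum_univ_succ]
    have h2 : c 0 * A ^ (2 ^ (m + 1) - 2 ^ ((0 : Fin (m + 2)) : ℕ)) *
        f ^ (2 ^ ((0 : Fin (m + 2)) : ℕ)) =
        ∑ i : Fin (m + 1), c 0 * (b i * A ^ (2 ^ (m + 1) - 2 ^ ((i : ℕ) + 1)) *
          f ^ (2 ^ ((i : ℕ) + 1))) := by
      rw [← Finset.mul_sum]
      have h3 := Finset.sum_range (n := m + 1)
        (fun i => b i * A ^ (2 ^ (m + 1) - 2 ^ (i + 1)) * f ^ (2 ^ (i + 1)))
      rw [← h3, ← hrel]
      simp only [Fin.val_zero, pow_zero, pow_one]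
      ring
    rw [h2, ← Finset.sum_add_distrib]
    refine Finset.sum_congr rfl fun i _ => ?_
    have h4 : 2 ^ (m + 1) - 2 ^ ((i : ℕ) + 1) = 2 * (2 ^ m - 2 ^ (i : ℕ)) := by
      have key : ∀ X Y : ℕ, X * 2 - Y * 2 = 2 * (X - Y) := fun X Y => by omega
      rw [pow_succ 2 m, pow_succ 2 (i : ℕ), key]
    have h5 : (i.succ : ℕ) = (i : ℕ) + 1 := Fin.val_succ i
    rw [h5, h4]
    show c 0 * (b i * A ^ (2 * (2 ^ m - 2 ^ (i : ℕ))) * f ^ (2 ^ ((i : ℕ) + 1))) +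
      c i.succ * A ^ (2 * (2 ^ m - 2 ^ (i : ℕ))) * f ^ (2 ^ ((i : ℕ) + 1)) =
      (A ^ (2 ^ m - 2 ^ (i : ℕ)) * f ^ (2 ^ (i : ℕ))) ^ 2 * (c 0 * b i + c i.succ)
    rw [pow_succ 2 (i : ℕ), pow_mul f (2 ^ (i : ℕ)) 2, mul_comm 2 (2 ^ m - 2 ^ (i : ℕ)), pow_mul A]
    ring
  have h2 : A ^ (2 ^ m) * cart r s h =
      ∑ i : Fin (m + 1), (A ^ (2 ^ m - 2 ^ (i : ℕ)) * f ^ (2 ^ (i : ℕ))) * cart r s (e i) := by
    rw [← cart_sq_mul hr hs, ← pow_mul, ← pow_succ, h1, cart_sum]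
    exact Finset.sum_congr rfl fun i _ => cart_sq_mul hr hs _ _
  refine ⟨Fin.snoc (fun i => cart r s (e i)) 0, ?_, ?_⟩
  · intro i
    refine Fin.lastCases ?_ (fun i => ?_) i
    · rw [Fin.snoc_last]
      intro p j _
      simp [co]
    · rw [Fin.snoc_castSucc]
      exact (he i).cart
  · rw [Fin.sum_univ_castSucc]
    rw [Fin.snoc_last, zero_mul, zero_mul, add_zero, pow_succ 2 m, mul_two, pow_add, mul_assoc, h2,
      Finset.mul_sum]
    refine Finset.sum_congr rfl fun i _ => ?_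
    have h3 : 2 ^ (i : ℕ) ≤ 2 ^ m := Nat.pow_le_pow_right (by norm_num) (by omega)
    have h4 : 2 ^ m + 2 ^ m - 2 ^ ((i.castSucc : Fin (m + 2)) : ℕ) =
        2 ^ m + (2 ^ m - 2 ^ (i : ℕ)) := by
      rw [Fin.val_castSucc]
      exact Nat.add_sub_assoc h3 _
    rw [h4, Fin.snoc_castSucc, Fin.val_castSucc, pow_add]
    ring

/-- TASK A3. Christol's argument. Let `A = a 0`, `b i = a i * A ^ (2 ^ i - 2)` (`i ≥ 1`), and let
`C` be at least the degrees of all `b i` and of `A`. `Φ` = the set of all `h` for which there are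
`c 0, ..., c m` with `Pl C (c i)` and `A ^ (2 ^ m) * h = ∑ i ≤ m, c i * A ^ (2 ^ m - 2 ^ i) *
f ^ (2 ^ i)`. It is finite (`A ≠ 0`, `Pl.finite`), contains `f` (`c 0 = A`). Closed: using the
relation, `A ^ (2 ^ m) * h = ∑ 1 ≤ i ≤ m, (c 0 * b i + c i) * A ^ (2 ^ m - 2 ^ i) * f ^ (2 ^ i)`
(`m ≥ 1` as otherwise `f = 0`, a trivial case), all powers are squares, apply `cart_sq_mul`, and
multiply by `A ^ (2 ^ (m - 1))`: the new `c i` are `cart r s (c 0 * b (i + 1) + c (i + 1))`, of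
degree at most `C` (and the last one is `0`). -/
theorem finKer_of_rel {f : BS} {m : ℕ} {a : ℕ → BS} (ha : ∀ i, ∃ C, Pl C (a i)) (h0 : a 0 ≠ 0)
    (h : a 0 * f = ∑ i ∈ Finset.range m, a (i + 1) * f ^ (2 ^ (i + 1))) : FinKer f := by
  rcases m with _ | m
  · rw [Finset.range_zero, Finset.sum_empty] at h
    have hf : f = 0 := by
      rcases mul_eq_zero.1 h with h | h
      · exact absurd h h0
      · exact h
    refine ⟨{0}, Set.finite_singleton _, by rw [hf]; exact Set.mem_singleton _, ?_⟩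
    intro g hg r _ s _
    rw [Set.mem_singleton_iff] at hg
    rw [hg, A3_cart_zero]
    exact Set.mem_singleton _
  · have haP : ∀ i, a i ∈ PR := ha
    let b : ℕ → BS := fun i => a (i + 1) * a 0 ^ (2 ^ (i + 1) - 2)
    have hbP : ∀ i, b i ∈ PR := fun i => PR.mul_mem (haP _) (PR.pow_mem (haP 0) _)
    obtain ⟨C₁, hC₁⟩ := A3_bound b hbP m
    obtain ⟨C₂, hC₂⟩ := ha 0
    set C := max C₁ C₂ with hC
    have hb : ∀ i < m + 1, Pl C (b i) := fun i hi =>
      (hC₁ i (by omega)).mono (le_max_left _ _)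
    have hA : Pl C (a 0) := hC₂.mono (le_max_right _ _)
    have hrel : a 0 ^ (2 ^ (m + 1) - 1) * f =
        ∑ i ∈ Finset.range (m + 1), b i * a 0 ^ (2 ^ (m + 1) - 2 ^ (i + 1)) *
          f ^ (2 ^ (i + 1)) := by
      have h1 : 2 ^ (m + 1) - 1 = (2 ^ (m + 1) - 2) + 1 := by
        have : 2 ≤ 2 ^ (m + 1) := by
          calc 2 = 2 ^ 1 := by norm_num
            _ ≤ 2 ^ (m + 1) := Nat.pow_le_pow_right (by norm_num) (by omega)
        omega
      rw [h1, pow_succ, mul_assoc, h, Finset.mul_sum]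
      refine Finset.sum_congr rfl fun i hi => ?_
      rw [Finset.mem_range] at hi
      have h2 : 2 ^ (i + 1) ≤ 2 ^ (m + 1) := Nat.pow_le_pow_right (by norm_num) (by omega)
      have h3 : 2 ≤ 2 ^ (i + 1) := by
        calc 2 = 2 ^ 1 := by norm_num
          _ ≤ 2 ^ (i + 1) := Nat.pow_le_pow_right (by norm_num) (by omega)
      have h4 : 2 ^ (m + 1) - 2 = (2 ^ (i + 1) - 2) + (2 ^ (m + 1) - 2 ^ (i + 1)) := by omega
      rw [h4, pow_add]
      show _ = a (i + 1) * a 0 ^ (2 ^ (i + 1) - 2) * _ * _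
      ring
    refine ⟨A3_Phi (a 0) f (m + 1) C, A3_Phi_finite _ _ _ _ h0, ?_, ?_⟩
    · refine ⟨Fin.cons (a 0) (fun _ => 0), ?_, ?_⟩
      · intro i
        refine Fin.cases ?_ (fun i => ?_) i
        · rw [Fin.cons_zero]
          exact hA
        · rw [Fin.cons_succ]
          intro p j _
          simp [co]
      · rw [Fin.sum_univ_succ]
        have h1 : 2 ^ (m + 1) = (2 ^ (m + 1) - 1) + 1 := by
          have : 0 < 2 ^ (m + 1) := by positivity
          omega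
        simp only [Fin.cons_zero, Fin.cons_succ, zero_mul, Finset.sum_const_zero, add_zero,
          Fin.val_zero, pow_zero, pow_one]
        conv_lhs => rw [h1, pow_succ]
        ring
    · intro g hg r hr s hs
      exact A3_closed hb hrel hg hr hs

end Pool.Agent.W_5d512e_post
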