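import Pool.Agent.W_5d512e_post.ADefs

/-!
# Task B1: the matrix equation
-/

set_option autoImplicit false

namespace Pool.Agent.W_5d512e_post

open PowerSeries Matrix

/-- Congruence modulo `X ^ k`, entrywise. -/
private def B1_cong {N : ℕ} (k : ℕ) (A B : Matrix (Fin N) (Fin N) (PowerSeries (ZMod 2))) : Prop :=
  ∀ i j, (PowerSeries.X : PowerSeries (ZMod 2)) ^ k ∣ (A i j - B i j)

/-- The map whose fixed point is wanted. -/
private noncomputable def B1_map {N : ℕ} (G H A : Matrix (Fin N) (Fin N) (PowerSeries (ZMod 2))) :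
    Matrix (Fin N) (Fin N) (PowerSeries (ZMod 2)) :=
  G + (PowerSeries.X : PowerSeries (ZMod 2)) • (H * A * A)

private theorem B1_step {N : ℕ} (G H : Matrix (Fin N) (Fin N) (PowerSeries (ZMod 2))) {k : ℕ}
    {A B : Matrix (Fin N) (Fin N) (PowerSeries (ZMod 2))} (h : B1_cong k A B) :
    B1_cong (k + 1) (B1_map G H A) (B1_map G H B) := by
  intro i j
  have e : H * A * A - H * B * B = H * A * (A - B) + H * (A - B) * B := by
    simp only [Matrix.mul_sub, Matrix.sub_mul]
    abel
  have e2 : B1_map G H A i j - B1_map G H B i j =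
      (PowerSeries.X : PowerSeries (ZMod 2)) * ((H * A * (A - B)) i j + (H * (A - B) * B) i j) := by
    have e3 := congrFun (congrFun e i) j
    simp only [Matrix.sub_apply, Matrix.add_apply] at e3
    simp only [B1_map, Matrix.add_apply, Matrix.smul_apply, smul_eq_mul]
    rw [← e3]
    ring
  rw [e2, pow_succ']
  refine mul_dvd_mul dvd_rfl ?_
  have hAB : ∀ a b, (PowerSeries.X : PowerSeries (ZMod 2)) ^ k ∣ (A - B) a b := fun a b => h a b
  refine dvd_add ?_ ?_
  · rw [Matrix.mul_apply]
    exact Finset.dvd_sum fun l _ => (hAB l j).mul_left _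
  · rw [Matrix.mul_apply]
    refine Finset.dvd_sum fun l _ => Dvd.dvd.mul_right ?_ _
    rw [Matrix.mul_apply]
    exact Finset.dvd_sum fun m _ => (hAB m l).mul_left _

private theorem B1_trans {N : ℕ} {k : ℕ} {A B C : Matrix (Fin N) (Fin N) (PowerSeries (ZMod 2))}
    (h1 : B1_cong k A B) (h2 : B1_cong k B C) : B1_cong k A C := by
  intro i j
  have := dvd_add (h1 i j) (h2 i j)
  rwa [sub_add_sub_cancel] at this

private theorem B1_mono {N : ℕ} {k l : ℕ} (hkl : k ≤ l)
    {A B : Matrix (Fin N) (Fin N) (PowerSeries (ZMod 2))} (h : B1_cong l A B) : B1_cong k A B :=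
  fun i j => (pow_dvd_pow _ hkl).trans (h i j)

private noncomputable def B1_seq {N : ℕ} (G H : Matrix (Fin N) (Fin N) (PowerSeries (ZMod 2))) :
    ℕ → Matrix (Fin N) (Fin N) (PowerSeries (ZMod 2))
  | 0 => 0
  | k + 1 => B1_map G H (B1_seq G H k)

private theorem B1_seq_succ {N : ℕ} (G H : Matrix (Fin N) (Fin N) (PowerSeries (ZMod 2))) (k : ℕ) :
    B1_cong k (B1_seq G H k) (B1_seq G H (k + 1)) := by
  induction k with
  | zero => intro i j; rw [pow_zero]; exact one_dvd _
  | succ k ih => exact B1_step G H ih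

private theorem B1_seq_le {N : ℕ} (G H : Matrix (Fin N) (Fin N) (PowerSeries (ZMod 2))) {k m : ℕ}
    (hkm : k ≤ m) : B1_cong k (B1_seq G H k) (B1_seq G H m) := by
  induction m, hkm using Nat.le_induction with
  | base => intro i j; rw [sub_self]; exact dvd_zero _
  | succ m hm ih => exact B1_trans ih (B1_mono hm (B1_seq_succ G H m))

/-- TASK B1. Existence of the solution: construct the coefficients recursively
(`Θ_0 = G_0`, and the coefficient number `n + 1` of `G + X H Θ²` only uses the coefficients of `Θ`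
up to `n`), or as the limit of `Θ ↦ G + X H Θ²`. -/
theorem exists_theta {N : ℕ} (G H : Matrix (Fin N) (Fin N) (PowerSeries (ZMod 2))) :
    ∃ Θ : Matrix (Fin N) (Fin N) (PowerSeries (ZMod 2)),
      Θ = G + (PowerSeries.X : PowerSeries (ZMod 2)) • (H * Θ * Θ) := by
  set Θ : Matrix (Fin N) (Fin N) (PowerSeries (ZMod 2)) := Matrix.of fun i j =>
    PowerSeries.mk fun n => PowerSeries.coeff n (B1_seq G H (n + 1) i j) with hΘ
  have h1 : ∀ k, B1_cong k Θ (B1_seq G H k) := by
    intro k i j
    rw [PowerSeries.X_pow_dvd_iff]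
    intro n hn
    have h2 := (PowerSeries.X_pow_dvd_iff.1 (B1_seq_le G H (show n + 1 ≤ k from hn) i j)) n
      (Nat.lt_succ_self n)
    rw [map_sub] at h2 ⊢
    rw [hΘ, Matrix.of_apply, PowerSeries.coeff_mk]
    exact h2
  refine ⟨Θ, ?_⟩
  have h3 : Θ = B1_map G H Θ := by
    ext i j n
    have h4 := (PowerSeries.X_pow_dvd_iff.1 (B1_step G H (h1 n) i j)) n (Nat.lt_succ_self n)
    have h5 := (PowerSeries.X_pow_dvd_iff.1 (h1 (n + 1) i j)) n (Nat.lt_succ_self n)
    rw [map_sub, sub_eq_zero] at h4 h5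
    rw [h4, h5]
    rfl
  exact h3

end Pool.Agent.W_5d512e_post
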