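import Pool.Agent.W_5d512e_post.A2

/-!
# Task B3: linear algebra over the algebraic elements
-/

set_option autoImplicit false

namespace Pool.Agent.W_5d512e_post

open PowerSeries Matrix

/-- TASK B3 (all theorems of this file). A matrix that is the identity modulo `(z, t)` has nonzero
determinant: apply the ring homomorphism constant coefficient of the constant coefficient. -/
theorem det_ne_zero {n : Type} [Fintype n] [DecidableEq n] {M : Matrix n n BS}
    (h : ∀ i j, co (M i j) 0 0 = if i = j then 1 else 0) : M.det ≠ 0 := by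
  intro h0
  let f : BS →+* ZMod 2 :=
    (PowerSeries.constantCoeff (R := ZMod 2)).comp
      (PowerSeries.constantCoeff (R := PowerSeries (ZMod 2)))
  have h1 : f.mapMatrix M = 1 := by
    ext i j
    rw [RingHom.mapMatrix_apply, Matrix.map_apply, Matrix.one_apply, ← h i j]
    simp [f, co]
  have h2 : f M.det = 1 := by
    rw [RingHom.map_det, h1, Matrix.det_one]
  rw [h0, map_zero] at h2
  exact zero_ne_one h2

/-- Algebraic elements form a ring, closed under exact division. -/
theorem alg_mem {f : BS} (hf : f ∈ PR) : IsAlgebraic PR f :=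
  isAlgebraic_algebraMap (⟨f, hf⟩ : PR)

theorem alg_add {f g : BS} (hf : IsAlgebraic PR f) (hg : IsAlgebraic PR g) :
    IsAlgebraic PR (f + g) :=
  hf.add hg

theorem alg_mul {f g : BS} (hf : IsAlgebraic PR f) (hg : IsAlgebraic PR g) :
    IsAlgebraic PR (f * g) :=
  hf.mul hg

theorem alg_of_mul_eq {f g h : BS} (hg : IsAlgebraic PR g) (hg0 : g ≠ 0) (hh : IsAlgebraic PR h)
    (e : g * f = h) : IsAlgebraic PR f :=
  IsAlgebraic.of_mul (mem_nonZeroDivisors_of_ne_zero hg0) hg (by rw [e]; exact hh)

/-- Cramer's rule: `adjugate M *ᵥ (M *ᵥ w) = det M • w`. -/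
theorem alg_of_mulVec {N : ℕ} {M : Matrix (Fin N) (Fin N) BS} {w c : Fin N → BS}
    (hM : ∀ i j, IsAlgebraic PR (M i j)) (h0 : M.det ≠ 0) (hc : ∀ i, IsAlgebraic PR (c i))
    (h : M *ᵥ w = c) (i : Fin N) : IsAlgebraic PR (w i) := by
  let K : Subalgebra PR BS := Subalgebra.algebraicClosure PR BS
  let M' : Matrix (Fin N) (Fin N) K := fun i j => ⟨M i j, hM i j⟩
  let φ : K →+* BS := K.val.toRingHom
  have h1 : φ.mapMatrix M' = M := by
    ext i j : 2
    rfl
  have h2 : IsAlgebraic PR M.det := by
    rw [← h1, ← RingHom.map_det]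
    exact (M'.det).2
  have h3 : ∀ i j, IsAlgebraic PR (M.adjugate i j) := by
    intro i j
    rw [← h1, ← RingHom.map_adjugate]
    exact (M'.adjugate i j).2
  have h4 : M.det * w i = ∑ j, M.adjugate i j * c j := by
    have h5 : M.adjugate *ᵥ (M *ᵥ w) = M.det • w := by
      rw [Matrix.mulVec_mulVec, Matrix.adjugate_mul, Matrix.smul_mulVec, Matrix.one_mulVec]
    rw [h] at h5
    have h6 := congrFun h5 i
    rw [Pi.smul_apply, smul_eq_mul] at h6
    rw [← h6]
    rfl
  have h7 : (∑ j, M.adjugate i j * c j) ∈ K :=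
    K.sum_mem fun j _ => K.mul_mem (h3 i j) (hc j)
  exact alg_of_mul_eq h2 h0 h7 h4

end Pool.Agent.W_5d512e_post
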