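import Pool.Agent.W_5d512e_post.B3

/-!
# Task B5: algebraicity of the solution of the matrix equation
-/

set_option autoImplicit false

namespace Pool.Agent.W_5d512e_post

open PowerSeries Matrix

/-- A linear system with nonzero determinant over a field, with values in a vector space. -/
private theorem B5_cramer {n E V : Type} [Fintype n] [DecidableEq n] [Field E] [AddCommGroup V]
    [Module E V] (M : Matrix n n E) (hM : M.det ≠ 0) (w : n → V)
    (h : ∀ i, ∑ j, M i j • w j = 0) (k : n) : w k = 0 := by
  have h1 : M.det • w k = 0 := by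
    calc M.det • w k = ∑ j, (M.adjugate * M) k j • w j := by
          rw [Matrix.adjugate_mul]
          simp [Matrix.smul_apply, Matrix.one_apply, ite_smul]
      _ = ∑ j, ∑ i, (M.adjugate k i * M i j) • w j := by
          refine Finset.sum_congr rfl fun j _ => ?_
          rw [Matrix.mul_apply, Finset.sum_smul]
      _ = ∑ i, M.adjugate k i • ∑ j, M i j • w j := by
          rw [Finset.sum_comm]
          refine Finset.sum_congr rfl fun i _ => ?_
          rw [Finset.smul_sum]
          refine Finset.sum_congr rfl fun j _ => ?_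
          rw [mul_smul]
      _ = 0 := by simp [h]
  exact (smul_eq_zero.1 h1).resolve_left hM

/-- The matrix of the linearised equation. -/
private def B5_mat {R : Type} [CommRing R] {N : ℕ} (H Θ : Matrix (Fin N) (Fin N) R) (t : R) :
    Matrix (Fin N × Fin N) (Fin N × Fin N) R :=
  fun x y => (if x = y then 1 else 0) -
    t * (H x.1 y.1 * Θ y.2 x.2 + if y.2 = x.2 then (H * Θ) x.1 y.1 else 0)

private theorem B5_deriv {K E V : Type} [Field K] [Field E] [Algebra K E] [AddCommGroup V]
    [Module K V] [Module E V] [IsScalarTower K E V]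
    (D : Derivation K E V) {N : ℕ} {G H Θ : Matrix (Fin N) (Fin N) E} {t : E}
    (hG : ∀ i j, D (G i j) = 0) (hH : ∀ i j, D (H i j) = 0) (ht : D t = 0)
    (h : Θ = G + t • (H * Θ * Θ)) (hdet : (B5_mat H Θ t).det ≠ 0) (i j : Fin N) :
    D (Θ i j) = 0 := by
  refine B5_cramer (B5_mat H Θ t) hdet (fun x => D (Θ x.1 x.2)) ?_ (i, j)
  rintro ⟨i, j⟩
  have e0 : Θ i j = G i j + t * ∑ l, (∑ k, H i k * Θ k l) * Θ l j := by
    have := congrFun (congrFun h i) j
    simpa [Matrix.mul_apply] using this
  have e1 : D (Θ i j) = t • ∑ l, ((∑ k, H i k • (Θ l j • D (Θ k l))) +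
      (∑ k, H i k * Θ k l) • D (Θ l j)) := by
    conv_lhs => rw [e0]
    rw [map_add, hG, zero_add, Derivation.leibniz, ht, smul_zero, add_zero, map_sum]
    congr 1
    refine Finset.sum_congr rfl fun l _ => ?_
    rw [Derivation.leibniz, map_sum, add_comm, Finset.smul_sum]
    congr 1
    refine Finset.sum_congr rfl fun k _ => ?_
    rw [Derivation.leibniz, hH, smul_zero, add_zero, smul_comm]
  have e2 : ∑ x : Fin N × Fin N, B5_mat H Θ t (i, j) x • D (Θ x.1 x.2) =
      D (Θ i j) - t • ∑ l, ((∑ k, H i k • (Θ l j • D (Θ k l))) +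
        (∑ k, H i k * Θ k l) • D (Θ l j)) := by
    have e3 : ∀ x : Fin N × Fin N, B5_mat H Θ t (i, j) x • D (Θ x.1 x.2) =
        (if (i, j) = x then D (Θ x.1 x.2) else 0) - (t • (H i x.1 • (Θ x.2 j • D (Θ x.1 x.2))) +
          if x.2 = j then t • ((H * Θ) i x.1 • D (Θ x.1 x.2)) else 0) := by
      intro x
      simp only [B5_mat]
      rw [sub_smul, mul_smul, add_smul, mul_smul, smul_add]
      congr 1
      · split_ifs <;> simp
      · congr 1
        split_ifs <;> simp
    rw [Finset.sum_congr rfl (fun x _ => e3 x), Finset.sum_sub_distrib, Finset.sum_add_distrib]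
    rw [Finset.sum_ite_eq, if_pos (Finset.mem_univ _)]
    congr 1
    rw [Finset.sum_add_distrib, smul_add]
    congr 1
    · rw [Fintype.sum_prod_type_right, Finset.smul_sum]
      refine Finset.sum_congr rfl fun l _ => ?_
      rw [Finset.smul_sum]
    · rw [Fintype.sum_prod_type, Finset.smul_sum]
      refine Finset.sum_congr rfl fun l _ => ?_
      simp only
      rw [Finset.sum_ite_eq', if_pos (Finset.mem_univ _), Matrix.mul_apply]
  rw [e2, ← e1, sub_self]

private theorem B5_field {K L : Type} [Field K] [Field L] [Algebra K L] {N : ℕ}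
    {G H : Matrix (Fin N) (Fin N) K} {t : K} {Θ : Matrix (Fin N) (Fin N) L}
    (h : Θ = G.map (algebraMap K L) + algebraMap K L t • (H.map (algebraMap K L) * Θ * Θ))
    (hdet : (B5_mat (H.map (algebraMap K L)) Θ (algebraMap K L t)).det ≠ 0) (i j : Fin N) :
    IsAlgebraic K (Θ i j) := by
  let S : Set L := Set.range (fun x : Fin N × Fin N => Θ x.1 x.2)
  let E : IntermediateField K L := IntermediateField.adjoin K S
  have hE : ∀ i j, Θ i j ∈ E := fun i j => IntermediateField.subset_adjoin K S ⟨(i, j), rfl⟩
  have : Algebra.EssFiniteType K E :=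
    IntermediateField.essFiniteType_iff.2 (IntermediateField.fg_adjoin_of_finite (Set.finite_range _))
  let Θ' : Matrix (Fin N) (Fin N) E := fun i j => ⟨Θ i j, hE i j⟩
  have hΘ' : Θ'.map (algebraMap E L) = Θ := rfl
  have h' : Θ' = G.map (algebraMap K E) + algebraMap K E t • (H.map (algebraMap K E) * Θ' * Θ') := by
    have inj : Function.Injective (fun A : Matrix (Fin N) (Fin N) E => A.map (algebraMap E L)) :=
      Matrix.map_injective (algebraMap E L).injective
    apply inj
    show Θ'.map (algebraMap E L) = (G.map (algebraMap K E) +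
      algebraMap K E t • (H.map (algebraMap K E) * Θ' * Θ')).map (algebraMap E L)
    rw [Matrix.map_add _ (map_add _), Matrix.map_smul' _ _ _ (map_mul _), Matrix.map_mul,
      Matrix.map_mul, hΘ']
    exact h
  have hdet' : (B5_mat (H.map (algebraMap K E)) Θ' (algebraMap K E t)).det ≠ 0 := by
    intro h0
    apply hdet
    have e : B5_mat (H.map (algebraMap K L)) Θ (algebraMap K L t) =
        (B5_mat (H.map (algebraMap K E)) Θ' (algebraMap K E t)).map (algebraMap E L) := by
      ext x y
      simp only [B5_mat, Matrix.map_apply, Matrix.mul_apply, map_sub, map_mul, map_add, map_sum,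
        apply_ite (algebraMap E L), map_one, map_zero]
      rfl
    rw [e, ← RingHom.mapMatrix_apply, ← RingHom.map_det, h0, map_zero]
  have hD : ∀ i j, KaehlerDifferential.D K E (Θ' i j) = 0 := by
    refine B5_deriv (KaehlerDifferential.D K E) (fun i j => ?_) (fun i j => ?_) ?_ h' hdet'
    · exact Derivation.map_algebraMap _ _
    · exact Derivation.map_algebraMap _ _
    · exact Derivation.map_algebraMap _ _
  have hall : ∀ x : L, ∀ hx : x ∈ E, KaehlerDifferential.D K E ⟨x, hx⟩ = 0 := by
    intro x hx
    induction hx using IntermediateField.adjoin_induction with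
    | mem x hx =>
      obtain ⟨⟨i, j⟩, rfl⟩ := hx
      exact hD i j
    | algebraMap x => exact Derivation.map_algebraMap (KaehlerDifferential.D K E) x
    | add x y hx hy ihx ihy =>
      have e : (⟨x + y, E.add_mem hx hy⟩ : E) = ⟨x, hx⟩ + ⟨y, hy⟩ := rfl
      exact (congrArg _ e).trans (by rw [map_add, ihx, ihy, add_zero])
    | inv x hx ihx =>
      have e : (⟨x⁻¹, E.inv_mem hx⟩ : E) = (⟨x, hx⟩)⁻¹ := rfl
      exact (congrArg _ e).trans (by rw [Derivation.leibniz_inv, ihx, smul_zero])
    | mul x y hx hy ihx ihy =>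
      have e : (⟨x * y, E.mul_mem hx hy⟩ : E) = ⟨x, hx⟩ * ⟨y, hy⟩ := rfl
      exact (congrArg _ e).trans (by rw [Derivation.leibniz, ihx, ihy, smul_zero, smul_zero, add_zero])
  have : Algebra.FormallyUnramified K E := by
    constructor
    rw [← Submodule.subsingleton_iff E, ← subsingleton_iff_bot_eq_top, eq_comm,
      ← KaehlerDifferential.span_range_derivation, Submodule.span_eq_bot]
    rintro _ ⟨⟨x, hx⟩, rfl⟩
    exact hall x hx
  have : Algebra.IsSeparable K E := (Algebra.FormallyUnramified.iff_isSeparable K E).1 inferInstance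
  have hs : IsAlgebraic K (Θ' i j) := Algebra.IsAlgebraic.isAlgebraic _
  exact (isAlgebraic_algebraMap_iff (algebraMap E L).injective).2 hs

private theorem B5_co_mat {N : ℕ} (H Θ : Matrix (Fin N) (Fin N) BS) (x y : Fin N × Fin N) :
    co (B5_mat H Θ tt x y) 0 0 = if x = y then 1 else 0 := by
  simp only [B5_mat, co, tt]
  rw [map_sub, map_sub]
  have e : (coeff 0) ((coeff 0) (PowerSeries.C (PowerSeries.X : PowerSeries (ZMod 2)) *
      (H x.1 y.1 * Θ y.2 x.2 + if y.2 = x.2 then (H * Θ) x.1 y.1 else 0))) = (0 : ZMod 2) := by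
    rw [PowerSeries.coeff_C_mul, PowerSeries.coeff_zero_X_mul]
  rw [e, sub_zero]
  split_ifs <;> simp

/-- TASK B5. `K` = fraction field of `PR`, `L` = fraction field of `BS`, `E = K(θ_ij) ≤ L`
(finitely generated, so `Algebra.EssFiniteType K E`). Every `K`-derivation `d` of `E` with values
in `E` satisfies `dΘ = t (H dΘ Θ + H Θ dΘ)` (`K` contains `t` and the entries of `G`, `H`), a
linear system with matrix `1 - t Ψ` indexed by `Fin N × Fin N`, which is invertible over `L` by
`det_ne_zero`, so `dΘ = 0` and `d = 0` (the elements killed by `d` form a field). Hence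
`Ω[E⁄K] = 0`, `E` is formally unramified over `K`, so separable algebraic
(`Algebra.FormallyUnramified.iff_isSeparable` or `Algebra.FormallyUnramified.isSeparable`). -/
theorem theta_alg {N : ℕ} {G H Θ : Matrix (Fin N) (Fin N) BS} (hG : ∀ i j, G i j ∈ PR)
    (hH : ∀ i j, H i j ∈ PR) (h : Θ = G + tt • (H * Θ * Θ)) (i j : Fin N) :
    IsAlgebraic PR (Θ i j) := by
  classical
  have htP : tt ∈ PR := tt_mem
  let K := FractionRing PR
  let L := FractionRing BS
  have hinj : Function.Injective (algebraMap PR L) := by
    rw [IsScalarTower.algebraMap_eq PR BS L]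
    exact (IsFractionRing.injective BS L).comp Subtype.val_injective
  haveI : FaithfulSMul PR L := (faithfulSMul_iff_algebraMap_injective PR L).2 hinj
  letI : Algebra K L := FractionRing.liftAlgebra PR L
  haveI : IsScalarTower PR K L := FractionRing.isScalarTower_liftAlgebra PR L
  let G' : Matrix (Fin N) (Fin N) K := fun i j => algebraMap PR K ⟨G i j, hG i j⟩
  let H' : Matrix (Fin N) (Fin N) K := fun i j => algebraMap PR K ⟨H i j, hH i j⟩
  let t' : K := algebraMap PR K ⟨tt, htP⟩
  have eG : G'.map (algebraMap K L) = G.map (algebraMap BS L) := by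
    ext i j
    show algebraMap K L (algebraMap PR K ⟨G i j, hG i j⟩) = algebraMap BS L (G i j)
    rw [← IsScalarTower.algebraMap_apply PR K L, IsScalarTower.algebraMap_apply PR BS L]
    rfl
  have eH : H'.map (algebraMap K L) = H.map (algebraMap BS L) := by
    ext i j
    show algebraMap K L (algebraMap PR K ⟨H i j, hH i j⟩) = algebraMap BS L (H i j)
    rw [← IsScalarTower.algebraMap_apply PR K L, IsScalarTower.algebraMap_apply PR BS L]
    rfl
  have et : algebraMap K L t' = algebraMap BS L tt := by
    show algebraMap K L (algebraMap PR K ⟨tt, htP⟩) = algebraMap BS L tt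
    rw [← IsScalarTower.algebraMap_apply PR K L, IsScalarTower.algebraMap_apply PR BS L]
    rfl
  have h1 : Θ.map (algebraMap BS L) = G'.map (algebraMap K L) +
      algebraMap K L t' • (H'.map (algebraMap K L) * Θ.map (algebraMap BS L) *
        Θ.map (algebraMap BS L)) := by
    rw [eG, eH, et]
    conv_lhs => rw [h]
    rw [Matrix.map_add _ (map_add _), Matrix.map_smul' _ _ _ (map_mul _), Matrix.map_mul,
      Matrix.map_mul]
  have h2 : (B5_mat (H'.map (algebraMap K L)) (Θ.map (algebraMap BS L))
      (algebraMap K L t')).det ≠ 0 := by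
    rw [eH, et]
    have e : B5_mat (H.map (algebraMap BS L)) (Θ.map (algebraMap BS L)) (algebraMap BS L tt) =
        (B5_mat H Θ tt).map (algebraMap BS L) := by
      ext x y
      simp only [B5_mat, Matrix.map_apply, Matrix.mul_apply, map_sub, map_mul, map_add, map_sum,
        apply_ite (algebraMap BS L), map_one, map_zero]
    rw [e, ← RingHom.mapMatrix_apply, ← RingHom.map_det]
    intro h0
    have h3 := (map_eq_zero_iff _ (IsFractionRing.injective BS L)).1 h0
    exact det_ne_zero (fun x y => B5_co_mat H Θ x y) h3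
  have h4 : IsAlgebraic K (algebraMap BS L (Θ i j)) := B5_field h1 h2 i j
  have h5 : IsAlgebraic PR (algebraMap BS L (Θ i j)) :=
    (IsFractionRing.isAlgebraic_iff PR K L).2 h4
  exact (isAlgebraic_algebraMap_iff (IsFractionRing.injective BS L)).1 h5

end Pool.Agent.W_5d512e_post
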