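import Pool.Agent.W_MP_5d512e_h33.Defs

/-!
# Sequential circuits over a set of Boolean functions: definitions
-/

set_option autoImplicit false

namespace Pool.Agent.W_5d512e_post

/-- The functions of `m` Boolean variables that are composed from the variables and the functions
of the set `B`. -/
inductive Term (B : ∀ n : ℕ, Set ((Fin n → Bool) → Bool)) (m : ℕ) :
    ((Fin m → Bool) → Bool) → Prop
  | var (i : Fin m) : Term B m (fun x => x i)
  | app (n : ℕ) (f : (Fin n → Bool) → Bool) (hf : f ∈ B n)
      (g : Fin n → (Fin m → Bool) → Bool) (hg : ∀ i, Term B m (g i)) :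
      Term B m (fun x => f (fun i => g i x))

/-- Affine over the field with two elements. -/
def Affine {n : ℕ} (f : (Fin n → Bool) → Bool) : Prop :=
  ∀ x y z : Fin n → Bool,
    f (fun i => xor (x i) (xor (y i) (z i))) = xor (f x) (xor (f y) (f z))

/-- A conjunction of variables or a constant. -/
def PresAnd {n : ℕ} (f : (Fin n → Bool) → Bool) : Prop :=
  ∀ x y : Fin n → Bool, f (fun i => x i && y i) = (f x && f y)

/-- A disjunction of variables or a constant. -/
def PresOr {n : ℕ} (f : (Fin n → Bool) → Bool) : Prop :=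
  ∀ x y : Fin n → Bool, f (fun i => x i || y i) = (f x || f y)

/-- The dgsm (next state function `δ`, initial state `q0`, output function `out`) is the
sequential machine of the Boolean map `(f, g)`: there is a letter `L x` for each bit vector `x`
of length `l` and two more letters `a`, `m`; there is a state `S s` for each bit vector `s` of
length `k`. Reading `L x` in the state `S s` the machine writes the one letter `L (g (s, x))` and
goes to the state `S (f (s, x))`; reading `m` it writes `L y`, `m` and goes back to the initial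
state `S c`; reading `a` it writes `a`, `m` and goes to the initial state. -/
structure Machine {k l d p : ℕ} (f : (Fin (k + l) → Bool) → Fin k → Bool)
    (g : (Fin (k + l) → Bool) → Fin l → Bool) (c : Fin k → Bool) (y : Fin l → Bool)
    (S : (Fin k → Bool) → Fin p) (L : (Fin l → Bool) → Fin d) (a m : Fin d)
    (δ : Fin p → Fin d → Fin p) (q0 : Fin p) (out : Fin p → Fin d → List (Fin d)) : Prop where
  injS : Function.Injective S
  injL : Function.Injective L
  ne : a ≠ m ∧ ∀ x, L x ≠ a ∧ L x ≠ m
  start : q0 = S c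
  seed : ∀ s, δ s a = q0 ∧ out s a = [a, m]
  mark : ∀ s, δ s m = q0 ∧ out s m = [L y, m]
  read : ∀ s x, δ (S s) (L x) = S (f (Fin.append s x)) ∧
    out (S s) (L x) = [L (g (Fin.append s x))]

/-- A sequential machine whose next state and output bits are composed from functions of `B`. -/
def Circuit (B : ∀ n : ℕ, Set ((Fin n → Bool) → Bool)) {d p : ℕ} (δ : Fin p → Fin d → Fin p)
    (q0 : Fin p) (out : Fin p → Fin d → List (Fin d)) (a : Fin d) : Prop :=
  ∃ (k l : ℕ) (f : (Fin (k + l) → Bool) → Fin k → Bool)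
    (g : (Fin (k + l) → Bool) → Fin l → Bool) (c : Fin k → Bool) (y : Fin l → Bool)
    (S : (Fin k → Bool) → Fin p) (L : (Fin l → Bool) → Fin d) (m : Fin d),
    Machine f g c y S L a m δ q0 out ∧ (∀ i, Term B (k + l) (fun z => f z i)) ∧
      (∀ i, Term B (k + l) (fun z => g z i))

/-- The case of `Circuit` where the state is always the last letter read: a one-way cellular
automaton. -/
def Cellular (B : ∀ n : ℕ, Set ((Fin n → Bool) → Bool)) {d p : ℕ} (δ : Fin p → Fin d → Fin p)
    (q0 : Fin p) (out : Fin p → Fin d → List (Fin d)) (a : Fin d) : Prop :=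
  ∃ (l : ℕ) (g : (Fin (l + l) → Bool) → Fin l → Bool) (c y : Fin l → Bool)
    (S : (Fin l → Bool) → Fin p) (L : (Fin l → Bool) → Fin d) (m : Fin d),
    Machine (fun z i => z (Fin.natAdd l i)) g c y S L a m δ q0 out ∧
      (∀ i, Term B (l + l) (fun z => g z i))

/-! ### Auxiliary notions (not used in the statement) -/

/-- All functions of `B` are of one of the three simple kinds. -/
def Easy (B : ∀ n : ℕ, Set ((Fin n → Bool) → Bool)) : Prop :=
  (∀ n, ∀ f ∈ B n, Affine f) ∨ (∀ n, ∀ f ∈ B n, PresAnd f) ∨ (∀ n, ∀ f ∈ B n, PresOr f)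

/-- The rows of the word: `x p j` is the letter number `j` (from the left, starting at `0`) of
the row of length `p + j + 1`, and `s p j` the state before it is read. -/
structure Run {k l : ℕ} (f : (Fin (k + l) → Bool) → Fin k → Bool)
    (g : (Fin (k + l) → Bool) → Fin l → Bool) (c : Fin k → Bool) (y : Fin l → Bool)
    (s : ℕ → ℕ → Fin k → Bool) (x : ℕ → ℕ → Fin l → Bool) : Prop where
  x0 : ∀ j, x 0 j = y
  x1 : ∀ p j, x (p + 1) j = g (Fin.append (s p j) (x p j))
  s0 : ∀ p, s p 0 = c
  s1 : ∀ p j, s p (j + 1) = f (Fin.append (s (p + 1) j) (x (p + 1) j))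

/-- The same for a one-way cellular automaton over any alphabet. -/
structure Pas {Γ : Type} (g : Γ → Γ → Γ) (c y : Γ) (x : ℕ → ℕ → Γ) : Prop where
  x0 : ∀ j, x 0 j = y
  x1 : ∀ p, x (p + 1) 0 = g c (x p 0)
  x2 : ∀ p j, x (p + 1) (j + 1) = g (x (p + 1) j) (x p (j + 1))

/-- Arrays of bit vectors with two kinds of coordinates. -/
structure IsArr {N : ℕ} (ty : Fin N → Prop) (F : Fin N → (Fin N → Bool) → Bool)
    (b : Fin N → Bool) (v : ℕ → ℕ → Fin N → Bool) : Prop where
  x0 : ∀ k, ty k → ∀ j, v 0 j k = b k
  x1 : ∀ k, ty k → ∀ p j, v (p + 1) j k = F k (v p j)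
  s0 : ∀ k, ¬ ty k → ∀ p, v p 0 k = b k
  s1 : ∀ k, ¬ ty k → ∀ p j, v p (j + 1) k = F k (v (p + 1) j)

end Pool.Agent.W_5d512e_post
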