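import Pool.Agent.W_5d512e_post.Ls

/-!
# Task L1
-/

set_option autoImplicit false

namespace Pool.Agent.W_5d512e_post

open Pool.Agent.W_MP_5d512e_h33 Pool.Agent.W_5d512e_h57

/-- TASK L1. `gs_of_E2` (Gen.lean) with `s n = Nat.log 2 n + 1`, `F x = w (ku x).1 + 1`, `z = 0`. -/
theorem logSpace_of_ls {d : ℕ} {w : ℕ → Fin d} (h : LS (fun n => (w n : ℕ))) : LogSpace w := by
  have h0 : E2 (fun n => (w n : ℕ)) := h
  have h1 : E2 (fun x => (w (ku x).1 : ℕ) + 1) :=
    E2.comp (fun x => x + 1) (fun x => (w (ku x).1 : ℕ)) E2.succ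
      (E2.comp (fun n => (w n : ℕ)) (fun x => (ku x).1) h0 E2.fst)
  have h2 : GSpace (fun n => Nat.log 2 n + 1) w := by
    refine gs_of_E2 w (fun x => (w (ku x).1 : ℕ) + 1) h1 (fun n => Nat.log 2 n + 1) ?_
      (fun n => le_rfl) 0 ?_ ?_
    · intro a b hab
      exact Nat.add_le_add_right (Nat.log_mono_right hab) 1
    · intro n z _
      simp only [ku_kp]
    · intro n
      exact ⟨0, Nat.zero_le _, Nat.succ_ne_zero _⟩
  exact h2

end Pool.Agent.W_5d512e_post
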