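import Pool.Agent.W_5d512e_post.Ls

/-!
# Task L2
-/

set_option autoImplicit false

namespace Pool.Agent.W_5d512e_post

open Pool.Agent.W_MP_5d512e_h33 Pool.Agent.W_5d512e_h57

private lemma L2_le (q : ℕ → ℕ) (N : ℕ) :
    lp (fun j (acc : ℕ) => if q j = 0 then acc else 1) 0 N ≤ 1 := by
  induction N with
  | zero => exact Nat.zero_le _
  | succ N ih =>
    change (if q N = 0 then _ else 1) ≤ 1
    split_ifs
    · exact ih
    · exact le_rfl

private lemma L2_iff (q : ℕ → ℕ) (N : ℕ) :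
    lp (fun j (acc : ℕ) => if q j = 0 then acc else 1) 0 N ≠ 0 ↔ ∃ c, c < N ∧ q c ≠ 0 := by
  induction N with
  | zero =>
    constructor
    · intro h
      exact absurd rfl h
    · rintro ⟨c, hc, _⟩
      exact absurd hc (Nat.not_lt_zero c)
  | succ N ih =>
    change (if q N = 0 then _ else 1) ≠ 0 ↔ _
    by_cases h : q N = 0
    · rw [if_pos h, ih]
      constructor
      · rintro ⟨c, hc, hq⟩
        exact ⟨c, by omega, hq⟩
      · rintro ⟨c, hc, hq⟩
        refine ⟨c, ?_, hq⟩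
        have : c ≠ N := by
          rintro rfl
          exact hq h
        omega
    · rw [if_neg h]
      exact ⟨fun _ => ⟨N, by omega, h⟩, fun _ => one_ne_zero⟩

/-- TASK L2. Bounded search, by `ls_lp` (a loop which keeps a flag `0` or `1`). -/
theorem LSp.exists_le {α : Type} [Cd α] {Q : α → ℕ → Prop} {n : α → ℕ}
    (hQ : LSp (fun x : α × ℕ => Q x.1 x.2)) (hn : LS n) : LSp (fun a => ∃ c, c ≤ n a ∧ Q a c) := by
  obtain ⟨q, hq, hqQ⟩ := hQ
  have hq' : LS (fun x : α × ℕ × ℕ => q (x.1, x.2.1)) :=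
    LS.comp (f := q) (g := fun x : α × ℕ × ℕ => (x.1, x.2.1)) hq (by fun_prop)
  refine ⟨fun a => lp (fun j (acc : ℕ) => if q (a, j) = 0 then acc else 1) 0 (n a + 1), ?_, ?_⟩
  · exact ls_lp (f := fun _ => 0) (n := fun a => n a + 1)
      (g := fun a j acc => if q (a, j) = 0 then acc else 1) (by fun_prop) (by fun_prop)
      (by fun_prop)
      (Bq.of_le (f := fun _ => 1) (by fun_prop) fun a i _ => L2_le (fun j => q (a, j)) i)
  · intro a
    rw [L2_iff (fun j => q (a, j))]
    constructor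
    · rintro ⟨c, hc, h⟩
      exact ⟨c, by omega, (hqQ (a, c)).1 h⟩
    · rintro ⟨c, hc, h⟩
      exact ⟨c, by omega, (hqQ (a, c)).2 h⟩

end Pool.Agent.W_5d512e_post
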