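import Pool.Agent.W_5d512e_post.Ls

/-!
# Task L3
-/

set_option autoImplicit false

namespace Pool.Agent.W_5d512e_post

open Pool.Agent.W_MP_5d512e_h33 Pool.Agent.W_5d512e_h57

/-- TASK L3. Finite disjunctions and conjunctions. -/
theorem LSp.exists_fin {α ι : Type} [Cd α] [Finite ι] {Q : ι → α → Prop}
    (h : ∀ i, LSp (Q i)) : LSp (fun a => ∃ i, Q i a) := by
  classical
  haveI : Fintype ι := Fintype.ofFinite ι
  have key : ∀ s : Finset ι, LSp (fun a => ∃ i ∈ s, Q i a) := by
    intro s
    induction s using Finset.induction_on with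
    | empty =>
      refine ⟨fun _ => 0, LS.const 0, fun a => ?_⟩
      simp
    | insert j s hj ih =>
      refine LSp.of_iff (LSp.or (h j) ih) fun a => ?_
      simp
  exact LSp.of_iff (key Finset.univ) fun a => by simp

theorem LSp.forall_fin {α ι : Type} [Cd α] [Finite ι] {Q : ι → α → Prop}
    (h : ∀ i, LSp (Q i)) : LSp (fun a => ∀ i, Q i a) := by
  have h1 := LSp.not (LSp.exists_fin (fun i => LSp.not (h i)))
  exact LSp.of_iff h1 fun a => by simp

end Pool.Agent.W_5d512e_post
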