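import Pool.Agent.W_5d512e_post.L1
import Pool.Agent.W_5d512e_post.L3

/-!
# Task L4
-/

set_option autoImplicit false

namespace Pool.Agent.W_5d512e_post

open Pool.Agent.W_MP_5d512e_h33 Pool.Agent.W_5d512e_h57

private lemma L4_comp {α β : Type} [Cd α] [Cd β] {P : β → Prop} {g : α → β} (hP : LSp P)
    (hg : LS g) : LSp (fun a => P (g a)) := by
  obtain ⟨f, hf, h2⟩ := hP
  exact ⟨fun a => f (g a), LS.comp hf hg, fun a => h2 (g a)⟩

private lemma L4_eq {α : Type} [Cd α] {l : ℕ} (X : α → Fin l → Bool)
    (h : ∀ i, LSp (fun a => X a i = true)) (u : Fin l → Bool) : LSp (fun a => X a = u) := by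
  have h1 : LSp (fun a => ∀ i, X a i = u i) := by
    apply LSp.forall_fin
    intro i
    cases hu : u i with
    | true => exact h i
    | false =>
      refine LSp.of_iff (LSp.not (h i)) fun a => ?_
      cases X a i <;> simp
  exact LSp.of_iff h1 fun a => funext_iff

private lemma L4_sum {α : Type} [Cd α] {l : ℕ} (X : α → Fin l → Bool)
    (h : ∀ i, LSp (fun a => X a i = true)) (F : (Fin l → Bool) → ℕ) :
    LS (fun a => F (X a)) := by
  classical
  have key : ∀ s : Finset (Fin l → Bool), LS (fun a => if X a ∈ s then F (X a) else 0) := by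
    intro s
    induction s using Finset.induction_on with
    | empty =>
      have e : (fun a => if X a ∈ (∅ : Finset (Fin l → Bool)) then F (X a) else 0) =
          fun _ => 0 := by
        funext a
        simp
      rw [e]
      exact LS.const 0
    | insert u s hu ih =>
      have e : (fun a => if X a ∈ insert u s then F (X a) else 0) =
          fun a => if X a = u then F u else (if X a ∈ s then F (X a) else 0) := by
        funext a
        by_cases h1 : X a = u
        · rw [if_pos h1, h1, if_pos (Finset.mem_insert_self u s)]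
        · rw [if_neg h1]
          by_cases h2 : X a ∈ s
          · rw [if_pos h2, if_pos (Finset.mem_insert_of_mem h2)]
          · rw [if_neg h2, if_neg (fun h3 => (Finset.mem_insert.1 h3).elim h1 h2)]
      rw [e]
      exact LS.ite (L4_eq X h u) (LS.const (F u)) ih
  have h1 := key Finset.univ
  simpa using h1

/-- TASK L4. If all bits of the array are `LSp` then the word is generated in log space:
`LS (fun n => (wordOf a m L x n : ℕ))`: case `n = 0`; `(ku t).1`, `(ku t).2` are `LS` (`E2.fst`,
`E2.snd`); the letter is found by a finite case distinction over all `u : Fin l → Bool`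
(`LSp.forall_fin`, `LS.ite`, finite sums). -/
theorem logSpace_wordOf {d l : ℕ} (a m : Fin d) (L : (Fin l → Bool) → Fin d)
    (x : ℕ → ℕ → Fin l → Bool)
    (h : ∀ i, LSp (fun z : ℕ × ℕ => x z.1 z.2 i = true)) : LogSpace (wordOf a m L x) := by
  have hA : LS (fun t : ℕ => (ku t).1) := E2.fst
  have hB : LS (fun t : ℕ => (ku t).2) := E2.snd
  have hg : LS (fun t : ℕ => ((ku t).2 - 1, (ku t).1)) :=
    LS.prodMk (LS.sub hB (LS.const 1)) hA
  have h1 : LS (fun t : ℕ => ((L (x ((ku t).2 - 1) (ku t).1) : Fin d) : ℕ)) :=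
    L4_sum (fun t : ℕ => x ((ku t).2 - 1) (ku t).1)
      (fun i => L4_comp (P := fun z : ℕ × ℕ => x z.1 z.2 i = true) (h i) hg)
      (fun u => (L u : ℕ))
  have h2 : LS (fun t : ℕ => if (ku t).2 = 0 then (m : ℕ)
      else ((L (x ((ku t).2 - 1) (ku t).1) : Fin d) : ℕ)) :=
    LS.ite (LSp.eq hB (LS.const 0)) (LS.const (m : ℕ)) h1
  have h3 : LS (fun n : ℕ => if n = 0 then (a : ℕ) else
      (if (ku (n - 1)).2 = 0 then (m : ℕ)
        else ((L (x ((ku (n - 1)).2 - 1) (ku (n - 1)).1) : Fin d) : ℕ))) :=
    LS.ite (LSp.eq LS.id (LS.const 0)) (LS.const (a : ℕ))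
      (LS.comp h2 (LS.sub LS.id (LS.const 1)))
  apply logSpace_of_ls
  have e : (fun n => ((wordOf a m L x n : Fin d) : ℕ)) = fun n : ℕ => if n = 0 then (a : ℕ) else
      (if (ku (n - 1)).2 = 0 then (m : ℕ)
        else ((L (x ((ku (n - 1)).2 - 1) (ku (n - 1)).1) : Fin d) : ℕ)) := by
    funext n
    cases n with
    | zero => rfl
    | succ t =>
      rw [if_neg (Nat.succ_ne_zero t), Nat.add_sub_cancel]
      change ((if (ku t).2 = 0 then m else L (x ((ku t).2 - 1) (ku t).1) : Fin d) : ℕ) = _
      split_ifs <;> rfl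
  rw [e]
  exact h3

end Pool.Agent.W_5d512e_post
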