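import Pool.Agent.W_5d512e_h57.Gen
import Pool.Agent.W_5d512e_h57.Tbl
import Pool.Agent.W_5d512e_post.Defs

/-!
# Logarithmic space by means of the function algebra `LS` (seat 57)
-/

set_option autoImplicit false

namespace Pool.Agent.W_5d512e_post

open Pool.Agent.W_MP_5d512e_h33 Pool.Agent.W_5d512e_h57

/-- Logical equivalence. -/
theorem LSp.of_iff {α : Type} [Cd α] {P Q : α → Prop} (hP : LSp P) (h : ∀ a, Q a ↔ P a) :
    LSp Q := by
  obtain ⟨f, hf, h2⟩ := hP
  exact ⟨f, hf, fun a => (h a).trans (h2 a)⟩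

/-- The word whose letters are `a`, and then, for `t = tri n + j`, `j ≤ n`: the marker `m` if
`j = n`, and otherwise `L (x (n - 1 - j) j)`. -/
def wordOf {Γ : Type} {d : ℕ} (a m : Fin d) (L : Γ → Fin d) (x : ℕ → ℕ → Γ) : ℕ → Fin d
  | 0 => a
  | t + 1 => if (ku t).2 = 0 then m else L (x ((ku t).2 - 1) (ku t).1)

end Pool.Agent.W_5d512e_post
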