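import Mathlib

/-!
# Task O1: sums along paths
-/

set_option autoImplicit false

namespace Pool.Agent.W_5d512e_post

/-- Sums along paths. -/
inductive PathSum {Q M : Type} [AddCommMonoid M] (T : Q → Q → Set M) (a : Q) : Q → M → Prop
  | nil : PathSum T a a 0
  | cons {b c : Q} {m t : M} (h : PathSum T a b m) (ht : t ∈ T b c) : PathSum T a c (m + t)

/-- Sums along nonempty paths whose intermediate states lie in `A`. -/
inductive O1.PathIn {Q M : Type} [AddCommMonoid M] (T : Q → Q → Set M) (A : Finset Q) (a : Q) :
    Q → M → Prop
  | base {c : Q} {t : M} (ht : t ∈ T a c) : O1.PathIn T A a c t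
  | cons {b c : Q} {m t : M} (h : O1.PathIn T A a b m) (hb : b ∈ A) (ht : t ∈ T b c) :
      O1.PathIn T A a c (m + t)

private theorem O1.PathIn.mono {Q M : Type} [AddCommMonoid M] {T : Q → Q → Set M}
    {A B : Finset Q} (hAB : A ⊆ B) {a b : Q} {m : M} (h : O1.PathIn T A a b m) :
    O1.PathIn T B a b m := by
  induction h with
  | base ht => exact .base ht
  | cons h hb ht ih => exact .cons ih (hAB hb) ht

private theorem O1.PathIn.trans {Q M : Type} [AddCommMonoid M] {T : Q → Q → Set M}
    {A : Finset Q} {a q b : Q} {m m' : M} (h : O1.PathIn T A a q m) (hq : q ∈ A)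
    (h' : O1.PathIn T A q b m') : O1.PathIn T A a b (m + m') := by
  induction h' with
  | base ht => exact .cons h hq ht
  | cons h2 hb ht ih =>
    rw [← add_assoc]
    exact .cons ih hb ht

open Pointwise in
private theorem O1.isSemilinearSet_pathIn {Q M : Type} [DecidableEq Q] [AddCommMonoid M]
    {T : Q → Q → Set M} (hT : ∀ a b, IsSemilinearSet (T a b)) (A : Finset Q) :
    ∀ a b : Q, IsSemilinearSet {m | O1.PathIn T A a b m} := by
  classical
  induction A using Finset.induction_on with
  | empty =>
    intro a b
    have h : {m | O1.PathIn T ∅ a b m} = T a b := by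
      ext m
      constructor
      · intro h
        cases h with
        | base ht => exact ht
        | cons h hb ht => exact absurd hb (Finset.notMem_empty _)
      · intro h
        exact .base h
    rw [h]
    exact hT a b
  | insert q A hq ih =>
    intro a b
    have h : {m | O1.PathIn T (insert q A) a b m} = {m | O1.PathIn T A a b m} ∪
        ({m | O1.PathIn T A a q m} +
          ((AddSubmonoid.closure {m | O1.PathIn T A q q m} : AddSubmonoid M) : Set M) +
          {m | O1.PathIn T A q b m}) := by
      ext m
      constructor
      · intro h
        change O1.PathIn T (insert q A) a b m at h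
        induction h with
        | base ht => exact Or.inl (.base ht)
        | @cons b c m t h hb ht ihm =>
          rw [Finset.mem_insert] at hb
          rcases ihm with h1 | h1
          · rcases hb with rfl | hb
            · right
              refine Set.mem_add.mpr ⟨m, Set.mem_add.mpr ⟨m, h1, 0, ?_, add_zero m⟩, t, .base ht, rfl⟩
              exact AddSubmonoid.zero_mem _
            · exact Or.inl (.cons h1 hb ht)
          · right
            obtain ⟨y, hy, m2, h2, rfl⟩ := Set.mem_add.mp h1
            obtain ⟨m1, hm1, x, hx, rfl⟩ := Set.mem_add.mp hy
            rcases hb with rfl | hb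
            · refine Set.mem_add.mpr ⟨m1 + (x + m2), Set.mem_add.mpr ⟨m1, hm1, x + m2, ?_, rfl⟩,
                t, .base ht, by rw [add_assoc m1 x m2]⟩
              exact AddSubmonoid.add_mem _ hx (AddSubmonoid.subset_closure h2)
            · refine Set.mem_add.mpr ⟨m1 + x, Set.mem_add.mpr ⟨m1, hm1, x, hx, rfl⟩,
                m2 + t, .cons h2 hb ht, by rw [add_assoc (m1 + x) m2 t]⟩
      · rintro (h | h)
        · exact O1.PathIn.mono (Finset.subset_insert q A) h
        · obtain ⟨y, hy, m2, h2, rfl⟩ := Set.mem_add.mp h
          obtain ⟨m1, hm1, x, hx, rfl⟩ := Set.mem_add.mp hy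
          have hqI : q ∈ insert q A := Finset.mem_insert_self q A
          have key : ∀ x ∈ AddSubmonoid.closure {m | O1.PathIn T A q q m}, ∀ m : M,
              O1.PathIn T (insert q A) a q m → O1.PathIn T (insert q A) a q (m + x) := by
            intro x hx
            induction hx using AddSubmonoid.closure_induction with
            | mem x hx =>
              intro m hm
              exact hm.trans hqI (O1.PathIn.mono (Finset.subset_insert q A) hx)
            | zero =>
              intro m hm
              rwa [add_zero]
            | add x y _ _ ihx ihy =>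
              intro m hm
              rw [← add_assoc]
              exact ihy _ (ihx _ hm)
          exact (key x hx m1 (O1.PathIn.mono (Finset.subset_insert q A) hm1)).trans hqI
            (O1.PathIn.mono (Finset.subset_insert q A) h2)
    rw [h]
    exact (ih a b).union (((ih a q).add (ih q q).closure).add (ih q b))

/-- TASK O1. Kleene's algorithm: paths whose intermediate states lie in a finite set `A` of states;
`P_(A ∪ {q}) a b = P_A a b ∪ (P_A a q + closure (P_A q q) + P_A q b)`
(`IsSemilinearSet.union`, `.add`, `.closure`). -/
theorem isSemilinearSet_pathSum {Q M : Type} [Finite Q] [AddCommMonoid M] {T : Q → Q → Set M}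
    (hT : ∀ a b, IsSemilinearSet (T a b)) (a b : Q) :
    IsSemilinearSet {m | PathSum T a b m} := by
  classical
  haveI := Fintype.ofFinite Q
  have h1 := O1.isSemilinearSet_pathIn hT Finset.univ a b
  have h2 : IsSemilinearSet {m : M | a = b ∧ m = 0} := by
    by_cases hab : a = b
    · have h3 : {m : M | a = b ∧ m = 0} = {0} := by
        ext m
        simp [hab]
      rw [h3]
      exact IsSemilinearSet.singleton 0
    · have h3 : {m : M | a = b ∧ m = 0} = ∅ := by
        ext m
        simp [hab]
      rw [h3]
      exact IsSemilinearSet.empty
  have h : {m | PathSum T a b m} =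
      {m : M | a = b ∧ m = 0} ∪ {m | O1.PathIn T Finset.univ a b m} := by
    ext m
    clear h1 h2
    constructor
    · intro h
      change PathSum T a b m at h
      induction h with
      | nil => exact Or.inl ⟨rfl, rfl⟩
      | @cons b c m t h ht ih =>
        right
        rcases ih with ⟨rfl, rfl⟩ | ih
        · show O1.PathIn T Finset.univ a c (0 + t)
          rw [zero_add]
          exact .base ht
        · exact .cons ih (Finset.mem_univ _) ht
    · rintro (⟨rfl, rfl⟩ | h)
      · exact .nil
      · change O1.PathIn T Finset.univ a b m at h
        show PathSum T a b m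
        induction h with
        | @base c t ht =>
          have h5 := PathSum.cons (PathSum.nil (T := T) (a := a)) ht
          rwa [zero_add] at h5
        | cons h hb ht ih => exact .cons ih ht
  rw [h]
  exact h2.union h1

end Pool.Agent.W_5d512e_post
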