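import Mathlib

/-!
# Task O3: excursions
-/

set_option autoImplicit false

namespace Pool.Agent.W_5d512e_post

/-- Excursions: paths of the one-counter system with up steps `U` and down steps `D` that
return to their starting level and never go below it; the number is the number of down steps. -/
inductive Exc {Q : Type} (U D : Q → Q → Prop) : Q → Q → ℕ → Prop
  | refl (a : Q) : Exc U D a a 0
  | step {a b c d e : Q} {m n : ℕ} (h1 : Exc U D a b m) (h2 : U b c) (h3 : Exc U D c d n)
      (h4 : D d e) : Exc U D a e (m + n + 1)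

/-- Excursions with the height of a derivation. -/
inductive O3_ExcH {Q : Type} (U D : Q → Q → Prop) : Q → Q → ℕ → ℕ → Prop
  | refl (a : Q) : O3_ExcH U D a a 0 0
  | step {a b c d e : Q} {m n h k : ℕ} (h1 : O3_ExcH U D a b m h) (h2 : U b c)
      (h3 : O3_ExcH U D c d n k) (h4 : D d e) : O3_ExcH U D a e (m + n + 1) (max h k + 1)

theorem O3_toH {Q : Type} {U D : Q → Q → Prop} {a b : Q} {n : ℕ} (h : Exc U D a b n) :
    ∃ k, O3_ExcH U D a b n k := by
  induction h with
  | refl a => exact ⟨0, O3_ExcH.refl a⟩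
  | step _ h2 _ h4 ih1 ih2 =>
    obtain ⟨k1, hk1⟩ := ih1
    obtain ⟨k2, hk2⟩ := ih2
    exact ⟨_, O3_ExcH.step hk1 h2 hk2 h4⟩

theorem O3_ofH {Q : Type} {U D : Q → Q → Prop} {a b : Q} {n k : ℕ} (h : O3_ExcH U D a b n k) :
    Exc U D a b n := by
  induction h with
  | refl a => exact Exc.refl a
  | step _ h2 _ h4 ih1 ih2 => exact Exc.step ih1 h2 ih2 h4

theorem O3_size {Q : Type} {U D : Q → Q → Prop} {a b : Q} {n k : ℕ} (h : O3_ExcH U D a b n k) :
    n + 1 ≤ 2 ^ k := by
  induction h with
  | refl a => simp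
  | @step a b c d e m n h k _ _ _ _ ih1 ih2 =>
    have e1 : 2 ^ h ≤ 2 ^ max h k := Nat.pow_le_pow_right (by norm_num) (le_max_left _ _)
    have e2 : 2 ^ k ≤ 2 ^ max h k := Nat.pow_le_pow_right (by norm_num) (le_max_right _ _)
    rw [pow_succ]
    omega

/-- A context: excursions for `q` give excursions for `p`. -/
def O3_Ctx {Q : Type} (U D : Q → Q → Prop) (p q : Q × Q) (g : ℕ) : Prop :=
  ∀ k, Exc U D q.1 q.2 k → Exc U D p.1 p.2 (k + g)

/-- A branch of length `k` of a derivation of height `k`. -/
theorem O3_chain {Q : Type} {U D : Q → Q → Prop} {a b : Q} {n k : ℕ}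
    (h : O3_ExcH U D a b n k) : ∃ (p : ℕ → Q × Q) (s : ℕ → ℕ), p 0 = (a, b) ∧ s 0 = n ∧
      (∀ i, i ≤ k → Exc U D (p i).1 (p i).2 (s i)) ∧
      ∀ i, i < k → s (i + 1) < s i ∧ O3_Ctx U D (p i) (p (i + 1)) (s i - s (i + 1)) := by
  induction h with
  | refl a =>
    refine ⟨fun _ => (a, a), fun _ => 0, rfl, rfl, fun i _ => Exc.refl a, fun i hi => ?_⟩
    omega
  | @step a b c d e m n h k h1 h2 h3 h4 ih1 ih2 =>
    rcases le_total h k with hhk | hhk
    · obtain ⟨p, s, hp, hs, hE, hC⟩ := ih2
      rw [max_eq_right hhk]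
      refine ⟨fun i => Nat.casesOn i (a, e) p, fun i => Nat.casesOn i (m + n + 1) s, rfl, rfl,
        ?_, ?_⟩
      · intro i hi
        cases i with
        | zero => exact Exc.step (O3_ofH h1) h2 (O3_ofH h3) h4
        | succ i => exact hE i (by omega)
      · intro i hi
        cases i with
        | zero =>
          refine ⟨?_, ?_⟩
          · show s 0 < m + n + 1
            rw [hs]
            omega
          · show O3_Ctx U D (a, e) (p 0) (m + n + 1 - s 0)
            rw [hp, hs]
            intro j hj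
            have h5 := Exc.step (O3_ofH h1) h2 hj h4
            have h6 : j + (m + n + 1 - n) = m + j + 1 := by omega
            rw [h6]
            exact h5
        | succ i => exact hC i (by omega)
    · obtain ⟨p, s, hp, hs, hE, hC⟩ := ih1
      rw [max_eq_left hhk]
      refine ⟨fun i => Nat.casesOn i (a, e) p, fun i => Nat.casesOn i (m + n + 1) s, rfl, rfl,
        ?_, ?_⟩
      · intro i hi
        cases i with
        | zero => exact Exc.step (O3_ofH h1) h2 (O3_ofH h3) h4
        | succ i => exact hE i (by omega)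
      · intro i hi
        cases i with
        | zero =>
          refine ⟨?_, ?_⟩
          · show s 0 < m + n + 1
            rw [hs]
            omega
          · show O3_Ctx U D (a, e) (p 0) (m + n + 1 - s 0)
            rw [hp, hs]
            intro j hj
            have h5 := Exc.step hj h2 (O3_ofH h3) h4
            have h6 : j + (m + n + 1 - m) = j + n + 1 := by omega
            rw [h6]
            exact h5
        | succ i => exact hC i (by omega)

/-- Pumping without a bound for `g`. -/
theorem O3_pump {Q : Type} [Finite Q] {U D : Q → Q → Prop} {a b : Q} {n : ℕ}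
    (hn : 2 ^ (Nat.card (Q × Q) + 1) ≤ n) (h : Exc U D a b n) :
    ∃ g, 1 ≤ g ∧ g ≤ n ∧ ∀ t, Exc U D a b (n + g * t) := by
  obtain ⟨k, hk⟩ := O3_toH h
  have hsz := O3_size hk
  have hck : Nat.card (Q × Q) < k := by
    by_contra hle
    have h1 : 2 ^ k ≤ 2 ^ (Nat.card (Q × Q) + 1) := Nat.pow_le_pow_right (by norm_num) (by omega)
    omega
  obtain ⟨p, s, hp, hs, hE, hC⟩ := O3_chain hk
  have hij : ∀ i j, i ≤ j → j ≤ k → s j ≤ s i ∧ (i < j → s j < s i) ∧
      O3_Ctx U D (p i) (p j) (s i - s j) := by
    intro i j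
    induction j with
    | zero =>
      intro h1 h2
      obtain rfl : i = 0 := by omega
      refine ⟨le_rfl, fun h => by omega, fun j hj => ?_⟩
      rw [Nat.sub_self]
      exact hj
    | succ j ih =>
      intro h1 h2
      rcases Nat.lt_or_ge i (j + 1) with h3 | h3
      · obtain ⟨e1, _, e3⟩ := ih (by omega) (by omega)
        obtain ⟨f1, f2⟩ := hC j (by omega)
        refine ⟨by omega, fun _ => by omega, fun l hl => ?_⟩
        have h4 := e3 _ (f2 l hl)
        have h5 : l + (s i - s (j + 1)) = l + (s j - s (j + 1)) + (s i - s j) := by omega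
        rw [h5]
        exact h4
      · obtain rfl : i = j + 1 := by omega
        refine ⟨le_rfl, fun h => by omega, fun j hj => ?_⟩
        rw [Nat.sub_self]
        exact hj
  have key : ∀ i j, i < j → j ≤ k → p i = p j →
      ∃ g, 1 ≤ g ∧ g ≤ n ∧ ∀ t, Exc U D a b (n + g * t) := by
    intro i j hlt hj hpp
    obtain ⟨e1, e2, e3⟩ := hij i j hlt.le hj
    obtain ⟨f1, _, f3⟩ := hij 0 i (Nat.zero_le _) (by omega)
    have e2' := e2 hlt
    rw [hs] at f1 f3
    refine ⟨s i - s j, by omega, by omega, fun t => ?_⟩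
    have h1 : Exc U D (p i).1 (p i).2 (s i + (s i - s j) * t) := by
      induction t with
      | zero => simpa using hE i (by omega)
      | succ t ih =>
        rw [← hpp] at e3
        have h2 := e3 _ ih
        have h3 : s i + (s i - s j) * (t + 1) = s i + (s i - s j) * t + (s i - s j) := by ring
        rw [h3]
        exact h2
    have h4 := f3 _ h1
    rw [hp] at h4
    have h5 : n + (s i - s j) * t = s i + (s i - s j) * t + (n - s i) := by omega
    rw [h5]
    exact h4
  haveI := Fintype.ofFinite Q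
  obtain ⟨x, y, hxy, hpp⟩ := Fintype.exists_ne_map_eq_of_card_lt
    (fun i : Fin (k + 1) => p i.1) (by
      rw [Fintype.card_fin, ← Nat.card_eq_fintype_card]
      omega)
  rcases lt_or_gt_of_ne (fun h => hxy (Fin.ext h) : x.1 ≠ y.1) with hlt | hlt
  · exact key x.1 y.1 hlt (by have := y.2; omega) hpp
  · exact key y.1 x.1 hlt (by have := x.2; omega) hpp.symm

/-- TASK O3. Pumping. Let `K = 2 ^ (card (Q × Q) + 1)`. (i) An excursion of size `≥ K` has a
derivation of height `> card (Q × Q)` (size `+ 1 ≤ 2 ^ height`), so a pair `(b, c)` of end points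
occurs twice on a branch: `∃ g, 1 ≤ g ≤ n, ∀ t, Exc a b (n + g * t)`. (ii) By induction on the
derivation one gets `g ≤ 2 * K` (if a part has size `≥ K`, use it; otherwise the size is at most
`2 * K`). (iii) `G = (2 * K)!`. -/
theorem exc_pump {Q : Type} [Finite Q] (U D : Q → Q → Prop) :
    ∃ K G : ℕ, 0 < G ∧ ∀ a b n, K ≤ n → Exc U D a b n → Exc U D a b (n + G) := by
  set K := 2 ^ (Nat.card (Q × Q) + 1) with hK
  have hb : ∀ a b n, Exc U D a b n → K ≤ n →
      ∃ g, 1 ≤ g ∧ g ≤ 2 * K ∧ ∀ t, Exc U D a b (n + g * t) := by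
    intro a b n h
    induction h with
    | refl a =>
      intro h0
      have : 0 < K := by positivity
      omega
    | @step a b c d e m n h1 h2 h3 h4 ih1 ih2 =>
      intro hKn
      by_cases hm : K ≤ m
      · obtain ⟨g, g1, g2, hg⟩ := ih1 hm
        refine ⟨g, g1, g2, fun t => ?_⟩
        have h5 := Exc.step (hg t) h2 h3 h4
        have h6 : m + n + 1 + g * t = m + g * t + n + 1 := by ring
        rw [h6]
        exact h5
      · by_cases hn : K ≤ n
        · obtain ⟨g, g1, g2, hg⟩ := ih2 hn
          refine ⟨g, g1, g2, fun t => ?_⟩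
          have h5 := Exc.step h1 h2 (hg t) h4
          have h6 : m + n + 1 + g * t = m + (n + g * t) + 1 := by ring
          rw [h6]
          exact h5
        · obtain ⟨g, g1, g2, hg⟩ := O3_pump hKn (Exc.step h1 h2 h3 h4)
          exact ⟨g, g1, by omega, hg⟩
  refine ⟨K, (2 * K).factorial, Nat.factorial_pos _, fun a b n hn h => ?_⟩
  obtain ⟨g, g1, g2, hg⟩ := hb a b n h hn
  obtain ⟨t, ht⟩ := Nat.dvd_factorial g1 g2
  rw [ht]
  exact hg t

end Pool.Agent.W_5d512e_post
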