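import Pool.Agent.W_5d512e_post.ODefs

/-!
# Task O4: decomposition at the lowest level
-/

set_option autoImplicit false

namespace Pool.Agent.W_5d512e_post

private theorem O4_exc_trans {Q : Type} {U D : Q → Q → Prop} {a b c : Q} {m n : ℕ}
    (h : Exc U D a b m) (h' : Exc U D b c n) : Exc U D a c (m + n) := by
  induction h' with
  | refl b => exact h
  | @step b b1 c1 d e k l h1 h2 h3 h4 ih1 _ =>
    have := Exc.step (ih1 h) h2 h3 h4
    have e1 : m + k + l + 1 = m + (k + l + 1) := by omega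
    rwa [e1] at this

private theorem O4_rch_exc {Q : Type} {U D : Q → Q → Prop} {b c : Q} {n : ℕ}
    (h' : Exc U D b c n) : ∀ {a : Q} {p' p J : ℕ}, Rch U D a b p' p J →
      Rch U D a c p' p (J + n) := by
  induction h' with
  | refl b => exact fun h => h
  | @step b b1 c1 d e k l h1 h2 h3 h4 ih1 ih3 =>
    intro a p' p J h
    have := Rch.down (ih3 (Rch.up (ih1 h) h2)) h4
    have e1 : J + k + l + 1 = J + (k + l + 1) := by omega
    rwa [e1] at this

private theorem O4_de {Q : Type} {U D : Q → Q → Prop} {a a1 e : Q} {x : ℕ × ℕ × ℕ}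
    (hx : PathSum (DE U D) a1 e x) : x.2.1 = 0 ∧ ∀ {p' L J : ℕ}, Rch U D a a1 p' (L + x.1) J →
      Rch U D a e p' L (J + x.2.2) := by
  induction hx with
  | nil => exact ⟨rfl, fun h => h⟩
  | @cons b c m t h ht ih =>
    obtain ⟨e', n, h1, h2, rfl⟩ := ht
    refine ⟨ih.1, fun {p' L J} h3 => ?_⟩
    have e1 : L + (m + (1, 0, n + 1)).1 = L + 1 + m.1 := by
      show L + (m.1 + 1) = L + 1 + m.1
      omega
    rw [e1] at h3
    have h4 := O4_rch_exc h2 (Rch.down (ih.2 h3) h1)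
    have e2 : J + (m + (1, 0, n + 1)).2.2 = J + m.2.2 + 1 + n := by
      show J + (m.2.2 + (n + 1)) = J + m.2.2 + 1 + n
      omega
    rw [e2]
    exact h4

private theorem O4_ue {Q : Type} {U D : Q → Q → Prop} {a a1 e : Q} {x : ℕ × ℕ × ℕ}
    (hx : PathSum (UE U D) a1 e x) : x.1 = 0 ∧ ∀ {p' L J : ℕ}, Rch U D a a1 p' L J →
      Rch U D a e p' (L + x.2.1) (J + x.2.2) := by
  induction hx with
  | nil => exact ⟨rfl, fun h => h⟩
  | @cons b c m t h ht ih =>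
    obtain ⟨e', n, h1, h2, rfl⟩ := ht
    refine ⟨ih.1, fun {p' L J} h3 => ?_⟩
    have h4 := O4_rch_exc h2 (Rch.up (ih.2 h3) h1)
    have e1 : L + (m + (0, 1, n)).2.1 = L + m.2.1 + 1 := by
      show L + (m.2.1 + 1) = L + m.2.1 + 1
      omega
    have e2 : J + (m + (0, 1, n)).2.2 = J + m.2.2 + n := by
      show J + (m.2.2 + n) = J + m.2.2 + n
      omega
    rw [e1, e2]
    exact h4

/-- An excursion after the downward part. -/
private theorem O4_abs_de {Q : Type} {U D : Q → Q → Prop} {a a1 e e1 : Q} {x0 x1 : ℕ × ℕ × ℕ}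
    {k : ℕ} (h0 : x0 ∈ Ex U D a a1) (h1 : PathSum (DE U D) a1 e x1) (h2 : Exc U D e e1 k) :
    ∃ (a' : Q) (y0 y1 : ℕ × ℕ × ℕ), y0 ∈ Ex U D a a' ∧ PathSum (DE U D) a' e1 y1 ∧
      y0 + y1 = x0 + x1 + (0, 0, k) := by
  cases h1 with
  | nil =>
    obtain ⟨n, h3, rfl⟩ := h0
    exact ⟨e1, (0, 0, n + k), 0, ⟨n + k, O4_exc_trans h3 h2, rfl⟩, .nil, rfl⟩
  | @cons b c m t h ht =>
    obtain ⟨e', n, h3, h4, rfl⟩ := ht
    refine ⟨a1, x0, m + (1, 0, n + k + 1), h0,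
      .cons h ⟨e', n + k, h3, O4_exc_trans h4 h2, rfl⟩, ?_⟩
    have e2 : ((1, 0, n + k + 1) : ℕ × ℕ × ℕ) = (1, 0, n + 1) + (0, 0, k) := by
      simp only [Prod.mk_add_mk, add_zero, Prod.mk.injEq, true_and]
      omega
    rw [e2]
    abel

/-- An excursion after the upward part. -/
private theorem O4_abs_ue {Q : Type} {U D : Q → Q → Prop} {a a1 e e1 : Q} {x0 x1 : ℕ × ℕ × ℕ}
    {k : ℕ} (h0 : x0 ∈ Ex U D a a1) (h1 : PathSum (UE U D) a1 e x1) (h2 : Exc U D e e1 k) :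
    ∃ (a' : Q) (y0 y1 : ℕ × ℕ × ℕ), y0 ∈ Ex U D a a' ∧ PathSum (UE U D) a' e1 y1 ∧
      y0 + y1 = x0 + x1 + (0, 0, k) := by
  cases h1 with
  | nil =>
    obtain ⟨n, h3, rfl⟩ := h0
    exact ⟨e1, (0, 0, n + k), 0, ⟨n + k, O4_exc_trans h3 h2, rfl⟩, .nil, rfl⟩
  | @cons b c m t h ht =>
    obtain ⟨e', n, h3, h4, rfl⟩ := ht
    refine ⟨a1, x0, m + (0, 1, n + k), h0,
      .cons h ⟨e', n + k, h3, O4_exc_trans h4 h2, rfl⟩, ?_⟩
    have e2 : ((0, 1, n + k) : ℕ × ℕ × ℕ) = (0, 1, n) + (0, 0, k) := by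
      simp only [Prod.mk_add_mk, add_zero]
    rw [e2]
    abel

private theorem O4_mem {p' p J : ℕ} {x : ℕ × ℕ × ℕ} :
    (p', p, J) = x ↔ p' = x.1 ∧ p = x.2.1 ∧ J = x.2.2 := by
  obtain ⟨x, y, z⟩ := x
  simp only [Prod.mk.injEq]

/-- TASK O4. Decomposition of a path at its lowest level: first an excursion and then
`down step, excursion` blocks (down to the lowest level `m`), then an excursion and
`up step, excursion` blocks. -/
theorem rch_iff {Q : Type} (U D : Q → Q → Prop) (a b : Q) (p' p J : ℕ) :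
    Rch U D a b p' p J ↔ ∃ (a1 e e1 : Q) (m : ℕ) (x0 x1 x2 x3 : ℕ × ℕ × ℕ),
      x0 ∈ Ex U D a a1 ∧ PathSum (DE U D) a1 e x1 ∧ x2 ∈ Ex U D e e1 ∧ PathSum (UE U D) e1 b x3 ∧
      (p', p, J) = (m, m, 0) + x0 + x1 + x2 + x3 := by
  constructor
  · intro h
    induction h with
    | refl p =>
      exact ⟨a, a, a, p, 0, 0, 0, 0, ⟨0, .refl a, rfl⟩, .nil, ⟨0, .refl a, rfl⟩, .nil, rfl⟩
    | @up b c p' p J h hs ih =>
      obtain ⟨a1, e, e1, m, x0, x1, x2, x3, h0, h1, h2, h3, h4⟩ := ih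
      refine ⟨a1, e, e1, m, x0, x1, x2, x3 + (0, 1, 0), h0, h1, h2,
        .cons h3 ⟨c, 0, hs, .refl c, rfl⟩, ?_⟩
      rw [← add_assoc, ← h4]
      rfl
    | @down b c p' p J h hs ih =>
      obtain ⟨a1, e, e1, m, x0, x1, x2, x3, h0, h1, h2, h3, h4⟩ := ih
      have z1 := (O4_de (a := a) h1).1
      have z3 := (O4_ue (a := a) h3).1
      obtain ⟨n0, hn0, rfl⟩ := h0
      obtain ⟨n2, hn2, rfl⟩ := h2
      cases h3 with
      | nil =>
        obtain ⟨a', y0, y1, k0, k1, k2⟩ := O4_abs_de ⟨n0, hn0, rfl⟩ h1 hn2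
        have z4 := (O4_de (a := a) k1).1
        obtain ⟨m0, hm0, rfl⟩ := k0
        rw [O4_mem] at h4
        simp only [Prod.fst_add, Prod.snd_add, Prod.fst_zero, Prod.snd_zero] at h4
        have k3 := congrArg Prod.fst k2
        have k4 := congrArg (fun x => x.2.1) k2
        have k5 := congrArg (fun x => x.2.2) k2
        simp only [Prod.fst_add, Prod.snd_add] at k3 k4 k5
        refine ⟨a', c, c, p, (0, 0, m0), y1 + (1, 0, 1), 0, 0, ⟨m0, hm0, rfl⟩,
          .cons k1 ⟨c, 0, hs, .refl c, rfl⟩, ⟨0, .refl c, rfl⟩, .nil, ?_⟩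
        rw [O4_mem]
        simp only [Prod.fst_add, Prod.snd_add, Prod.fst_zero, Prod.snd_zero]
        omega
      | @cons b' c' m' t h5 ht =>
        obtain ⟨e', n, h6, h7, rfl⟩ := ht
        obtain ⟨a', y0, y1, k0, k1, k2⟩ := O4_abs_ue ⟨n2, hn2, rfl⟩ h5
          (Exc.step (Exc.refl b') h6 h7 hs)
        have z4 := (O4_ue (a := a) k1).1
        obtain ⟨m0, hm0, rfl⟩ := k0
        rw [O4_mem] at h4
        simp only [Prod.fst_add, Prod.snd_add] at h4 z3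
        have k3 := congrArg Prod.fst k2
        have k4 := congrArg (fun x => x.2.1) k2
        have k5 := congrArg (fun x => x.2.2) k2
        simp only [Prod.fst_add, Prod.snd_add] at k3 k4 k5
        refine ⟨a1, e, a', m, (0, 0, n0), x1, (0, 0, m0), y1, ⟨n0, hn0, rfl⟩, h1,
          ⟨m0, hm0, rfl⟩, k1, ?_⟩
        rw [O4_mem]
        simp only [Prod.fst_add, Prod.snd_add]
        omega
  · rintro ⟨a1, e, e1, m, x0, x1, x2, x3, ⟨n0, h0, rfl⟩, h1, ⟨n2, h2, rfl⟩, h3, h4⟩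
    have z1 := (O4_de (a := a) h1).1
    have z3 := (O4_ue (a := a) h3).1
    have r0 := O4_rch_exc h0 (Rch.refl (U := U) (D := D) (a := a) (m + x1.1))
    have r1 := (O4_de (a := a) h1).2 r0
    have r2 := O4_rch_exc h2 r1
    have r3 := (O4_ue (a := a) h3).2 r2
    rw [O4_mem] at h4
    simp only [Prod.fst_add, Prod.snd_add] at h4
    obtain ⟨e1', e2', e3'⟩ := h4
    have g1 : p' = m + x1.1 := by omega
    have g2 : p = m + x3.2.1 := by omega
    have g3 : J = 0 + n0 + x1.2.2 + n2 + x3.2.2 := by omega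
    rw [g1, g2, g3]
    exact r3

end Pool.Agent.W_5d512e_post
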