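import Pool.Agent.W_5d512e_post.O4

/-!
# Task O5: paths are semilinear
-/

set_option autoImplicit false

namespace Pool.Agent.W_5d512e_post

open scoped Pointwise

/-- The embedding of the numbers as third coordinates. -/
private def O5_inr2 : ℕ →+ ℕ × ℕ × ℕ :=
  (AddMonoidHom.inr ℕ (ℕ × ℕ)).comp (AddMonoidHom.inr ℕ ℕ)

private theorem O5_inr2_apply (n : ℕ) : O5_inr2 n = (0, 0, n) := rfl

/-- The map `m ↦ (m, m, 0)`. -/
private def O5_diag : ℕ →+ ℕ × ℕ × ℕ :=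
  (AddMonoidHom.id ℕ).prod (AddMonoidHom.inl ℕ ℕ)

private theorem O5_diag_apply (m : ℕ) : O5_diag m = (m, m, 0) := rfl

private theorem O5_diag_semilinear : IsSemilinearSet {x : ℕ × ℕ × ℕ | ∃ m : ℕ, x = (m, m, 0)} := by
  have h := (IsSemilinearSet.univ (M := ℕ)).image O5_diag
  convert h using 1
  ext x
  simp only [Set.mem_ofPred_eq, Set.image_univ, Set.mem_range, O5_diag_apply, eq_comm]

private theorem O5_Ex_semilinear {Q : Type} [Finite Q] (U D : Q → Q → Prop) (a b : Q) :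
    IsSemilinearSet (Ex U D a b) := by
  have h := (isSemilinearSet_exc U D a b).image O5_inr2
  convert h using 1
  ext x
  constructor
  · rintro ⟨n, hn, rfl⟩
    exact ⟨n, hn, rfl⟩
  · rintro ⟨n, hn, rfl⟩
    exact ⟨n, hn, rfl⟩

private theorem O5_UE_semilinear {Q : Type} [Finite Q] (U D : Q → Q → Prop) (a b : Q) :
    IsSemilinearSet (UE U D a b) := by
  have h : IsSemilinearSet (⋃ e : {e : Q // U a e}, ((0, 1, 0) : ℕ × ℕ × ℕ) +ᵥ Ex U D e.1 b) :=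
    IsSemilinearSet.iUnion (fun e => (O5_Ex_semilinear U D e.1 b).vadd _)
  convert h using 1
  ext x
  simp only [Set.mem_iUnion, Set.mem_vadd_set]
  constructor
  · rintro ⟨e, n, he, hn, rfl⟩
    exact ⟨⟨e, he⟩, (0, 0, n), ⟨n, hn, rfl⟩, by simp [vadd_eq_add]⟩
  · rintro ⟨⟨e, he⟩, _, ⟨n, hn, rfl⟩, rfl⟩
    exact ⟨e, n, he, hn, by simp [vadd_eq_add]⟩

private theorem O5_DE_semilinear {Q : Type} [Finite Q] (U D : Q → Q → Prop) (a b : Q) :
    IsSemilinearSet (DE U D a b) := by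
  have h : IsSemilinearSet (⋃ e : {e : Q // D a e}, ((1, 0, 1) : ℕ × ℕ × ℕ) +ᵥ Ex U D e.1 b) :=
    IsSemilinearSet.iUnion (fun e => (O5_Ex_semilinear U D e.1 b).vadd _)
  convert h using 1
  ext x
  simp only [Set.mem_iUnion, Set.mem_vadd_set]
  constructor
  · rintro ⟨e, n, he, hn, rfl⟩
    exact ⟨⟨e, he⟩, (0, 0, n), ⟨n, hn, rfl⟩, by simp [vadd_eq_add, add_comm]⟩
  · rintro ⟨⟨e, he⟩, _, ⟨n, hn, rfl⟩, rfl⟩
    exact ⟨e, n, he, hn, by simp [vadd_eq_add, add_comm]⟩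

/-- TASK O5. `IsSemilinearSet` of `UE`, `DE`, `Ex` (images of `Exc` under a homomorphism, translates
and finite unions), then of `Rch` by `rch_iff`, O1. -/
theorem isSemilinearSet_rch {Q : Type} [Finite Q] (U D : Q → Q → Prop) (a b : Q) :
    IsSemilinearSet {x : ℕ × ℕ × ℕ | Rch U D a b x.1 x.2.1 x.2.2} := by
  have h : IsSemilinearSet (⋃ q : Q × Q × Q,
      ({x : ℕ × ℕ × ℕ | ∃ m : ℕ, x = (m, m, 0)} + Ex U D a q.1 +
        {x | PathSum (DE U D) q.1 q.2.1 x} + Ex U D q.2.1 q.2.2 +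
        {x | PathSum (UE U D) q.2.2 b x})) := by
    refine IsSemilinearSet.iUnion (fun q => ?_)
    exact (((O5_diag_semilinear.add (O5_Ex_semilinear U D _ _)).add
      (isSemilinearSet_pathSum (O5_DE_semilinear U D) _ _)).add
      (O5_Ex_semilinear U D _ _)).add (isSemilinearSet_pathSum (O5_UE_semilinear U D) _ _)
  convert h using 1
  ext ⟨p', p, J⟩
  simp only [Set.mem_ofPred_eq, Set.mem_iUnion]
  rw [rch_iff]
  constructor
  · rintro ⟨a1, e, e1, m, x0, x1, x2, x3, h0, h1, h2, h3, he⟩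
    refine ⟨(a1, e, e1), ?_⟩
    rw [he]
    exact Set.add_mem_add (Set.add_mem_add (Set.add_mem_add (Set.add_mem_add ⟨m, rfl⟩ h0) h1) h2) h3
  · rintro ⟨⟨a1, e, e1⟩, hx⟩
    obtain ⟨y3, hy3, x3, h3, he3⟩ := Set.mem_add.1 hx
    obtain ⟨y2, hy2, x2, h2, he2⟩ := Set.mem_add.1 hy3
    obtain ⟨y1, hy1, x1, h1, he1⟩ := Set.mem_add.1 hy2
    obtain ⟨y0, ⟨m, hm⟩, x0, h0, he0⟩ := Set.mem_add.1 hy1
    refine ⟨a1, e, e1, m, x0, x1, x2, x3, h0, h1, h2, h3, ?_⟩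
    rw [← he3, ← he2, ← he1, ← he0, hm]

end Pool.Agent.W_5d512e_post
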