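import Pool.Agent.W_5d512e_post.Defs

/-!
# Task P1: terms
-/

set_option autoImplicit false

namespace Pool.Agent.W_5d512e_post

variable {B : ∀ n : ℕ, Set ((Fin n → Bool) → Bool)}

/-- TASK P1. Composition. -/
theorem Term.comp {n m : ℕ} {f : (Fin n → Bool) → Bool} (hf : Term B n f)
    {g : Fin n → (Fin m → Bool) → Bool} (hg : ∀ i, Term B m (g i)) :
    Term B m (fun x => f (fun i => g i x)) := by
  induction hf with
  | var i => exact hg i
  | app k f hf g' _ ih => exact Term.app k f hf (fun i x => g' i (fun j => g j x)) ih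

/-- The three kinds are closed under composition. -/
theorem Term.affine (hB : ∀ n, ∀ f ∈ B n, Affine f) {m : ℕ} {f : (Fin m → Bool) → Bool}
    (hf : Term B m f) : Affine f := by
  induction hf with
  | var i => exact fun _ _ _ => rfl
  | app k f hf g' _ ih =>
    intro x y z
    beta_reduce
    rw [← hB k f hf]
    congr 1
    funext i
    exact ih i x y z

theorem Term.presAnd (hB : ∀ n, ∀ f ∈ B n, PresAnd f) {m : ℕ} {f : (Fin m → Bool) → Bool}
    (hf : Term B m f) : PresAnd f := by
  induction hf with
  | var i => exact fun _ _ => rfl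
  | app k f hf g' _ ih =>
    intro x y
    beta_reduce
    rw [← hB k f hf]
    congr 1
    funext i
    exact ih i x y

theorem Term.presOr (hB : ∀ n, ∀ f ∈ B n, PresOr f) {m : ℕ} {f : (Fin m → Bool) → Bool}
    (hf : Term B m f) : PresOr f := by
  induction hf with
  | var i => exact fun _ _ => rfl
  | app k f hf g' _ ih =>
    intro x y
    beta_reduce
    rw [← hB k f hf]
    congr 1
    funext i
    exact ih i x y

/-- Functions of `m` variables composed from `B`, the variables and the two constants. -/
def TC (B : ∀ n : ℕ, Set ((Fin n → Bool) → Bool)) (m : ℕ) (h : (Fin m → Bool) → Bool) : Prop :=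
  ∃ f, Term B (m + 2) f ∧ ∀ x, f (Fin.append x ![false, true]) = h x

/-- Closure properties of `TC`. -/
theorem TC.var {m : ℕ} (i : Fin m) : TC B m (fun x => x i) :=
  ⟨fun x => x (Fin.castAdd 2 i), Term.var _, fun x => Fin.append_left x _ i⟩

theorem TC.const {m : ℕ} (v : Bool) : TC B m (fun _ => v) := by
  cases v
  · exact ⟨fun x => x (Fin.natAdd m 0), Term.var _, fun x => Fin.append_right x _ 0⟩
  · exact ⟨fun x => x (Fin.natAdd m 1), Term.var _, fun x => Fin.append_right x _ 1⟩

theorem TC.app {n m : ℕ} {f : (Fin n → Bool) → Bool} (hf : f ∈ B n)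
    {g : Fin n → (Fin m → Bool) → Bool} (hg : ∀ i, TC B m (g i)) :
    TC B m (fun x => f (fun i => g i x)) := by
  choose g' h1 h2 using hg
  refine ⟨fun x => f (fun i => g' i x), Term.app n f hf g' h1, fun x => ?_⟩
  beta_reduce
  congr 1
  funext i
  exact h2 i x

theorem TC.comp {n m : ℕ} {f : (Fin n → Bool) → Bool} (hf : TC B n f)
    {g : Fin n → (Fin m → Bool) → Bool} (hg : ∀ i, TC B m (g i)) :
    TC B m (fun x => f (fun i => g i x)) := by
  choose g' h1 h2 using hg
  obtain ⟨f', h3, h4⟩ := hf
  have h5 : ∀ i : Fin (n + 2), ∃ G : (Fin (m + 2) → Bool) → Bool, Term B (m + 2) G ∧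
      ∀ x : Fin m → Bool, G (Fin.append x ![false, true]) =
        (Fin.append (fun i => g i x) ![false, true] : Fin (n + 2) → Bool) i := by
    intro i
    refine Fin.addCases (fun i => ?_) (fun i => ?_) i
    · exact ⟨g' i, h1 i, fun x => by rw [Fin.append_left, h2]⟩
    · exact ⟨fun x => x (Fin.natAdd m i), Term.var _, fun x => by
        beta_reduce
        rw [Fin.append_right, Fin.append_right]⟩
  choose G h6 h7 using h5
  refine ⟨fun x => f' (fun i => G i x), Term.comp h3 h6, fun x => ?_⟩
  beta_reduce
  rw [← h4]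
  congr 1
  funext i
  exact h7 i x

end Pool.Agent.W_5d512e_post
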