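import Pool.Agent.W_5d512e_post.Ls

/-!
# Task W2
-/

set_option autoImplicit false

namespace Pool.Agent.W_5d512e_post

open Pool.Agent.W_MP_5d512e_h33 Pool.Agent.W_5d512e_h57

variable {k l d p : ℕ} {f : (Fin (k + l) → Bool) → Fin k → Bool}
  {g : (Fin (k + l) → Bool) → Fin l → Bool} {c : Fin k → Bool} {y : Fin l → Bool}
  {S : (Fin k → Bool) → Fin p} {L : (Fin l → Bool) → Fin d} {a m : Fin d}
  {δ : Fin p → Fin d → Fin p} {q0 : Fin p} {out : Fin p → Fin d → List (Fin d)}
  {s : ℕ → ℕ → Fin k → Bool} {x : ℕ → ℕ → Fin l → Bool}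

private theorem W2_ku (n j : ℕ) (h : j ≤ n) : ku (tri n + j) = (j, n - j) := by
  have e : kp j (n - j) = tri n + j := by
    unfold kp
    rw [Nat.add_sub_cancel' h]
  rw [← e, ku_kp]

private theorem W2_letter (n j : ℕ) (h : j < n) :
    wordOf a m L x (tri n + 1 + j) = L (x (n - 1 - j) j) := by
  have e : tri n + 1 + j = (tri n + j) + 1 := by omega
  rw [e]
  change (if (ku (tri n + j)).2 = 0 then m
    else L (x ((ku (tri n + j)).2 - 1) (ku (tri n + j)).1)) = _
  rw [W2_ku n j h.le]
  have e2 : n - j - 1 = n - 1 - j := by omega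
  have e3 : ¬ (n - j = 0) := by omega
  simp only [e2, e3, if_false]

private theorem W2_mark (n : ℕ) : wordOf a m L x (tri n + 1 + n) = m := by
  have e : tri n + 1 + n = (tri n + n) + 1 := by omega
  rw [e]
  change (if (ku (tri n + n)).2 = 0 then m
    else L (x ((ku (tri n + n)).2 - 1) (ku (tri n + n)).1)) = _
  rw [W2_ku n n le_rfl]
  simp only [Nat.sub_self, if_true]

private def W2_step (δ : Fin p → Fin d → Fin p) (out : Fin p → Fin d → List (Fin d))
    (acc : Fin p × List (Fin d)) (z : Fin d) : Fin p × List (Fin d) :=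
  (δ acc.1 z, acc.2 ++ out acc.1 z)

private theorem W2_part (hM : Machine f g c y S L a m δ q0 out) (hR : Run f g c y s x) (n : ℕ)
    (acc : List (Fin d)) (j : ℕ) (hj : j ≤ n) :
    ∃ q, List.foldl (W2_step δ out) (q0, acc)
        ((List.range j).map (fun i => wordOf a m L x (tri n + 1 + i))) =
        (q, acc ++ (List.range j).map (fun i => wordOf a m L x (tri (n + 1) + 1 + i))) ∧
      (j < n → q = S (s (n - 1 - j) j)) := by
  induction j with
  | zero =>
    refine ⟨q0, by simp, fun _ => ?_⟩
    rw [hR.s0, hM.start]
  | succ j ih =>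
    obtain ⟨q, h1, h2⟩ := ih (by omega)
    have hq := h2 (by omega)
    refine ⟨S (f (Fin.append (s (n - 1 - j) j) (x (n - 1 - j) j))), ?_, fun h => ?_⟩
    · rw [List.range_succ, List.map_append, List.foldl_append, h1, List.map_append]
      simp only [List.map_cons, List.map_nil, List.foldl_cons, List.foldl_nil, W2_step]
      rw [W2_letter n j (by omega), W2_letter (n + 1) j (by omega), hq, (hM.read _ _).1,
        (hM.read _ _).2, ← hR.x1, List.append_assoc]
      have e : n - 1 - j + 1 = n + 1 - 1 - j := by omega
      rw [e]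
    · have e : n - 1 - j = n - 1 - (j + 1) + 1 := by omega
      rw [e, ← hR.s1]

private theorem W2_row (hM : Machine f g c y S L a m δ q0 out) (hR : Run f g c y s x) (n : ℕ)
    (acc : List (Fin d)) :
    List.foldl (W2_step δ out) (q0, acc)
        ((List.range (n + 1)).map (fun i => wordOf a m L x (tri n + 1 + i))) =
      (q0, acc ++ (List.range (n + 2)).map (fun i => wordOf a m L x (tri (n + 1) + 1 + i))) := by
  obtain ⟨q, h1, -⟩ := W2_part hM hR n acc n le_rfl
  rw [List.range_succ, List.map_append, List.foldl_append, h1]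
  simp only [List.map_cons, List.map_nil, List.foldl_cons, List.foldl_nil, W2_step]
  rw [W2_mark, (hM.mark _).1, (hM.mark _).2, List.range_succ, List.range_succ, List.map_append,
    List.map_append]
  simp only [List.map_cons, List.map_nil]
  have e1 : wordOf a m L x (tri (n + 1) + 1 + n) = L y := by
    rw [W2_letter (n + 1) n (by omega)]
    have e : n + 1 - 1 - n = 0 := by omega
    rw [e, hR.x0]
  rw [e1, W2_mark, List.append_assoc, List.append_assoc]
  rfl

private theorem W2_all (hM : Machine f g c y S L a m δ q0 out) (hR : Run f g c y s x) (n : ℕ) :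
    List.foldl (W2_step δ out) (q0, []) ((List.range (tri n + 1)).map (wordOf a m L x)) =
      (q0, (List.range (tri (n + 1) + 1)).map (wordOf a m L x)) := by
  induction n with
  | zero =>
    have e1 : wordOf a m L x 1 = m := W2_mark (a := a) (m := m) (L := L) (x := x) 0
    have e2 : (List.range (tri 0 + 1)).map (wordOf a m L x) = [a] := rfl
    have e3 : (List.range (tri (0 + 1) + 1)).map (wordOf a m L x) = [a, wordOf a m L x 1] := rfl
    rw [e2, e3, e1]
    simp only [List.foldl_cons, List.foldl_nil, W2_step]
    rw [(hM.seed _).1, (hM.seed _).2]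
    rfl
  | succ n ih =>
    have e1 : tri (n + 1) + 1 = (tri n + 1) + (n + 1) := by
      have : tri (n + 1) = tri n + (n + 1) := rfl
      omega
    have e2 : tri (n + 1 + 1) + 1 = (tri (n + 1) + 1) + (n + 2) := by
      have : tri (n + 1 + 1) = tri (n + 1) + (n + 1 + 1) := rfl
      omega
    have e3 : List.range (tri (n + 1) + 1) =
        List.range (tri n + 1) ++ (List.range (n + 1)).map (fun i => tri n + 1 + i) := by
      rw [e1, List.range_add]
    have e4 : List.range (tri (n + 1 + 1) + 1) = List.range (tri (n + 1) + 1) ++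
        (List.range (n + 2)).map (fun i => tri (n + 1) + 1 + i) := by
      rw [e2, List.range_add]
    rw [e4, List.map_append, List.map_map]
    conv_lhs => rw [e3, List.map_append, List.map_map]
    rw [List.foldl_append, ih]
    exact W2_row hM hR n _

/-- TASK W2. The iterates. `row n = (List.range n).map (fun j => L (x (n - 1 - j) j)) ++ [m]`; the
iterate is `a :: row 0 ++ row 1 ++ ... ++ row (n - 1)`; the machine is in the state `S c` at the
beginning of each row, in the state `S (s (n - 1 - j) j)` before it reads the letter number `j < n`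
of `row n`, and turns `row n` into `row (n + 1)`. (`kp j (n - j) = tri n + j`, `ku_kp`.) -/
theorem iterate_eq (hM : Machine f g c y S L a m δ q0 out) (hR : Run f g c y s x) (n : ℕ) :
    (trans δ q0 out)^[n] [a] = (List.range (tri n + 1)).map (wordOf a m L x) := by
  induction n with
  | zero => rfl
  | succ n ih =>
    rw [Function.iterate_succ_apply', ih]
    exact congrArg Prod.snd (W2_all hM hR n)

end Pool.Agent.W_5d512e_post
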